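import Pool.Agent.H16.RB.Defs

/-!
# RB module Iso: homomorphisms to `(ZMod p) ^ s` isolating a line

Sketch.  Induction on `s`.  The group `A` of all `l : G →+ ZMod p` with `l u = 0` is finite; for
`x ∈ T` evaluation at `y x` is a nonzero homomorphism `A → ZMod p`, so exactly `card A / p` elements of
`A` vanish at `y x`; averaging, some `l ∈ A` vanishes at `y x` for at most `T.card / p < p ^ (s - 1)` of
the `x ∈ T`.  Apply the induction hypothesis to the remaining `x`.
-/

set_option autoImplicit false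

namespace Pool.Agent.H16.RB

open Finset

private theorem Iso_count {p : ℕ} [Fact p.Prime] {A : Type*} [AddCommGroup A] [Fintype A]
    (ev : A →+ ZMod p) (h : ∃ a, ev a ≠ 0) :
    ((univ : Finset A).filter (fun a => ev a = 0)).card * p = Fintype.card A := by
  classical
  have hsurj : Function.Surjective ev := by
    obtain ⟨a, ha⟩ := h
    intro z
    refine ⟨(z * (ev a)⁻¹).val • a, ?_⟩
    rw [map_nsmul, nsmul_eq_mul, ZMod.natCast_zmod_val, mul_assoc, inv_mul_cancel₀ ha, mul_one]
  have h1 := AddSubgroup.card_mul_index ev.ker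
  rw [AddSubgroup.index_ker, AddMonoidHom.range_eq_top.mpr hsurj, AddSubgroup.card_top,
    Nat.card_zmod] at h1
  have h2 : Nat.card ev.ker = ((univ : Finset A).filter (fun a => ev a = 0)).card := by
    apply Nat.subtype_card
    intro x
    simp only [mem_filter, mem_univ, true_and]
    exact (AddMonoidHom.mem_ker (f := ev) (x := x)).symm
  rw [h2, Nat.card_eq_fintype_card] at h1
  exact h1

private theorem Iso_step {p : ℕ} [Fact p.Prime] {X G : Type*} [AddCommGroup G] [Finite G] (u : G)
    (y : X → G) (s : ℕ) (T : Finset X) (hT : T.card < p ^ (s + 1))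
    (h : ∀ x ∈ T, ∃ l : G →+ ZMod p, l u = 0 ∧ l (y x) ≠ 0) :
    ∃ l : G →+ ZMod p, l u = 0 ∧ ∃ T' : Finset X, T'.card < p ^ s ∧ T' ⊆ T ∧
      ∀ x ∈ T, x ∉ T' → l (y x) ≠ 0 := by
  classical
  have hp : 0 < p := (Fact.out : p.Prime).pos
  have : Finite (G →+ ZMod p) := DFunLike.finite _
  let A : AddSubgroup (G →+ ZMod p) := (AddMonoidHom.eval u).ker
  obtain ⟨hA⟩ := nonempty_fintype A
  have hmem : ∀ l : G →+ ZMod p, l ∈ A ↔ l u = 0 := by
    intro l
    change l ∈ (AddMonoidHom.eval u).ker ↔ l u = 0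
    rw [AddMonoidHom.mem_ker, AddMonoidHom.eval_apply_apply]
  let ev : X → (A →+ ZMod p) := fun x => (AddMonoidHom.eval (y x)).comp A.subtype
  have hev : ∀ x (l : A), ev x l = (l : G →+ ZMod p) (y x) := fun x l => rfl
  have hcount : ∀ x ∈ T, ((univ : Finset A).filter (fun l => ev x l = 0)).card * p =
      Fintype.card A := by
    intro x hx
    apply Iso_count
    obtain ⟨l, hl, hl'⟩ := h x hx
    exact ⟨⟨l, (hmem l).mpr hl⟩, hl'⟩
  by_contra hcon
  push Not at hcon
  have hbig : ∀ l : A, p ^ s ≤ (T.filter (fun x => ev x l = 0)).card := by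
    intro l
    by_contra hlt
    push Not at hlt
    obtain ⟨x, hx, hx', hx0⟩ := hcon l.1 ((hmem l.1).mp l.2) (T.filter (fun x => ev x l = 0)) hlt
      (filter_subset _ _)
    apply hx'
    rw [mem_filter]
    exact ⟨hx, hx0⟩
  have hdc : ∑ l : A, (T.filter (fun x => ev x l = 0)).card =
      ∑ x ∈ T, ((univ : Finset A).filter (fun l => ev x l = 0)).card := by
    simp only [card_filter]
    exact Finset.sum_comm
  have h1 : Fintype.card A * p ^ s ≤ ∑ l : A, (T.filter (fun x => ev x l = 0)).card := by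
    have := Finset.card_nsmul_le_sum (univ : Finset A) (fun l => (T.filter (fun x => ev x l = 0)).card)
      (p ^ s) (fun l _ => hbig l)
    rwa [smul_eq_mul, Finset.card_univ] at this
  have h2 : (∑ x ∈ T, ((univ : Finset A).filter (fun l => ev x l = 0)).card) * p =
      T.card * Fintype.card A := by
    rw [Finset.sum_mul, Finset.sum_congr rfl hcount, Finset.sum_const, smul_eq_mul]
  have h3 : 0 < Fintype.card A := Fintype.card_pos
  have h4 : Fintype.card A * p ^ (s + 1) ≤ Fintype.card A * T.card := by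
    calc Fintype.card A * p ^ (s + 1) = (Fintype.card A * p ^ s) * p := by ring
      _ ≤ (∑ l : A, (T.filter (fun x => ev x l = 0)).card) * p := Nat.mul_le_mul_right _ h1
      _ = T.card * Fintype.card A := by rw [hdc, h2]
      _ = Fintype.card A * T.card := Nat.mul_comm _ _
  have h5 := Nat.le_of_mul_le_mul_left h4 h3
  omega

theorem iso {p : ℕ} [Fact p.Prime] {X G : Type*} [AddCommGroup G] [Finite G] (u : G) (y : X → G)
    (s : ℕ) (T : Finset X) (hT : T.card < p ^ s)
    (h : ∀ x ∈ T, ∃ l : G →+ ZMod p, l u = 0 ∧ l (y x) ≠ 0) :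
    ∃ τ : Fin s → (G →+ ZMod p), (∀ i, τ i u = 0) ∧ ∀ x ∈ T, ∃ i, τ i (y x) ≠ 0 := by
  classical
  induction s generalizing T with
  | zero =>
    rw [pow_zero, Nat.lt_one_iff, Finset.card_eq_zero] at hT
    refine ⟨fun i => i.elim0, fun i => i.elim0, ?_⟩
    intro x hx
    rw [hT] at hx
    exact absurd hx (Finset.notMem_empty x)
  | succ s ih =>
    obtain ⟨l, hl, T', hT', hsub, hl'⟩ := Iso_step u y s T hT h
    obtain ⟨τ, hτ, hτ'⟩ := ih T' hT' (fun x hx => h x (hsub hx))
    refine ⟨Fin.cons l τ, ?_, ?_⟩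
    · intro i
      refine Fin.cases ?_ ?_ i
      · rw [Fin.cons_zero]
        exact hl
      · intro j
        rw [Fin.cons_succ]
        exact hτ j
    · intro x hx
      by_cases hx' : x ∈ T'
      · obtain ⟨i, hi⟩ := hτ' x hx'
        refine ⟨i.succ, ?_⟩
        rw [Fin.cons_succ]
        exact hi
      · refine ⟨0, ?_⟩
        rw [Fin.cons_zero]
        exact hl' x hx hx'

end Pool.Agent.H16.RB
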