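import Pool.Agent.H16.RB.Diff

/-!
# RB module LineSum: the sum of the lifts of a polynomial function of small degree on a line

Sketch.  `t ↦ (h t : ZMod p)` is a polynomial function of degree exactly `k` (Newton forward
differences, `shift_eq_sum_fwdDiff_iter`, or induction), so it takes the value `0` at most `k` times and
the value `1` at most `k` times.  With `n_0 ≤ #{t | (h t : ZMod p) = 0} ≤ k`, `n_1` similarly,
`∑ h t ≥ n_1' + 2 (p - n_0' - n_1')` where `n_0', n_1'` are the numbers of `t` with `h t = 0`, `h t = 1`;
if `∑ h t ≤ p` then `p ≤ 2 n_0' + n_1' ≤ 3 k < p`.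
-/

set_option autoImplicit false

namespace Pool.Agent.H16.RB

open Finset

private theorem diffs_eq_iter {F : Type*} [Field F] (k : ℕ) (g : F → F) (x : F) :
    diffs (List.replicate k (1 : F)) g x = (fwdDiff (1 : F))^[k] g x := by
  induction k generalizing x with
  | zero => rfl
  | succ k ih =>
    rw [List.replicate_succ, Function.iterate_succ_apply']
    show diffs (List.replicate k (1 : F)) g (x + 1) - diffs (List.replicate k (1 : F)) g x = _
    rw [ih, ih]
    rfl

private theorem iter_const {F : Type*} [Field F] (n : ℕ) (c : F) :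
    (fwdDiff (1 : F))^[n + 1] (fun _ : F => c) = fun _ => 0 := by
  induction n with
  | zero =>
    rw [zero_add, Function.iterate_one]
    exact fwdDiff_const _ _
  | succ n ih =>
    rw [Function.iterate_succ_apply', ih]
    exact fwdDiff_const _ _

private theorem exists_poly {p k : ℕ} [Fact p.Prime] (g : ZMod p → ZMod p) (c : ZMod p)
    (hc : c ≠ 0) (hd : ∀ x, (fwdDiff (1 : ZMod p))^[k] g x = c) :
    ∃ P : Polynomial (ZMod p), P.natDegree = k ∧ P ≠ 0 ∧ ∀ x, P.eval x = g x := by
  have hp : p.Prime := Fact.out
  set P : Polynomial (ZMod p) := Lagrange.interpolate univ id g with hP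
  have hev : ∀ x, P.eval x = g x := fun x =>
    Lagrange.eval_interpolate_at_node g (Set.injOn_id _) (mem_univ x)
  have hfun : P.eval = g := funext hev
  have hdeg : P.degree < (p : ℕ) := by
    have h1 := Lagrange.degree_interpolate_lt (s := (univ : Finset (ZMod p))) (v := id) g
      (Set.injOn_id _)
    rwa [card_univ, ZMod.card] at h1
  have hP0 : P ≠ 0 := by
    intro h0
    apply hc
    rw [← hd 0, ← hfun, h0]
    have h1 := Polynomial.fwdDiff_iter_eq_zero_of_degree_lt (R := ZMod p) (P := 0) (n := k + 1)
      (by simp)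
    have h2 : (Polynomial.eval · (0 : Polynomial (ZMod p))) = fun _ => 0 := by
      funext x
      simp
    rw [h2]
    rcases k with _ | k
    · rfl
    · rw [iter_const]
  have hnd : P.natDegree < p := (Polynomial.natDegree_lt_iff_degree_lt hP0).2 hdeg
  refine ⟨P, ?_, hP0, hev⟩
  rcases lt_trichotomy P.natDegree k with h | h | h
  · exfalso
    apply hc
    rw [← hd 0, ← hfun, Polynomial.fwdDiff_iter_eq_zero_of_degree_lt h]
    rfl
  · exact h
  · exfalso
    obtain ⟨m, hm⟩ : ∃ m, P.natDegree = m + 1 + k := ⟨P.natDegree - k - 1, by omega⟩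
    have h1 := Polynomial.fwdDiff_iter_degree_eq_factorial P
    rw [hm, Function.iterate_add_apply, hfun, funext hd, iter_const] at h1
    have h2 := congrFun h1 0
    have h3 : ((m + 1 + k).factorial : ZMod p) ≠ 0 := by
      intro h4
      rw [ZMod.natCast_eq_zero_iff, hp.dvd_factorial] at h4
      omega
    simp only [Pi.smul_apply, smul_eq_mul, Pi.natCast_apply] at h2
    exact mul_ne_zero (Polynomial.leadingCoeff_ne_zero.2 hP0) h3 h2.symm

theorem line_sum {p k : ℕ} [Fact p.Prime] (hk1 : 1 ≤ k) (hk : 3 * k < p) (h : ZMod p → ℕ)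
    (c : ZMod p) (hc : c ≠ 0)
    (hd : ∀ x, diffs (List.replicate k (1 : ZMod p)) (fun t => (h t : ZMod p)) x = c) :
    p < ∑ t, h t := by
  obtain ⟨P, hPk, hP0, hev⟩ := exists_poly (fun t => (h t : ZMod p)) c hc
    (fun x => by rw [← diffs_eq_iter]; exact hd x)
  have hz : (univ.filter fun t : ZMod p => h t = 0).card ≤ k := by
    have h1 : (univ.filter fun t : ZMod p => h t = 0) ⊆ P.roots.toFinset := by
      intro t ht
      rw [mem_filter] at ht
      rw [Multiset.mem_toFinset, Polynomial.mem_roots hP0, Polynomial.IsRoot.def, hev, ht.2,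
        Nat.cast_zero]
    calc (univ.filter fun t : ZMod p => h t = 0).card ≤ P.roots.toFinset.card := card_le_card h1
      _ ≤ Multiset.card P.roots := Multiset.toFinset_card_le _
      _ ≤ P.natDegree := Polynomial.card_roots' P
      _ = k := hPk
  have ho : (univ.filter fun t : ZMod p => h t = 1).card ≤ k := by
    have hQd : (P - Polynomial.C 1).natDegree = k := by
      rw [Polynomial.natDegree_sub_C, hPk]
    have hQ0 : P - Polynomial.C 1 ≠ 0 := by
      intro h0
      rw [h0, Polynomial.natDegree_zero] at hQd
      omega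
    have h1 : (univ.filter fun t : ZMod p => h t = 1) ⊆ (P - Polynomial.C 1).roots.toFinset := by
      intro t ht
      rw [mem_filter] at ht
      rw [Multiset.mem_toFinset, Polynomial.mem_roots hQ0, Polynomial.IsRoot.def,
        Polynomial.eval_sub, hev, ht.2, Polynomial.eval_C, Nat.cast_one, sub_self]
    calc (univ.filter fun t : ZMod p => h t = 1).card
        ≤ (P - Polynomial.C 1).roots.toFinset.card := card_le_card h1
      _ ≤ Multiset.card (P - Polynomial.C 1).roots := Multiset.toFinset_card_le _
      _ ≤ (P - Polynomial.C 1).natDegree := Polynomial.card_roots' _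
      _ = k := hQd
  have hsum : 2 * p ≤ ∑ t, h t + 2 * (univ.filter fun t : ZMod p => h t = 0).card +
      (univ.filter fun t : ZMod p => h t = 1).card := by
    have h1 : ∑ _t : ZMod p, 2 ≤ ∑ t : ZMod p, (h t + 2 * (if h t = 0 then 1 else 0) +
        (if h t = 1 then 1 else 0)) := by
      refine sum_le_sum fun t _ => ?_
      split_ifs <;> omega
    rw [sum_const, card_univ, ZMod.card, smul_eq_mul, sum_add_distrib, sum_add_distrib,
      ← mul_sum, sum_boole, sum_boole] at h1
    simp only [Nat.cast_id] at h1
    omega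
  omega

end Pool.Agent.H16.RB
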