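import Pool.Agent.H16.RB.Polar
import Pool.Agent.H16.RB.LineSum

/-!
# RB module Const: functions of small degree and small average are constant modulo `p`

Sketch.  Let `k ≤ b` be minimal such that all `diffs L g` with `L.length = k + 1` vanish.  If `k = 0`
we are done.  Otherwise some list of length `k` gives a nonzero value, so by `polar` there are `e`, `x`
with `diffs (List.replicate k e) g x = c ≠ 0`, and this is independent of `x` (all differences of order
`k + 1` vanish).  For each `x` apply `line_sum` to `t ↦ g (x + t.val • e)`: `p < ∑ t, g (x + t.val • e)`.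
Sum over `x`: `p * card V < p * ∑ g ≤ p * card V` (if `V` is empty nothing to do; it contains `x`).
-/

set_option autoImplicit false

namespace Pool.Agent.H16.RB

open Finset

private theorem line_diffs {p : ℕ} [Fact p.Prime] {V : Type*} [AddCommGroup V]
    (hV : ∀ v : V, p • v = 0) (G : V → ZMod p) (x e : V) (k : ℕ) :
    ∀ t : ZMod p, diffs (List.replicate k (1 : ZMod p)) (fun t => G (x + t.val • e)) t
      = diffs (List.replicate k e) G (x + t.val • e) := by
  induction k with
  | zero => intro t; rfl
  | succ k ih =>
    intro t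
    have h1 : (t + 1).val • e = t.val • e + e := by
      rw [ZMod.val_add, ZMod.val_one'' (Fact.out : p.Prime).ne_one]
      have h2 := Nat.div_add_mod (t.val + 1) p
      have h3 : (t.val + 1) • e = ((t.val + 1) % p) • e := by
        conv_lhs => rw [← h2]
        rw [add_smul, mul_comm, mul_smul, hV, smul_zero, zero_add]
      rw [← h3, add_smul, one_smul]
    simp only [List.replicate_succ, diffs]
    rw [ih, ih, h1, add_assoc]

theorem const_of_small {p b : ℕ} [Fact p.Prime] (hb : 3 * b < p) {V : Type*} [AddCommGroup V]
    [Fintype V] (hV : ∀ v : V, p • v = 0) (g : V → ℕ)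
    (hg : ∀ L : List V, L.length = b + 1 → ∀ x, diffs L (fun z => (g z : ZMod p)) x = 0)
    (hs : ∑ z, g z ≤ Fintype.card V) (x y : V) : (g x : ZMod p) = (g y : ZMod p) := by
  classical
  set G : V → ZMod p := fun z => (g z : ZMod p) with hG
  have hex : ∃ k, ∀ L : List V, L.length = k + 1 → ∀ x, diffs L G x = 0 := ⟨b, hg⟩
  obtain ⟨k, hk, hmin⟩ : ∃ k, (∀ L : List V, L.length = k + 1 → ∀ x, diffs L G x = 0) ∧
      ∀ j < k, ¬ (∀ L : List V, L.length = j + 1 → ∀ x, diffs L G x = 0) :=
    ⟨Nat.find hex, Nat.find_spec hex, fun j hj => Nat.find_min hex hj⟩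
  have hkb : k ≤ b := by
    by_contra hcon
    exact hmin b (by omega) hg
  rcases Nat.eq_zero_or_pos k with hk0 | hkpos
  · subst hk0
    have h1 := hk [y - x] rfl x
    simp only [diffs] at h1
    rw [add_sub_cancel] at h1
    exact (sub_eq_zero.mp h1).symm
  · exfalso
    have hkp : k < p := by omega
    have h2 : ¬ ∀ (e : V) (x : V), diffs (List.replicate k e) G x = 0 := by
      intro h2
      apply hmin (k - 1) (by omega)
      intro L hL x
      exact polar hkp G hk h2 L (by omega) x
    push Not at h2
    obtain ⟨e, x0, hc⟩ := h2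
    have hconst : ∀ z, diffs (List.replicate k e) G z = diffs (List.replicate k e) G x0 := by
      intro z
      have h3 := hk ((z - x0) :: List.replicate k e) (by simp) x0
      simp only [diffs] at h3
      rw [add_sub_cancel] at h3
      exact sub_eq_zero.mp h3
    have hline : ∀ x : V, p < ∑ t : ZMod p, g (x + t.val • e) := by
      intro x
      refine line_sum hkpos (by omega) (fun t : ZMod p => g (x + t.val • e))
        (diffs (List.replicate k e) G x0) hc ?_
      intro t
      have h4 := line_diffs hV G x e k t
      rw [hconst] at h4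
      exact h4
    have hsum : ∑ x : V, ∑ t : ZMod p, g (x + t.val • e) = p * ∑ z, g z := by
      rw [Finset.sum_comm]
      have h5 : ∀ t : ZMod p, ∑ x : V, g (x + t.val • e) = ∑ z, g z := by
        intro t
        exact Fintype.sum_equiv (Equiv.addRight (t.val • e)) _ _ (fun z => rfl)
      rw [Finset.sum_congr rfl (fun t _ => h5 t), Finset.sum_const, Finset.card_univ,
        ZMod.card, smul_eq_mul]
    have hlt : ∑ _x : V, p < ∑ x : V, ∑ t : ZMod p, g (x + t.val • e) :=
      Finset.sum_lt_sum_of_nonempty ⟨x0, Finset.mem_univ x0⟩ (fun x _ => hline x)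
    rw [hsum, Finset.sum_const, Finset.card_univ, smul_eq_mul, mul_comm] at hlt
    exact absurd hlt (not_lt.mpr (Nat.mul_le_mul_left p hs))

end Pool.Agent.H16.RB
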