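import Pool.Agent.H16.RB.Defs
import Pool.Agent.H88.Pl.AR

/-!
# RB module Cyc: facts on the cyclotomic integers

Sketch.  `π = ζ - 1` is prime (`hζ.zeta_sub_one_prime`), `p` is associated to
`π ^ (finrank)`, `finrank = p ^ k * (p - 1)` (see `ArAux.assoc_of_norm` in H88.Pl.AR for the proof).
`cost_digit`: put `η = ζ ^ (p ^ (k - d))`, a primitive `p ^ (d + 1)`-th root of unity.  For
`1 ≤ t < p ^ d` the product over `i < p` of `1 - η ^ (t + i p ^ d)` is `1 - (η ^ p) ^ t` and each factor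
is divisible by `1 - η ^ t` (as `t + i p ^ d = t s` modulo `p ^ (d + 1)` for some `s`), so
`(1 - η ^ t) ^ p ∣ 1 - (η ^ p) ^ t`, and the product of `1 - (η ^ p) ^ t` over `1 ≤ t < p ^ d` is
`p ^ d` (`IsPrimitiveRoot.prod_one_sub_pow_eq_order`).  (Or compute the valuation of each
`1 - ζ ^ n` directly.)  `cost_lin`: `(1 - ζ_p) ^ (p - 1)` is associated to `p`, i.e. to
`π ^ ((p - 1) p ^ k)`, and divisors of powers of `π` are powers of `π` up to units; or from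
`(π + 1) ^ (p ^ k) - 1`.  `dvd_of_pi_dvd`: otherwise `n` and `p` are coprime integers and `π ∣ 1`.
`cancel`: `c` is associated to `π ^ i`, `p * i ≤ C < p * M`.
-/

set_option autoImplicit false

namespace Pool.Agent.H16.RB

open Finset NumberField

namespace Cyc

/-- `p` is associated to a power of `ζ - 1`. -/
theorem assoc_p {p k : ℕ} [Fact p.Prime] {L : Type*} [Field L] [NumberField L]
    [hL : IsCyclotomicExtension {p ^ (k + 1)} ℚ L] {ζ : L} (hζ : IsPrimitiveRoot ζ (p ^ (k + 1))) :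
    Associated (p : 𝓞 L) ((hζ.toInteger - 1) ^ (p ^ k * (p - 1))) := by
  have hfr : Module.finrank ℚ L = p ^ k * (p - 1) := by
    rw [IsCyclotomicExtension.finrank (n := p ^ (k + 1)) L
      (Polynomial.cyclotomic.irreducible_rat (pow_pos (Fact.out : p.Prime).pos _)),
      Nat.totient_prime_pow_succ Fact.out]
  have hass : Associated (p : 𝓞 L) ((hζ.toInteger - 1) ^ Module.finrank ℚ L) := by
    rw [← Ideal.span_singleton_eq_span_singleton, ← Ideal.span_singleton_pow,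
      ← IsCyclotomicExtension.Rat.map_eq_span_zeta_sub_one_pow p k hζ, Ideal.map_span,
      Set.image_singleton]
    simp
  rwa [hfr] at hass

/-- Divisors whose powers divide powers of a prime. -/
theorem root_dvd {R : Type*} [CommRing R] [IsDomain R] {π a : R} (hπ : Prime π) {m C : ℕ}
    (hm : 0 < m) (h : a ^ m ∣ π ^ (m * C)) : a ∣ π ^ C := by
  obtain ⟨i, -, hi⟩ := (dvd_prime_pow hπ _).1 ((dvd_pow_self a hm.ne').trans h)
  have h1 : π ^ (i * m) ∣ π ^ (m * C) := by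
    rw [pow_mul]
    exact (hi.pow_pow (n := m)).symm.dvd.trans h
  have h2 : i * m ≤ m * C := (pow_dvd_pow_iff hπ.ne_zero hπ.not_isUnit).1 h1
  have h3 : i ≤ C := by
    rw [mul_comm] at h2
    exact Nat.le_of_mul_le_mul_left h2 hm
  exact hi.dvd.trans (pow_dvd_pow π h3)

theorem one_sub_dvd {R : Type*} [CommRing R] (x : R) (s : ℕ) : 1 - x ∣ 1 - x ^ s := by
  have h := sub_dvd_pow_sub_pow (1 : R) x s
  rwa [one_pow] at h

theorem pow_dvd_one_sub {R : Type*} [CommRing R] [IsDomain R] {p : ℕ} (hp : p.Prime) {d : ℕ}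
    {η : R} (hη : IsPrimitiveRoot η (p ^ (d + 1))) {t : ℕ} (ht0 : 1 ≤ t) (ht : t < p ^ d) :
    (1 - η ^ t) ^ p ∣ 1 - (η ^ p) ^ t := by
  classical
  have hlt : t < p ^ (d + 1) := ht.trans_le (Nat.pow_le_pow_right hp.pos (Nat.le_succ d))
  set θ : R := η ^ t with hθ
  have hθ1 : θ ≠ 1 := hη.pow_ne_one_of_pos_of_lt (by omega) hlt
  have hθp : θ ^ p ^ (d + 1) = 1 := by
    rw [hθ, ← pow_mul, mul_comm, pow_mul, hη.pow_eq_one, one_pow]
  have hω : IsPrimitiveRoot (η ^ p ^ d) p :=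
    hη.pow (pow_pos hp.pos _) (pow_succ p d)
  obtain ⟨j, -, hj⟩ := (Nat.dvd_prime_pow hp).1 (orderOf_dvd_of_pow_eq_one hθp)
  have hj0 : j ≠ 0 := by
    rintro rfl
    rw [pow_zero, orderOf_eq_one_iff] at hj
    exact hθ1 hj
  have hpm : p ∣ orderOf θ := by
    rw [hj]
    exact dvd_pow_self p hj0
  have e : (1 : R) - (η ^ p) ^ t = ∏ ρ ∈ Polynomial.nthRootsFinset p (1 : R), (1 - ρ * θ) := by
    have h := hω.pow_sub_pow_eq_prod_sub_mul (1 : R) θ hp.pos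
    rw [← h, one_pow, hθ, ← pow_mul, ← pow_mul, mul_comm]
  have hc : (Polynomial.nthRootsFinset p (1 : R)).card = p := hω.card_nthRootsFinset
  rw [e]
  have h1 : (1 - θ) ^ p = ∏ _ρ ∈ Polynomial.nthRootsFinset p (1 : R), (1 - θ) := by
    rw [Finset.prod_const, hc]
  rw [h1]
  refine Finset.prod_dvd_prod_of_dvd _ _ fun ρ hρ => ?_
  have hρ1 : ρ ^ p = 1 := (Polynomial.mem_nthRootsFinset hp.pos _).1 hρ
  have hm : (ρ * θ) ^ orderOf θ = 1 := by
    obtain ⟨c, hc⟩ := hpm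
    rw [mul_pow, pow_orderOf_eq_one, mul_one, hc, pow_mul, hρ1, one_pow]
  have hm0 : 0 < orderOf θ := by
    rw [hj]
    exact pow_pos hp.pos _
  have : NeZero (orderOf θ) := ⟨hm0.ne'⟩
  obtain ⟨s, -, hs⟩ := (IsPrimitiveRoot.orderOf θ).eq_pow_of_pow_eq_one hm
  rw [← hs]
  exact one_sub_dvd θ s

end Cyc

theorem cost_digit {p k : ℕ} [Fact p.Prime] {L : Type*} [Field L] [NumberField L]
    [IsCyclotomicExtension {p ^ (k + 1)} ℚ L] {ζ : L} (hζ : IsPrimitiveRoot ζ (p ^ (k + 1)))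
    {d : ℕ} (hd : d ≤ k) :
    (∏ t ∈ Ico 1 (p ^ d), (1 - (hζ.toInteger ^ (p ^ (k - d))) ^ t)) ^ p ∣
      (hζ.toInteger - 1) ^ (d * (p - 1) * p ^ k) := by
  have hp : p.Prime := Fact.out
  have hζ' : IsPrimitiveRoot hζ.toInteger (p ^ (k + 1)) := hζ.toInteger_isPrimitiveRoot
  have hη : IsPrimitiveRoot (hζ.toInteger ^ (p ^ (k - d))) (p ^ (d + 1)) :=
    hζ'.pow (pow_pos hp.pos _) (by rw [← pow_add]; congr 1; omega)
  set η := hζ.toInteger ^ (p ^ (k - d)) with hηdef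
  have hμ : IsPrimitiveRoot (η ^ p) (p ^ d) := hη.pow (pow_pos hp.pos _) (by rw [pow_succ, mul_comm])
  have hpd : 0 < p ^ d := pow_pos hp.pos _
  obtain ⟨n, hn⟩ : ∃ n, p ^ d = n + 1 := ⟨p ^ d - 1, by omega⟩
  have h1 : ∏ t ∈ Ico 1 (p ^ d), (1 - (η ^ p) ^ t) = (p : 𝓞 L) ^ d := by
    rw [hn] at hμ
    have h2 := hμ.prod_one_sub_pow_eq_order
    rw [hn, Finset.prod_Ico_eq_prod_range]
    have h3 : ∀ x ∈ range (n + 1 - 1), (1 - (η ^ p) ^ (1 + x)) = 1 - (η ^ p) ^ (x + 1) := by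
      intro x _
      rw [add_comm]
    rw [Finset.prod_congr rfl h3, Nat.add_sub_cancel, h2]
    have h4 : ((p : 𝓞 L) ^ d) = ((p ^ d : ℕ) : 𝓞 L) := by push_cast; rfl
    rw [h4, hn]
    push_cast
    rfl
  have h5 : (∏ t ∈ Ico 1 (p ^ d), (1 - η ^ t)) ^ p ∣ (p : 𝓞 L) ^ d := by
    rw [← h1, ← Finset.prod_pow]
    refine Finset.prod_dvd_prod_of_dvd _ _ fun t ht => ?_
    obtain ⟨h6, h7⟩ := Finset.mem_Ico.1 ht
    exact Cyc.pow_dvd_one_sub hp hη h6 h7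
  refine h5.trans ?_
  have h8 := ((Cyc.assoc_p hζ).pow_pow (n := d)).dvd
  refine h8.trans ?_
  rw [← pow_mul]
  exact dvd_of_eq (by congr 1; ring)

theorem cost_lin {p k : ℕ} [Fact p.Prime] {L : Type*} [Field L] [NumberField L]
    [IsCyclotomicExtension {p ^ (k + 1)} ℚ L] {ζ : L} (hζ : IsPrimitiveRoot ζ (p ^ (k + 1))) :
    (hζ.toInteger ^ (p ^ k) - 1) ∣ (hζ.toInteger - 1) ^ (p ^ k) := by
  have hp : p.Prime := Fact.out
  have hζ' : IsPrimitiveRoot hζ.toInteger (p ^ (k + 1)) := hζ.toInteger_isPrimitiveRoot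
  have hω : IsPrimitiveRoot (hζ.toInteger ^ p ^ k) p :=
    hζ'.pow (pow_pos hp.pos _) (pow_succ p k)
  set ω := hζ.toInteger ^ p ^ k with hωdef
  obtain ⟨n, hn⟩ : ∃ n, p = n + 1 := ⟨p - 1, by have := hp.pos; omega⟩
  have hn1 : n = p - 1 := by omega
  have hn0 : 0 < n := by have := hp.two_le; omega
  have h1 : (1 - ω) ^ n ∣ (p : 𝓞 L) := by
    have hω' : IsPrimitiveRoot ω (n + 1) := by rw [← hn]; exact hω
    have h2 := hω'.prod_one_sub_pow_eq_order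
    have h3 : (p : 𝓞 L) = (n : 𝓞 L) + 1 := by
      rw [hn]; push_cast; rfl
    rw [h3, ← h2]
    have h4 : (1 - ω) ^ n = ∏ _i ∈ range n, (1 - ω) := by
      rw [Finset.prod_const, Finset.card_range]
    rw [h4]
    exact Finset.prod_dvd_prod_of_dvd _ _ fun i _ => Cyc.one_sub_dvd ω (i + 1)
  have h5 : (1 - ω) ^ n ∣ (hζ.toInteger - 1) ^ (n * p ^ k) := by
    refine h1.trans ((Cyc.assoc_p hζ).dvd.trans (dvd_of_eq ?_))
    rw [hn1, mul_comm]
  have h6 := Cyc.root_dvd hζ.zeta_sub_one_prime hn0 h5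
  rw [← neg_sub, neg_dvd]
  exact h6

theorem pi_dvd_p {p k : ℕ} [Fact p.Prime] {L : Type*} [Field L] [NumberField L]
    [IsCyclotomicExtension {p ^ (k + 1)} ℚ L] {ζ : L} (hζ : IsPrimitiveRoot ζ (p ^ (k + 1))) :
    (hζ.toInteger - 1) ∣ (p : 𝓞 L) := by
  have hp : p.Prime := Fact.out
  have h0 : p ^ k * (p - 1) ≠ 0 := by
    have h1 := pow_pos hp.pos k
    have h2 := hp.two_le
    exact mul_ne_zero h1.ne' (by omega)
  exact (dvd_pow_self _ h0).trans (Cyc.assoc_p hζ).symm.dvd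

theorem dvd_of_pi_dvd {p k : ℕ} [Fact p.Prime] {L : Type*} [Field L] [NumberField L]
    [IsCyclotomicExtension {p ^ (k + 1)} ℚ L] {ζ : L} (hζ : IsPrimitiveRoot ζ (p ^ (k + 1)))
    (n : ℤ) (hn : (hζ.toInteger - 1) ∣ (n : 𝓞 L)) : (p : ℤ) ∣ n := by
  have hp : p.Prime := Fact.out
  by_contra hnd
  have hcop : IsCoprime (p : ℤ) n := (Nat.prime_iff_prime_int.1 hp).coprime_iff_not_dvd.2 hnd
  obtain ⟨a, b, hab⟩ := hcop
  have h1 : (a : 𝓞 L) * (p : 𝓞 L) + (b : 𝓞 L) * (n : 𝓞 L) = 1 := by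
    have := congrArg (Int.cast : ℤ → 𝓞 L) hab
    push_cast at this
    exact this
  have h2 := dvd_add ((pi_dvd_p hζ).mul_left (a : 𝓞 L)) (hn.mul_left (b : 𝓞 L))
  rw [h1] at h2
  exact hζ.zeta_sub_one_prime.not_isUnit (isUnit_of_dvd_one h2)

/-- cancellation of a factor of small valuation -/
theorem cancel {p k : ℕ} [Fact p.Prime] {L : Type*} [Field L] [NumberField L]
    [IsCyclotomicExtension {p ^ (k + 1)} ℚ L] {ζ : L} (hζ : IsPrimitiveRoot ζ (p ^ (k + 1)))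
    {c U : 𝓞 L} {M C : ℕ} (h : (hζ.toInteger - 1) ^ M ∣ c * U)
    (hc : c ^ p ∣ (hζ.toInteger - 1) ^ C) (hCM : C < p * M) : (hζ.toInteger - 1) ∣ U := by
  have hp : p.Prime := Fact.out
  have hπ : Prime (hζ.toInteger - 1) := hζ.zeta_sub_one_prime
  set π := hζ.toInteger - 1 with hπd
  obtain ⟨i, -, hi⟩ := (dvd_prime_pow hπ _).1 ((dvd_pow_self c hp.ne_zero).trans hc)
  have h1 : π ^ (i * p) ∣ π ^ C := by
    rw [pow_mul]
    exact (hi.pow_pow (n := p)).symm.dvd.trans hc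
  have h2 : i * p ≤ C := (pow_dvd_pow_iff hπ.ne_zero hπ.not_isUnit).1 h1
  have h3 : i < M := by
    have h4 : p * i < p * M := by rw [mul_comm p i]; omega
    exact Nat.lt_of_mul_lt_mul_left h4
  have h5 : π ^ M ∣ π ^ i * U := h.trans (mul_dvd_mul_right hi.dvd U)
  have h6 : π ^ (i + 1) ∣ π ^ i * U := (pow_dvd_pow π h3).trans h5
  rw [pow_succ] at h6
  exact (mul_dvd_mul_iff_left (pow_ne_zero i hπ.ne_zero)).1 h6

end Pool.Agent.H16.RB
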