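import Pool.Agent.H88.Pl.Defs

/-!
# RB (MP_460e77_co, helper16): rank bound for abelian groups carrying planar functions: definitions

`f : H → K` planar, `|H| = |K| = p ^ r`, `G = H × K`, `gr f x = (x, f x)`.
-/

set_option autoImplicit false

namespace Pool.Agent.H16.RB

open Finset
open scoped Classical

/-- the points of the graph of `f` -/
def gr {H K : Type*} (f : H → K) (x : H) : H × K := (x, f x)

/-- The points `y x`, `x ∈ S`, kill all products of fewer than `n` affine functionals with values
in `ZMod p`. -/
def Kills (p : ℕ) {X G : Type*} [AddCommGroup G] (y : X → G) (S : Finset X) (n : ℕ) : Prop :=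
  ∀ L : List ((G →+ ZMod p) × ZMod p), L.length < n →
    ∑ x ∈ S, (L.map fun l => l.1 (y x) - l.2).prod = 0

/-- The indices in `S` whose point cannot be separated from `z` by homomorphisms to `ZMod p`. -/
noncomputable def cls (p : ℕ) {X G : Type*} [AddCommGroup G] (y : X → G) (S : Finset X) (z : G) :
    Finset X :=
  S.filter fun x => ∀ l : G →+ ZMod p, l (y x) = l z

/-- the part of the graph in the coset `v + B` -/
noncomputable def fib {H K : Type*} [AddCommGroup H] [AddCommGroup K] [Fintype H] (f : H → K)
    (B : AddSubgroup (H × K)) (v : H × K) : Finset H :=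
  univ.filter fun x => gr f x - v ∈ B

/-- the part of the graph on which `p` times the point is `v` -/
noncomputable def sl {H K : Type*} [AddCommGroup H] [AddCommGroup K] [Fintype H] (p : ℕ) (f : H → K)
    (v : H × K) : Finset H :=
  univ.filter fun x => p • gr f x = v

end Pool.Agent.H16.RB
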