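import Pool.Agent.H16.RB.Diff

/-!
# RB module Deg: functions killing products of few functionals have small degree

Sketch.  `∑ z, φ z * diffs L g z = ∑ z, g z * (differences of φ in the opposite directions)`.  The
indicator function of the point `x` is, up to a nonzero factor, the product over the coordinates `i`
and over `t ≠ x i` of `z i - t`: a product of `s * (p - 1)` affine functionals.  A difference of a
product of `m` affine functionals is a sum of (scalar multiples of) products of `m - 1` of them.
-/

set_option autoImplicit false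

namespace Pool.Agent.H16.RB

open Finset

/-- the span of the products of fewer than `m` affine functionals -/
private def Deg_Q (p s m : ℕ) : Submodule (ZMod p) ((Fin s → ZMod p) → ZMod p) :=
  Submodule.span (ZMod p) {φ | ∃ L : List (((Fin s → ZMod p) →+ ZMod p) × ZMod p),
    L.length < m ∧ φ = fun z => (L.map fun l => l.1 z - l.2).prod}

private theorem Deg_mem {p s m : ℕ} (L : List (((Fin s → ZMod p) →+ ZMod p) × ZMod p))
    (hL : L.length < m) : (fun z => (L.map fun l => l.1 z - l.2).prod) ∈ Deg_Q p s m :=
  Submodule.subset_span ⟨L, hL, rfl⟩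

private theorem Deg_mono {p s m m' : ℕ} (h : m ≤ m') : Deg_Q p s m ≤ Deg_Q p s m' := by
  apply Submodule.span_mono
  rintro φ ⟨L, hL, rfl⟩
  exact ⟨L, by omega, rfl⟩

private theorem Deg_mul {p s m : ℕ} (a : (Fin s → ZMod p) →+ ZMod p) (c : ZMod p)
    (φ : (Fin s → ZMod p) → ZMod p) (hφ : φ ∈ Deg_Q p s m) :
    (fun z => (a z - c) * φ z) ∈ Deg_Q p s (m + 1) := by
  unfold Deg_Q at hφ
  induction hφ using Submodule.span_induction with
  | mem φ h =>
    obtain ⟨L, hL, rfl⟩ := h
    have h2 := Deg_mem (p := p) (s := s) (m := m + 1) ((a, c) :: L) (by simpa using hL)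
    simpa using h2
  | zero =>
    have : (fun z => (a z - c) * (0 : (Fin s → ZMod p) → ZMod p) z) = 0 := by
      funext z
      simp
    rw [this]
    exact Submodule.zero_mem _
  | add φ ψ _ _ h1 h2 =>
    have : (fun z => (a z - c) * (φ + ψ) z) = (fun z => (a z - c) * φ z) + fun z => (a z - c) * ψ z := by
      funext z
      simp only [Pi.add_apply]
      ring
    rw [this]
    exact Submodule.add_mem _ h1 h2
  | smul t φ _ h1 =>
    have : (fun z => (a z - c) * (t • φ) z) = t • fun z => (a z - c) * φ z := by
      funext z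
      simp only [Pi.smul_apply, smul_eq_mul]
      ring
    rw [this]
    exact Submodule.smul_mem _ _ h1

private theorem Deg_shift {p s : ℕ} (L : List (((Fin s → ZMod p) →+ ZMod p) × ZMod p))
    (e : Fin s → ZMod p) :
    (fun z => (L.map fun l => l.1 (z - e) - l.2).prod) ∈ Deg_Q p s (L.length + 1) := by
  have h := Deg_mem (p := p) (s := s) (m := L.length + 1) (L.map fun l => (l.1, l.2 + l.1 e)) (by simp)
  have h2 : (fun z => ((L.map fun l => (l.1, l.2 + l.1 e)).map fun l => l.1 z - l.2).prod) =
      fun z => (L.map fun l => l.1 (z - e) - l.2).prod := by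
    funext z
    rw [List.map_map]
    congr 1
    apply List.map_congr_left
    intro l _
    simp only [Function.comp_apply, map_sub]
    ring
  rw [h2] at h
  exact h

private theorem Deg_diffList {p s : ℕ} (e : Fin s → ZMod p)
    (L : List (((Fin s → ZMod p) →+ ZMod p) × ZMod p)) :
    (fun z => (L.map fun l => l.1 (z - e) - l.2).prod - (L.map fun l => l.1 z - l.2).prod) ∈
      Deg_Q p s L.length := by
  induction L with
  | nil =>
    have : (fun z : Fin s → ZMod p => (([] : List (((Fin s → ZMod p) →+ ZMod p) × ZMod p)).map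
        fun l => l.1 (z - e) - l.2).prod - (([] : List (((Fin s → ZMod p) →+ ZMod p) × ZMod p)).map
        fun l => l.1 z - l.2).prod) = 0 := by
      funext z
      simp
    rw [this]
    exact Submodule.zero_mem _
  | cons a L ih =>
    have h1 := Deg_mul a.1 a.2 _ ih
    have h2 := Deg_shift L e
    have h3 : (fun z => ((a :: L).map fun l => l.1 (z - e) - l.2).prod -
        ((a :: L).map fun l => l.1 z - l.2).prod) =
        (fun z => (a.1 z - a.2) * ((L.map fun l => l.1 (z - e) - l.2).prod -
          (L.map fun l => l.1 z - l.2).prod)) -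
        (a.1 e) • fun z => (L.map fun l => l.1 (z - e) - l.2).prod := by
      funext z
      simp only [List.map_cons, List.prod_cons, Pi.sub_apply, Pi.smul_apply, smul_eq_mul, map_sub]
      ring
    rw [h3]
    exact Submodule.sub_mem _ h1 (Submodule.smul_mem _ _ h2)

private theorem Deg_diff {p s m : ℕ} (e : Fin s → ZMod p) (φ : (Fin s → ZMod p) → ZMod p)
    (hφ : φ ∈ Deg_Q p s (m + 1)) : (fun z => φ (z - e) - φ z) ∈ Deg_Q p s m := by
  unfold Deg_Q at hφ
  induction hφ using Submodule.span_induction with
  | mem φ h =>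
    obtain ⟨L, hL, rfl⟩ := h
    exact Deg_mono (by omega) (Deg_diffList e L)
  | zero =>
    have : (fun z => (0 : (Fin s → ZMod p) → ZMod p) (z - e) - (0 : (Fin s → ZMod p) → ZMod p) z) = 0 := by
      funext z
      simp
    rw [this]
    exact Submodule.zero_mem _
  | add φ ψ _ _ h1 h2 =>
    have : (fun z => (φ + ψ) (z - e) - (φ + ψ) z) =
        (fun z => φ (z - e) - φ z) + fun z => ψ (z - e) - ψ z := by
      funext z
      simp only [Pi.add_apply]
      ring
    rw [this]
    exact Submodule.add_mem _ h1 h2
  | smul t φ _ h1 =>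
    have : (fun z => (t • φ) (z - e) - (t • φ) z) = t • fun z => φ (z - e) - φ z := by
      funext z
      simp only [Pi.smul_apply, smul_eq_mul]
      ring
    rw [this]
    exact Submodule.smul_mem _ _ h1

/-- the kernel of the iterated difference -/
private def Deg_E {p s : ℕ} : List (Fin s → ZMod p) → (Fin s → ZMod p) → (Fin s → ZMod p) → ZMod p
  | [], x => fun z => if z = x then 1 else 0
  | e :: L, x => fun z => Deg_E L (x + e) z - Deg_E L x z

private theorem Deg_E_shift {p s : ℕ} (L : List (Fin s → ZMod p)) (x e z : Fin s → ZMod p) :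
    Deg_E L (x + e) z = Deg_E L x (z - e) := by
  induction L generalizing x with
  | nil =>
    simp only [Deg_E]
    by_cases h : z = x + e
    · rw [if_pos h, if_pos (by rw [h, add_sub_cancel_right])]
    · rw [if_neg h, if_neg fun h2 => h (by rw [← h2, sub_add_cancel])]
  | cons a L ih =>
    simp only [Deg_E]
    have h : x + e + a = x + a + e := by abel
    rw [h, ih, ih]

private theorem Deg_E_sum {p s : ℕ} [Fact p.Prime] (g : (Fin s → ZMod p) → ZMod p)
    (L : List (Fin s → ZMod p)) (x : Fin s → ZMod p) :
    diffs L g x = ∑ z, g z * Deg_E L x z := by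
  induction L generalizing x with
  | nil => simp [diffs, Deg_E]
  | cons a L ih =>
    simp only [diffs, Deg_E]
    rw [ih, ih, ← Finset.sum_sub_distrib]
    refine Finset.sum_congr rfl fun z _ => ?_
    ring

/-- products of products -/
private theorem Deg_prod {p s : ℕ} {ι : Type*} (T : Finset ι) (a : ι → (Fin s → ZMod p) →+ ZMod p)
    (c : ι → ZMod p) (m : ℕ) (φ : (Fin s → ZMod p) → ZMod p) (hφ : φ ∈ Deg_Q p s m) :
    (fun z => (∏ i ∈ T, (a i z - c i)) * φ z) ∈ Deg_Q p s (m + T.card) := by
  classical
  induction T using Finset.induction_on with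
  | empty => simpa using hφ
  | insert i T hi ih =>
    have h := Deg_mul (a i) (c i) _ ih
    rw [Finset.card_insert_of_notMem hi]
    have h2 : (fun z => (∏ j ∈ insert i T, (a j z - c j)) * φ z) =
        fun z => (a i z - c i) * ((∏ j ∈ T, (a j z - c j)) * φ z) := by
      funext z
      rw [Finset.prod_insert hi, mul_assoc]
    rw [h2]
    exact h

private theorem Deg_delta {p s : ℕ} [Fact p.Prime] (x : Fin s → ZMod p) :
    (fun z : Fin s → ZMod p => if z = x then (1 : ZMod p) else 0) ∈ Deg_Q p s (s * (p - 1) + 1) := by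
  classical
  -- the product
  have h1 : (fun z : Fin s → ZMod p => (∏ i ∈ (univ : Finset (Fin s)).sigma fun i => univ.erase (x i),
      ((Pi.evalAddMonoidHom (fun _ : Fin s => ZMod p) i.1) z - i.2)) * (1 : ZMod p)) ∈
        Deg_Q p s (1 + ((univ : Finset (Fin s)).sigma fun i => (univ : Finset (ZMod p)).erase (x i)).card) := by
    apply Deg_prod (p := p) (s := s) _ (fun i : (Σ _ : Fin s, ZMod p) => Pi.evalAddMonoidHom (fun _ : Fin s => ZMod p) i.1)
      (fun i => i.2) 1 (fun _ => 1)
    have := Deg_mem (p := p) (s := s) (m := 1) [] (by simp)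
    simpa using this
  have hcard : ((univ : Finset (Fin s)).sigma fun i => (univ : Finset (ZMod p)).erase (x i)).card = s * (p - 1) := by
    rw [Finset.card_sigma]
    simp [Finset.card_erase_of_mem, ZMod.card]
  rw [hcard, add_comm] at h1
  have hne : (∏ i : Fin s, ∏ t ∈ univ.erase (x i), (x i - t)) ≠ 0 := by
    rw [Finset.prod_ne_zero_iff]
    intro i _
    rw [Finset.prod_ne_zero_iff]
    intro t ht
    exact sub_ne_zero.2 (Ne.symm (Finset.ne_of_mem_erase ht))
  have h2 := Submodule.smul_mem _ (∏ i : Fin s, ∏ t ∈ univ.erase (x i), (x i - t))⁻¹ h1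
  have h3 : (fun z : Fin s → ZMod p => if z = x then (1 : ZMod p) else 0) =
      (∏ i : Fin s, ∏ t ∈ univ.erase (x i), (x i - t))⁻¹ • fun z : Fin s → ZMod p =>
        (∏ i ∈ (univ : Finset (Fin s)).sigma fun i => univ.erase (x i),
          ((Pi.evalAddMonoidHom (fun _ : Fin s => ZMod p) i.1) z - i.2)) * (1 : ZMod p) := by
    funext z
    rw [Pi.smul_apply, smul_eq_mul, mul_one, Finset.prod_sigma]
    by_cases hz : z = x
    · rw [if_pos hz, hz]
      simp only [Pi.evalAddMonoidHom_apply]
      rw [inv_mul_cancel₀ hne]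
    · rw [if_neg hz]
      have h4 : ∃ i, z i ≠ x i := by
        by_contra hcon
        push Not at hcon
        exact hz (funext hcon)
      obtain ⟨i, hi⟩ := h4
      have h5 : ∏ i : Fin s, ∏ t ∈ univ.erase (x i), ((Pi.evalAddMonoidHom (fun _ : Fin s => ZMod p) i) z - t) = 0 := by
        apply Finset.prod_eq_zero (Finset.mem_univ i)
        apply Finset.prod_eq_zero (i := z i) (Finset.mem_erase.2 ⟨hi, Finset.mem_univ _⟩)
        simp only [Pi.evalAddMonoidHom_apply, sub_self]
      rw [h5, mul_zero]
  rw [h3]
  exact h2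

private theorem Deg_E_mem {p s : ℕ} [Fact p.Prime] (L : List (Fin s → ZMod p)) (x : Fin s → ZMod p) (m : ℕ)
    (hm : m + L.length = s * (p - 1) + 1) : Deg_E L x ∈ Deg_Q p s m := by
  induction L generalizing m with
  | nil =>
    have hm' : m = s * (p - 1) + 1 := by simpa using hm
    rw [hm']
    have h : Deg_E [] x = (fun z : Fin s → ZMod p => if z = x then (1 : ZMod p) else 0) := by
      funext z
      simp only [Deg_E]
    rw [h]
    exact Deg_delta x
  | cons a L ih =>
    have h1 := ih (m + 1) (by rw [← hm, List.length_cons]; omega)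
    have h2 := Deg_diff a _ h1
    have h3 : Deg_E (a :: L) x = fun z => Deg_E L x (z - a) - Deg_E L x z := by
      funext z
      simp only [Deg_E]
      rw [Deg_E_shift]
    rw [h3]
    exact h2

theorem deg_of_kills {p s n b : ℕ} [Fact p.Prime] (hn : n + b = s * (p - 1))
    (g : (Fin s → ZMod p) → ZMod p)
    (hg : ∀ L : List (((Fin s → ZMod p) →+ ZMod p) × ZMod p), L.length < n →
      ∑ z, g z * (L.map fun l => l.1 z - l.2).prod = 0)
    (L : List (Fin s → ZMod p)) (hL : L.length = b + 1) (x : Fin s → ZMod p) :
    diffs L g x = 0 := by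
  have h1 : ∀ φ ∈ Deg_Q p s n, ∑ z, g z * φ z = 0 := by
    intro φ hφ
    unfold Deg_Q at hφ
    induction hφ using Submodule.span_induction with
    | mem φ h =>
      obtain ⟨L, hL, rfl⟩ := h
      exact hg L hL
    | zero => simp
    | add φ ψ _ _ h1 h2 =>
      simp only [Pi.add_apply, mul_add, Finset.sum_add_distrib]
      rw [h1, h2, add_zero]
    | smul t φ _ h1 =>
      have : ∀ z, g z * (t • φ) z = t * (g z * φ z) := by
        intro z
        simp only [Pi.smul_apply, smul_eq_mul]
        ring
      simp only [this]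
      rw [← Finset.mul_sum, h1, mul_zero]
  rw [Deg_E_sum]
  exact h1 _ (Deg_E_mem L x n (by omega))

end Pool.Agent.H16.RB
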