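import Pool.Agent.H16.RB.Defs

/-!
# RB module Diff: iterated differences, definitions
-/

set_option autoImplicit false

namespace Pool.Agent.H16.RB

/-- iterated differences in the directions of the list -/
def diffs {V F : Type*} [AddCommGroup V] [AddCommGroup F] : List V → (V → F) → V → F
  | [], g => g
  | e :: L, g => fun x => diffs L g (x + e) - diffs L g x

end Pool.Agent.H16.RB
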