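import Pool.Agent.H16.RB.Defs
import Mathlib

/-!
# RB module Dig: the digits of `p g` in a finite abelian `p`-group

Sketch.  By the structure theorem (`AddCommGroup.equiv_directSum_zmod_of_finite'` or similar) `G` is
isomorphic to a product of `ZMod (p ^ (d j + 1))`, `j < n`; `a j` are the coordinates.  `p • g = 0` iff
`p ^ (d j)` divides every coordinate, and the image of multiplication by `p` has `∏ p ^ (d j)`
elements.
-/

set_option autoImplicit false

namespace Pool.Agent.H16.RB

open Finset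

private theorem dig_zmod_iff {p d : ℕ} (hp : p.Prime) (x : ZMod (p ^ (d + 1))) :
    p ^ d ∣ x.val ↔ p • x = 0 := by
  have : NeZero (p ^ (d + 1)) := ⟨pow_ne_zero _ hp.ne_zero⟩
  have h1 : p • x = ((p * x.val : ℕ) : ZMod (p ^ (d + 1))) := by
    push_cast
    rw [ZMod.natCast_zmod_val, nsmul_eq_mul]
  have h2 : p ^ (d + 1) = p * p ^ d := pow_succ' p d
  have h3 : p ^ (d + 1) ∣ p * x.val ↔ p * p ^ d ∣ p * x.val := by rw [← h2]
  rw [h1, ZMod.natCast_eq_zero_iff, h3]
  exact (Nat.mul_dvd_mul_iff_left hp.pos).symm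

private theorem dig_zmod_range {p d : ℕ} (hp : p.Prime) :
    Nat.card (Set.range fun x : ZMod (p ^ (d + 1)) => p • x) = p ^ d := by
  have : NeZero (p ^ (d + 1)) := ⟨pow_ne_zero _ hp.ne_zero⟩
  have h1 : (Set.range fun x : ZMod (p ^ (d + 1)) => p • x)
      = (AddSubgroup.zmultiples ((p : ℕ) : ZMod (p ^ (d + 1))) : Set (ZMod (p ^ (d + 1)))) := by
    ext y
    constructor
    · rintro ⟨x, rfl⟩
      refine ⟨(x.val : ℤ), ?_⟩
      simp only [zsmul_eq_mul, nsmul_eq_mul]
      push_cast
      rw [ZMod.natCast_zmod_val, mul_comm]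
    · rintro ⟨k, rfl⟩
      refine ⟨(k : ZMod (p ^ (d + 1))), ?_⟩
      simp only [zsmul_eq_mul, nsmul_eq_mul]
      rw [mul_comm]
  rw [h1]
  have h2 : Nat.card (AddSubgroup.zmultiples ((p : ℕ) : ZMod (p ^ (d + 1))))
      = addOrderOf ((p : ℕ) : ZMod (p ^ (d + 1))) := Nat.card_zmultiples _
  refine h2.trans ?_
  rw [ZMod.addOrderOf_coe p (pow_ne_zero _ hp.ne_zero)]
  have h3 : (p ^ (d + 1)).gcd p = p := by
    rw [pow_succ', Nat.gcd_comm]
    exact Nat.gcd_eq_left (Dvd.intro _ rfl)
  rw [h3, pow_succ, Nat.mul_div_cancel _ hp.pos]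

theorem exists_digits {p N κ : ℕ} [Fact p.Prime] {G : Type*} [AddCommGroup G] [Finite G]
    (hG : Nat.card G = p ^ N) (hκ : Nat.card (Set.range fun g : G => p • g) = p ^ κ) :
    ∃ (n : ℕ) (d : Fin n → ℕ) (a : ∀ j : Fin n, G →+ ZMod (p ^ (d j + 1))),
      ∑ j, d j = κ ∧ ∀ g : G, (∀ j, p ^ (d j) ∣ (a j g).val) ↔ p • g = 0 := by
  classical
  have hp : p.Prime := Fact.out
  obtain ⟨ι, hι, m, hm, ⟨e⟩⟩ := AddCommGroup.equiv_directSum_zmod_of_finite' G
  let e1 : G ≃+ (∀ i, ZMod (m i)) := e.trans (DirectSum.addEquivProd fun i => ZMod (m i))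
  have hne : ∀ i, NeZero (m i) := fun i => ⟨by have := hm i; omega⟩
  have hcard : ∏ i, m i = p ^ N := by
    rw [← hG, Nat.card_congr e1.toEquiv, Nat.card_pi]
    refine Finset.prod_congr rfl fun i _ => ?_
    rw [Nat.card_zmod]
  have hex : ∀ i, ∃ d, m i = p ^ (d + 1) := by
    intro i
    have h1 : m i ∣ p ^ N := by
      rw [← hcard]
      exact Finset.dvd_prod_of_mem _ (Finset.mem_univ i)
    obtain ⟨k, -, hk⟩ := (Nat.dvd_prime_pow hp).1 h1
    rcases k with _ | k
    · exfalso
      have := hm i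
      rw [hk] at this
      simp at this
    · exact ⟨k, hk⟩
  choose δ hδ using hex
  obtain rfl : m = fun i => p ^ (δ i + 1) := funext hδ
  let n := Fintype.card ι
  let σ : Fin n ≃ ι := (Fintype.equivFin ι).symm
  refine ⟨n, fun j => δ (σ j), fun j =>
    (Pi.evalAddMonoidHom (fun i => ZMod (p ^ (δ i + 1))) (σ j)).comp e1.toAddMonoidHom, ?_, ?_⟩
  · have h1 : Nat.card (Set.range fun g : G => p • g) = p ^ (∑ i, δ i) := by
      have h2 : Nat.card (Set.range fun g : G => p • g)
          = Nat.card (Set.range fun v : (∀ i, ZMod (p ^ (δ i + 1))) => p • v) := by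
        refine Nat.card_congr ?_
        refine (Equiv.Set.image e1 _ e1.injective).trans (Equiv.setCongr ?_)
        ext v
        constructor
        · rintro ⟨_, ⟨g, rfl⟩, rfl⟩
          exact ⟨e1 g, (map_nsmul e1 p g).symm⟩
        · rintro ⟨w, rfl⟩
          exact ⟨p • e1.symm w, ⟨e1.symm w, rfl⟩, by rw [map_nsmul, AddEquiv.apply_symm_apply]⟩
      have h3 : (Set.range fun v : (∀ i, ZMod (p ^ (δ i + 1))) => p • v)
          = Set.univ.pi fun i => Set.range fun x : ZMod (p ^ (δ i + 1)) => p • x := by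
        ext v
        constructor
        · rintro ⟨w, rfl⟩ i -
          exact ⟨w i, rfl⟩
        · intro hv
          choose w hw using fun i => hv i (Set.mem_univ i)
          exact ⟨w, funext hw⟩
      rw [h2, h3, Nat.card_congr (Equiv.Set.univPi _), Nat.card_pi, ← Finset.prod_pow_eq_pow_sum]
      exact Finset.prod_congr rfl fun i _ => dig_zmod_range hp
    rw [hκ] at h1
    have h2 := Nat.pow_right_injective hp.two_le h1
    rw [h2]
    exact Equiv.sum_comp σ δ
  · intro g
    constructor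
    · intro h
      have h1 : e1 (p • g) = 0 := by
        rw [map_nsmul]
        funext i
        have := h (σ.symm i)
        have h2 : p ^ (δ i) ∣ (e1 g i).val := by
          have h3 : ∀ i', σ (σ.symm i) = i' → p ^ (δ i') ∣ (e1 g i').val := by
            rintro _ rfl
            exact this
          exact h3 i (σ.apply_symm_apply i)
        exact (dig_zmod_iff hp _).1 h2
      exact (map_eq_zero_iff e1 e1.injective).1 h1
    · intro h j
      refine (dig_zmod_iff hp _).2 ?_
      have h1 : p • e1 g = 0 := by rw [← map_nsmul, h, map_zero]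
      exact congrFun h1 (σ j)

end Pool.Agent.H16.RB
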