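import Pool.Agent.H16.RB.Half
import Pool.Agent.H16.PF3.Main

/-!
# RB module Fin: the small exponents

Sketch.  `q1_small`: suppose `p G ≠ 0`; `G` has exponent `p ^ e`, `e ≥ 2`; `main_B` (PF3.Main) gives
`p ^ 3 ≤ |p ^ (e-1) G| ≤ |p G| = p ^ κ`; `rank_bound'` gives a contradiction unless `r = 6`, `κ = 3`;
then `p ^ (e-1) G = p G`, so `p ^ 2 G = 0` and `half` with `s = 3` gives
`|p H| = |p K|`, `|p H| |p K| = p ^ 3`.
-/

set_option autoImplicit false

namespace Pool.Agent.H16.RB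

open Pool.Agent.H88.Pl

theorem rank_bound' {p r κ : ℕ} [Fact p.Prime] (hp : 5 ≤ p) {H K : Type*} [AddCommGroup H]
    [AddCommGroup K] (hH : Nat.card H = p ^ r) (hK : Nat.card K = p ^ r) (f : H → K)
    (hf : IsPlanar f) (hr : 1 ≤ r)
    (hκ : Nat.card (Set.range fun g : H × K => p • g) = p ^ κ) :
    2 * (p - 2) * κ < (p - 1) * r := by
  have hpp : p.Prime := Fact.out
  have : Finite H := Nat.finite_of_card_ne_zero (by rw [hH]; exact (pow_pos hpp.pos _).ne')
  have : Finite K := Nat.finite_of_card_ne_zero (by rw [hK]; exact (pow_pos hpp.pos _).ne')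
  have := Fintype.ofFinite H
  have := Fintype.ofFinite K
  exact rank_bound hp (by rw [← Nat.card_eq_fintype_card, hH])
    (by rw [← Nat.card_eq_fintype_card, hK]) f hf hr hκ

theorem q1_small {p r : ℕ} [Fact p.Prime] (hr : 3 ≤ r) (h : (5 ≤ p ∧ r ≤ 4) ∨ (7 ≤ p ∧ r ≤ 6))
    {H K : Type*} [AddCommGroup H] [AddCommGroup K] (hH : Nat.card H = p ^ r)
    (hK : Nat.card K = p ^ r) (f : H → K) (hf : IsPlanar f) (g : H × K) : p • g = 0 := by
  have hpp : p.Prime := Fact.out
  have h5 : 5 ≤ p := by omega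
  have : Finite H := Nat.finite_of_card_ne_zero (by rw [hH]; exact (pow_pos hpp.pos _).ne')
  have : Finite K := Nat.finite_of_card_ne_zero (by rw [hK]; exact (pow_pos hpp.pos _).ne')
  by_contra hg
  have hG : Nat.card (H × K) = p ^ (2 * r) := by
    rw [Nat.card_prod, hH, hK, ← pow_add]
    congr 1
    ring
  obtain ⟨e, -, he⟩ := (Nat.dvd_prime_pow hpp).1
    (show AddMonoid.exponent (H × K) ∣ p ^ (2 * r) by
      rw [← hG]; exact AddGroup.exponent_dvd_nat_card)
  have he2 : 2 ≤ e := by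
    by_contra hlt
    apply hg
    have h1 : AddMonoid.exponent (H × K) ∣ p := by
      rw [he]
      calc p ^ e ∣ p ^ 1 := pow_dvd_pow p (by omega)
        _ = p := pow_one p
    obtain ⟨c, hc⟩ := h1
    rw [hc, mul_comm, mul_smul, AddMonoid.exponent_nsmul_eq_zero, smul_zero]
  obtain ⟨κ, hκ⟩ := card_range_pow hG
  have hB := Pool.Agent.H16.PF3.main_B h5 hr he2 hH hK f hf he
  have hsub : (Set.range fun g : H × K => p ^ (e - 1) • g) ⊆ Set.range fun g : H × K => p • g := by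
    rintro _ ⟨x, rfl⟩
    refine ⟨p ^ (e - 2) • x, ?_⟩
    show p • (p ^ (e - 2) • x) = p ^ (e - 1) • x
    rw [smul_smul, ← pow_succ']
    congr 2
    omega
  have hle := Nat.card_mono (Set.toFinite _) hsub
  have hκ3 : 3 ≤ κ := by
    rw [hκ] at hle
    exact (Nat.pow_le_pow_iff_right hpp.one_lt).1 (hB.trans hle)
  have hrb := rank_bound' h5 hH hK f hf (by omega) hκ
  obtain ⟨q, rfl⟩ : ∃ q, p = q + 2 := ⟨p - 2, by omega⟩
  rw [show q + 2 - 2 = q from rfl, show q + 2 - 1 = q + 1 from rfl] at hrb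
  have hr6 : 7 ≤ q + 2 ∧ r = 6 := by
    rcases h with h | h
    · exfalso
      have h1 : 2 * q * 3 ≤ 2 * q * κ := Nat.mul_le_mul_left _ hκ3
      have h2 : (q + 1) * r ≤ (q + 1) * 4 := Nat.mul_le_mul_left _ h.2
      omega
    · refine ⟨h.1, ?_⟩
      by_contra hr6
      have h1 : 2 * q * 3 ≤ 2 * q * κ := Nat.mul_le_mul_left _ hκ3
      have h2 : (q + 1) * r ≤ (q + 1) * 5 := Nat.mul_le_mul_left _ (by omega)
      omega
  obtain ⟨h7, rfl⟩ := hr6
  have hκ' : κ = 3 := by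
    by_contra hne
    have h1 : 2 * q * 4 ≤ 2 * q * κ := Nat.mul_le_mul_left _ (by omega)
    omega
  subst hκ'
  have heq : (Set.range fun g : H × K => (q + 2) ^ (e - 1) • g) =
      Set.range fun g : H × K => (q + 2) • g := by
    refine Set.eq_of_subset_of_ncard_le hsub ?_ (Set.toFinite _)
    rw [← Nat.card_coe_set_eq, ← Nat.card_coe_set_eq, hκ]
    exact hB
  have h2 : ∀ x : H × K, (q + 2) ^ 2 • x = 0 := by
    intro x
    have h1 : (q + 2) • x ∈ Set.range fun g : H × K => (q + 2) ^ (e - 1) • g := by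
      rw [heq]; exact ⟨x, rfl⟩
    obtain ⟨y, hy⟩ := h1
    have hy' : (q + 2) ^ (e - 1) • y = (q + 2) • x := hy
    rw [sq, mul_smul, ← hy', smul_smul, ← pow_succ', show e - 1 + 1 = e by omega, ← he]
    exact AddMonoid.exponent_nsmul_eq_zero y
  obtain ⟨ha, hb⟩ := half (s := 3) h5 (by norm_num) (by omega) hH hK f hf h2 hκ
  obtain ⟨u, hu⟩ := card_range_pow (p := q + 2) hH
  rw [← ha, hu, ← pow_add] at hb
  have := Nat.pow_right_injective hpp.two_le hb
  omega

end Pool.Agent.H16.RB
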