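import Pool.Agent.H16.RB.T2d

/-!
# RB module Half: the case `r = 2 s`, `|p G| = p ^ s`, `p ^ 2 G = 0`

Sketch.  `|p H|`, `|p K|` are powers `p ^ u`, `p ^ t` and `p G = p H × p K`; `D2.eq`.
-/

set_option autoImplicit false

namespace Pool.Agent.H16.RB

open Pool.Agent.H88.Pl

/-- the order of `p G` is a power of `p` -/
theorem card_range_pow {p n : ℕ} [Fact p.Prime] {G : Type*} [AddCommGroup G]
    (hG : Nat.card G = p ^ n) : ∃ k, Nat.card (Set.range fun g : G => p • g) = p ^ k := by
  have hpp : p.Prime := Fact.out
  have : Finite G := Nat.finite_of_card_ne_zero (by rw [hG]; exact (pow_pos hpp.pos n).ne')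
  have h1 : Nat.card (Set.range fun g : G => p • g) = Nat.card (nsmulAddMonoidHom p : G →+ G).range :=
    rfl
  have h2 : Nat.card (nsmulAddMonoidHom p : G →+ G).range ∣ p ^ n := by
    rw [← hG]
    exact AddSubgroup.card_addSubgroup_dvd_card _
  obtain ⟨k, -, hk⟩ := (Nat.dvd_prime_pow hpp).1 h2
  exact ⟨k, h1.trans hk⟩

theorem card_range_prod {p : ℕ} {H K : Type*} [AddCommGroup H] [AddCommGroup K] :
    Nat.card (Set.range fun g : H × K => p • g) =
      Nat.card (Set.range fun h : H => p • h) * Nat.card (Set.range fun k : K => p • k) := by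
  have h1 : (fun g : H × K => p • g) = Prod.map (fun h : H => p • h) (fun k : K => p • k) := by
    funext g; rfl
  rw [h1, Set.range_prodMap, ← Nat.card_prod]
  exact Nat.card_congr (Equiv.Set.prod _ _)

theorem half {p s : ℕ} [Fact p.Prime] (hp : 5 ≤ p) (hs : 1 ≤ s) (h3 : 3 * (s - 1) < p)
    {H K : Type*} [AddCommGroup H] [AddCommGroup K] (hH : Nat.card H = p ^ (2 * s))
    (hK : Nat.card K = p ^ (2 * s)) (f : H → K) (hf : IsPlanar f)
    (h2 : ∀ g : H × K, p ^ 2 • g = 0)
    (hG : Nat.card (Set.range fun g : H × K => p • g) = p ^ s) :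
    Nat.card (Set.range fun h : H => p • h) = Nat.card (Set.range fun k : K => p • k) ∧
      Nat.card (Set.range fun h : H => p • h) * Nat.card (Set.range fun k : K => p • k) = p ^ s := by
  classical
  have hpp : p.Prime := Fact.out
  have : Finite H := Nat.finite_of_card_ne_zero (by rw [hH]; exact (pow_pos hpp.pos _).ne')
  have : Finite K := Nat.finite_of_card_ne_zero (by rw [hK]; exact (pow_pos hpp.pos _).ne')
  have := Fintype.ofFinite H
  have := Fintype.ofFinite K
  obtain ⟨u, hu⟩ := card_range_pow hH
  obtain ⟨t, ht⟩ := card_range_pow hK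
  have hprod := card_range_prod (p := p) (H := H) (K := K)
  rw [hG, hu, ht, ← pow_add] at hprod
  have hut : u + t = s := (Nat.pow_right_injective hpp.two_le hprod).symm
  have key : ∀ {G : Type _} [AddCommGroup G] [Fintype G] [DecidableEq G],
      (Finset.univ.image fun g : G => p • g).card = Nat.card (Set.range fun g : G => p • g) := by
    intro G _ _ _
    rw [← Set.ncard_coe_finset, Finset.coe_image, Finset.coe_univ, Set.image_univ,
      Nat.card_coe_set_eq]
  have key' : ∀ {G : Type _} [AddCommGroup G] [Fintype G] [DecidableEq G],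
      (Finset.univ.image fun g : G => p • g).card = Nat.card (Set.range fun g : G => p • g) := by
    intro G _ _ _
    rw [← Set.ncard_coe_finset, Finset.coe_image, Finset.coe_univ, Set.image_univ,
      Nat.card_coe_set_eq]
  have D : D2 p s t u f :=
    { hp := hp
      hs := hs
      h3 := h3
      hH := by rw [← Nat.card_eq_fintype_card, hH]
      hK := by rw [← Nat.card_eq_fintype_card, hK]
      hf := hf
      h2 := fun g => by rw [smul_smul, ← sq]; exact h2 g
      hu := by rw [← hu]; convert key (G := H)
      ht := by rw [← ht]; convert key' (G := K)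
      hut := hut }
  have htu := D.eq
  refine ⟨by rw [hu, ht, htu], by rw [hu, ht, ← pow_add, hut]⟩

end Pool.Agent.H16.RB
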