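import Pool.Agent.H16.RB.Fin
import Pool.Agent.H88.Pl.Main

/-!
# RB module Iso2: final forms
-/

set_option autoImplicit false

namespace Pool.Agent.H16.RB

open Pool.Agent.H88.Pl

theorem equiv_of_module {p r : ℕ} [Fact p.Prime] {G : Type*} [AddCommGroup G] [Module (ZMod p) G]
    [Fintype G] (hG : Fintype.card G = p ^ r) : Nonempty (G ≃+ (Fin r → ZMod p)) := by
  have hpp : p.Prime := Fact.out
  have hfin : Module.Finite (ZMod p) G := Module.Finite.of_finite
  have h1 : Module.finrank (ZMod p) G = r := by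
    have h2 : Fintype.card G = Fintype.card (ZMod p) ^ Module.finrank (ZMod p) G :=
      Module.card_eq_pow_finrank
    rw [hG, ZMod.card] at h2
    exact (Nat.pow_right_injective hpp.two_le h2).symm
  have h3 : Module.finrank (ZMod p) G = Module.finrank (ZMod p) (Fin r → ZMod p) := by
    rw [h1, Module.finrank_fin_fun]
  exact ⟨(LinearEquiv.ofFinrankEq G (Fin r → ZMod p) h3).toAddEquiv⟩

/-- a group of order `p ^ r` with `p G = 0` is elementary abelian -/
theorem equiv_of_smul {p r : ℕ} [Fact p.Prime] {G : Type*} [AddCommGroup G]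
    (hG : Nat.card G = p ^ r) (h : ∀ g : G, p • g = 0) : Nonempty (G ≃+ (Fin r → ZMod p)) := by
  have hpp : p.Prime := Fact.out
  have : Finite G := Nat.finite_of_card_ne_zero (by rw [hG]; exact (pow_pos hpp.pos _).ne')
  have := Fintype.ofFinite G
  exact @equiv_of_module p r _ G _ (AddCommGroup.zmodModule (n := p) h) _
    (by rw [← Nat.card_eq_fintype_card, hG])

theorem small_orders {p r : ℕ} [Fact p.Prime]
    (h : r = 3 ∨ (5 ≤ p ∧ r = 4) ∨ (7 ≤ p ∧ (r = 5 ∨ r = 6)))
    {H K : Type*} [AddCommGroup H] [AddCommGroup K] (hH : Nat.card H = p ^ r)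
    (hK : Nat.card K = p ^ r) (f : H → K) (hf : IsPlanar f) :
    Nonempty (H ≃+ (Fin r → ZMod p)) ∧ Nonempty (K ≃+ (Fin r → ZMod p)) := by
  rcases h with rfl | h
  · exact main_three hH f hf
  · have h1 : ∀ g : H × K, p • g = 0 := fun g =>
      q1_small (by omega) (by omega) hH hK f hf g
    constructor
    · exact equiv_of_smul hH fun x => (Prod.ext_iff.1 (h1 (x, 0))).1
    · exact equiv_of_smul hK fun y => (Prod.ext_iff.1 (h1 (0, y))).2

theorem rank_form {p r R : ℕ} [Fact p.Prime] (hp : 5 ≤ p) {H K : Type*} [AddCommGroup H]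
    [AddCommGroup K] (hH : Nat.card H = p ^ r) (hK : Nat.card K = p ^ r) (f : H → K)
    (hf : IsPlanar f) (hr : 1 ≤ r)
    (hR : Nat.card {g : H × K // p • g = 0} = p ^ R) :
    (3 * p - 7) * r < 2 * (p - 2) * R := by
  have hpp : p.Prime := Fact.out
  have hG : Nat.card (H × K) = p ^ (2 * r) := by
    rw [Nat.card_prod, hH, hK, ← pow_add]
    congr 1
    ring
  have : Finite H := Nat.finite_of_card_ne_zero (by rw [hH]; exact (pow_pos hpp.pos _).ne')
  have : Finite K := Nat.finite_of_card_ne_zero (by rw [hK]; exact (pow_pos hpp.pos _).ne')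
  obtain ⟨κ, hκ⟩ := card_range_pow hG
  have h1 := rank_bound' hp hH hK f hf hr hκ
  set φ : H × K →+ H × K := nsmulAddMonoidHom p with hφ
  have h2 : Nat.card φ.ker * φ.ker.index = Nat.card (H × K) := AddSubgroup.card_mul_index _
  have h3 : φ.ker.index = p ^ κ := by
    rw [AddSubgroup.index_ker, ← hκ]
    rfl
  have h4 : Nat.card φ.ker = p ^ R := hR
  rw [h3, h4, hG, ← pow_add] at h2
  have h5 : R + κ = 2 * r := Nat.pow_right_injective hpp.two_le h2
  obtain ⟨q, rfl⟩ : ∃ q, p = q + 3 := ⟨p - 3, by omega⟩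
  rw [show 3 * (q + 3) - 7 = 3 * q + 2 by omega, show q + 3 - 2 = q + 1 from rfl]
  rw [show q + 3 - 2 = q + 1 from rfl, show q + 3 - 1 = q + 2 from rfl] at h1
  have h6 : 2 * (q + 1) * R + 2 * (q + 1) * κ = 2 * (q + 1) * (2 * r) := by
    rw [← mul_add, h5]
  nlinarith

end Pool.Agent.H16.RB
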