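import Pool.Agent.H16.RB.Defs

/-!
# RB module QB: Gaussian binomials at roots of unity

Sketch.  `lin_factor`: `u = ∑ i < α, η ^ i - ∑ i < c, η ^ i`.
`digit_factor`: Gaussian binomials `gb n k` in `O` at `q = η`, defined by
`gb n 0 = 1`, `gb 0 (k+1) = 0`, `gb (n+1) (k+1) = gb n k + q ^ (k+1) * gb n (k+1)`; then
`gb (n + k) k * ∏ i < k, (q ^ (i+1) - 1) = ∏ i < k, (q ^ (n+i+1) - 1)` and `gb n k ≡ n.choose k`
modulo `π` (as `q ≡ 1`).  Put `N = p ^ d`, write (as `η ^ (p ^ (d+1)) = 1`) `α + p ^ (d+1) * w = w + A`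
with `A ≥ N` (add a multiple of `p ^ (d+1)`), so `η ^ α - η ^ (w+t) = η ^ w * (η ^ A - η ^ t)
= η ^ (w+t) * (η ^ (A-t) - 1)` and the quotient by `1 - η ^ t` of the products is
`(-1) ^ (N-1) * η ^ (…) * gb (A-1) (N-1)`, which is `(-1) ^ (N-1) * (A-1).choose (N-1)` modulo `π`.
`(A-1).choose (N-1)` is `1` modulo `p` if `N ∣ A` and `0` otherwise (e.g. by
`A.choose N * N = A * (A-1).choose (N-1)`, Lucas, or `(X-1) ^ (N-1) = (X^N-1)/(X-1)` modulo `p`), and
`(-1) ^ (N-1) = 1` modulo `p`.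
-/

set_option autoImplicit false

namespace Pool.Agent.H16.RB

open Finset

/-- Gaussian binomials -/
private def QB_gb {O : Type*} [CommRing O] (q : O) : ℕ → ℕ → O
  | _, 0 => 1
  | 0, _ + 1 => 0
  | n + 1, k + 1 => QB_gb q n k + q ^ (k + 1) * QB_gb q n (k + 1)

private theorem QB_gb_zero {O : Type*} [CommRing O] (q : O) (n : ℕ) : QB_gb q n 0 = 1 := by
  cases n <;> rw [QB_gb]

private theorem QB_gb_lt {O : Type*} [CommRing O] (q : O) (n : ℕ) : ∀ k : ℕ, n < k → QB_gb q n k = 0 := by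
  induction n with
  | zero =>
    intro k hk
    obtain ⟨j, rfl⟩ : ∃ j, k = j + 1 := ⟨k - 1, by omega⟩
    rw [QB_gb]
  | succ n ih =>
    intro k hk
    obtain ⟨j, rfl⟩ : ∃ j, k = j + 1 := ⟨k - 1, by omega⟩
    rw [QB_gb, ih j (by omega), ih (j + 1) (by omega), mul_zero, add_zero]

private theorem QB_gb_self {O : Type*} [CommRing O] (q : O) (n : ℕ) : QB_gb q n n = 1 := by
  induction n with
  | zero => rw [QB_gb]
  | succ n ih => rw [QB_gb, ih, QB_gb_lt q n (n + 1) (by omega), mul_zero, add_zero]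

private theorem QB_gb_prod {O : Type*} [CommRing O] (q : O) : ∀ n k : ℕ,
    QB_gb q (n + k) k * ∏ i ∈ range k, (q ^ (i + 1) - 1) = ∏ i ∈ range k, (q ^ (n + i + 1) - 1) := by
  intro n
  induction n with
  | zero =>
    intro k
    rw [zero_add, QB_gb_self, one_mul]
    exact prod_congr rfl fun i _ => by rw [zero_add]
  | succ n ihn =>
    intro k
    induction k with
    | zero => rw [prod_range_zero, prod_range_zero, mul_one, add_zero, QB_gb_zero]
    | succ k ihk =>
      have h1 : QB_gb q (n + 1 + (k + 1)) (k + 1) =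
          QB_gb q (n + 1 + k) k + q ^ (k + 1) * QB_gb q (n + (k + 1)) (k + 1) := by
        rw [show n + 1 + (k + 1) = (n + 1 + k) + 1 by ring, QB_gb, show n + (k + 1) = n + 1 + k by ring]
      have h2 := ihn (k + 1)
      have h3 : ∏ i ∈ range (k + 1), (q ^ (n + i + 1) - 1) =
          (q ^ (n + 1) - 1) * ∏ i ∈ range k, (q ^ (n + 1 + i + 1) - 1) := by
        rw [prod_range_succ', mul_comm, add_zero]
        congr 1
        exact prod_congr rfl fun i _ => by rw [show n + (i + 1) + 1 = n + 1 + i + 1 by ring]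
      rw [h3] at h2
      rw [h1, add_mul, mul_assoc, h2, prod_range_succ, ← mul_assoc, ihk, prod_range_succ]
      ring

private theorem QB_pow {O : Type*} [CommRing O] {q π : O} (h : π ∣ q - 1) (n : ℕ) : π ∣ q ^ n - 1 := by
  have h1 := sub_dvd_pow_sub_pow q 1 n
  rw [one_pow] at h1
  exact h.trans h1

private theorem QB_gb_mod {O : Type*} [CommRing O] {q π : O} (h : π ∣ q - 1) (n : ℕ) :
    ∀ k : ℕ, π ∣ QB_gb q n k - (n.choose k : O) := by
  induction n with
  | zero =>
    intro k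
    cases k with
    | zero => rw [QB_gb_zero, Nat.choose_zero_right, Nat.cast_one, sub_self]; exact dvd_zero _
    | succ k => rw [QB_gb_lt q 0 (k + 1) (by omega), Nat.choose_zero_succ, Nat.cast_zero, sub_self]; exact dvd_zero _
  | succ n ih =>
    intro k
    cases k with
    | zero => rw [QB_gb_zero, Nat.choose_zero_right, Nat.cast_one, sub_self]; exact dvd_zero _
    | succ k =>
      rw [QB_gb, Nat.choose_succ_succ, Nat.cast_add]
      have h1 : QB_gb q n k + q ^ (k + 1) * QB_gb q n (k + 1) - ((n.choose k : O) + (n.choose (k + 1) : O)) =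
          (QB_gb q n k - (n.choose k : O)) + (QB_gb q n (k + 1) - (n.choose (k + 1) : O)) +
            (q ^ (k + 1) - 1) * QB_gb q n (k + 1) := by ring
      rw [h1]
      exact dvd_add (dvd_add (ih k) (ih (k + 1))) (dvd_mul_of_dvd_left (QB_pow h _) _)

/-- Lucas for `p ^ d - 1` -/
private theorem QB_lucas {p : ℕ} [hp : Fact p.Prime] (d : ℕ) : ∀ n : ℕ,
    n.choose (p ^ d - 1) ≡ (if p ^ d ∣ n + 1 then 1 else 0) [MOD p] := by
  have hp1 := hp.out.one_lt
  induction d with
  | zero =>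
    intro n
    rw [pow_zero, Nat.sub_self, Nat.choose_zero_right, if_pos (one_dvd _)]
  | succ d ih =>
    intro n
    have hpd : 0 < p ^ d := pow_pos (by omega) _
    have e0 : p ^ (d + 1) - 1 = (p - 1) + p * (p ^ d - 1) := by
      have h1 : p ^ (d + 1) = p * p ^ d := by rw [pow_succ, mul_comm]
      rw [h1]
      obtain ⟨M, hM⟩ : ∃ M, p ^ d = M + 1 := ⟨p ^ d - 1, by omega⟩
      rw [hM, Nat.add_sub_cancel, mul_add, mul_one]
      omega
    have e1 : (p ^ (d + 1) - 1) % p = p - 1 := by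
      rw [e0, Nat.add_mul_mod_self_left]
      exact Nat.mod_eq_of_lt (by omega)
    have e2 : (p ^ (d + 1) - 1) / p = p ^ d - 1 := by
      rw [e0, Nat.add_mul_div_left _ _ (by omega), Nat.div_eq_of_lt (by omega), zero_add]
    have h1 := Choose.choose_modEq_choose_mod_mul_choose_div_nat (n := n) (k := p ^ (d + 1) - 1) (p := p)
    rw [e1, e2] at h1
    refine h1.trans ?_
    have hn := Nat.mod_add_div n p
    have hlt := Nat.mod_lt n (show 0 < p by omega)
    by_cases hr : n % p = p - 1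
    · rw [hr, Nat.choose_self, one_mul]
      refine (ih (n / p)).trans ?_
      have e3 : n + 1 = p * (n / p + 1) := by
        rw [mul_add, mul_one]
        omega
      have e4 : p ^ (d + 1) ∣ n + 1 ↔ p ^ d ∣ n / p + 1 := by
        rw [e3, pow_succ, mul_comm (p ^ d)]
        exact Nat.mul_dvd_mul_iff_left (by omega)
      by_cases h : p ^ d ∣ n / p + 1
      · rw [if_pos h, if_pos (e4.2 h)]
      · rw [if_neg h, if_neg (fun h' => h (e4.1 h'))]
    · rw [Nat.choose_eq_zero_of_lt (show n % p < p - 1 by omega), zero_mul, if_neg]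
      intro h
      apply hr
      have h2 : p ∣ n + 1 := (dvd_pow_self p (by omega)).trans h
      obtain ⟨c, hc⟩ := h2
      have hc0 : 0 < c := by
        rcases Nat.eq_zero_or_pos c with h0 | h0
        · rw [h0] at hc; omega
        · exact h0
      obtain ⟨c', rfl⟩ : ∃ c', c = c' + 1 := ⟨c - 1, by omega⟩
      have e5 : n = (p - 1) + p * c' := by
        rw [mul_add, mul_one] at hc
        omega
      rw [e5, Nat.add_mul_mod_self_left]
      exact Nat.mod_eq_of_lt (by omega)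

private theorem QB_cast {O : Type*} [CommRing O] {p : ℕ} {π : O} (hp : π ∣ (p : O)) {a b : ℕ} (h : a ≡ b [MOD p]) :
    π ∣ (a : O) - (b : O) := by
  have h1 := (Nat.modEq_iff_dvd.1 h.symm)
  obtain ⟨c, hc⟩ := h1
  have h2 : (a : O) - (b : O) = (p : O) * (c : O) := by
    have h3 := congrArg (fun z : ℤ => (z : O)) hc
    push_cast at h3
    exact h3
  rw [h2]
  exact dvd_mul_of_dvd_left hp _

private theorem QB_sign {O : Type*} [CommRing O] {p : ℕ} [hp : Fact p.Prime] {π : O} (hπ : π ∣ (p : O)) (d : ℕ) :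
    π ∣ (-1 : O) ^ (p ^ d - 1) - 1 := by
  rcases hp.out.eq_two_or_odd' with h | h
  · rcases Nat.even_or_odd (p ^ d - 1) with h1 | h1
    · rw [h1.neg_one_pow, sub_self]
      exact dvd_zero _
    · rw [h1.neg_one_pow]
      have h2 : (-1 - 1 : O) = -(p : O) := by
        rw [h]
        push_cast
        ring
      rw [h2]
      exact (dvd_neg).2 hπ
  · have h1 : Even (p ^ d - 1) := Nat.Odd.sub_odd (h.pow (n := d)) odd_one
    rw [h1.neg_one_pow, sub_self]
    exact dvd_zero _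

theorem lin_factor {O : Type*} [CommRing O] (η π : O) (hπ : π ∣ η - 1) (α c : ℕ) :
    ∃ u : O, η ^ α - η ^ c = (η - 1) * u ∧ π ∣ u - ((α : O) - (c : O)) := by
  have key : ∀ n : ℕ, π ∣ (∑ i ∈ range n, η ^ i) - (n : O) := by
    intro n
    have h : (∑ i ∈ range n, η ^ i) - (n : O) = ∑ i ∈ range n, (η ^ i - 1) := by
      rw [sum_sub_distrib, sum_const, card_range, nsmul_eq_mul, mul_one]
    rw [h]
    exact dvd_sum fun i _ => QB_pow hπ i
  refine ⟨(∑ i ∈ range α, η ^ i) - ∑ i ∈ range c, η ^ i, ?_, ?_⟩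
  · rw [mul_sub, mul_geom_sum, mul_geom_sum]
    ring
  · have h : (∑ i ∈ range α, η ^ i) - (∑ i ∈ range c, η ^ i) - ((α : O) - (c : O)) =
        ((∑ i ∈ range α, η ^ i) - (α : O)) - ((∑ i ∈ range c, η ^ i) - (c : O)) := by ring
    rw [h]
    exact dvd_sub (key α) (key c)

theorem digit_factor {O : Type*} [CommRing O] [IsDomain O] {p : ℕ} [Fact p.Prime] {d : ℕ} {η π : O}
    (hη : IsPrimitiveRoot η (p ^ (d + 1))) (hπ : π ∣ η - 1) (hp : π ∣ (p : O)) (α w : ℕ) :
    ∃ u : O, ∏ t ∈ Ico 1 (p ^ d), (η ^ α - η ^ (w + t)) = (∏ t ∈ Ico 1 (p ^ d), (1 - η ^ t)) * u ∧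
      π ∣ u - (if α ≡ w [MOD p ^ d] then 1 else 0) := by
  have hp1 : 1 < p := (Fact.out : p.Prime).one_lt
  have hN : 0 < p ^ d := pow_pos (by omega) _
  have hM : p ^ d ≤ p ^ (d + 1) := Nat.pow_le_pow_right (by omega) (by omega)
  obtain ⟨N, hNe⟩ : ∃ N, N = p ^ d := ⟨_, rfl⟩
  obtain ⟨M, hMe⟩ : ∃ M, M = p ^ (d + 1) := ⟨_, rfl⟩
  have hMN : M = p * N := by rw [hMe, hNe, pow_succ, mul_comm]
  obtain ⟨A, hA⟩ : ∃ A, w + A = α + M * (w + 1) := ⟨α + M * (w + 1) - w, by
    have : w ≤ M * (w + 1) := by nlinarith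
    omega⟩
  have hAN : N ≤ A := by
    have h1 : w + M ≤ M * (w + 1) := by nlinarith
    omega
  have hηA : η ^ α = η ^ (w + A) := by
    rw [hA, pow_add, pow_mul, hMe, hη.pow_eq_one, one_pow, mul_one]
  rw [← hNe] at hN ⊢
  have hterm : ∏ t ∈ Ico 1 N, (η ^ α - η ^ (w + t)) =
      (∏ t ∈ Ico 1 N, η ^ (w + t)) * ∏ t ∈ Ico 1 N, (η ^ (A - t) - 1) := by
    rw [← prod_mul_distrib]
    refine prod_congr rfl fun t ht => ?_
    rw [mem_Ico] at ht
    rw [mul_sub, mul_one, ← pow_add, hηA]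
    congr 2
    omega
  have hrev : ∏ t ∈ Ico 1 N, (η ^ (A - t) - 1) = ∏ i ∈ range (N - 1), (η ^ (A - N + i + 1) - 1) := by
    refine prod_nbij' (fun t => N - 1 - t) (fun i => N - 1 - i) ?_ ?_ ?_ ?_ ?_
    · intro t ht
      rw [mem_Ico] at ht
      rw [mem_range]
      omega
    · intro i hi
      rw [mem_range] at hi
      rw [mem_Ico]
      omega
    · intro t ht
      rw [mem_Ico] at ht
      omega
    · intro i hi
      rw [mem_range] at hi
      omega
    · intro t ht
      rw [mem_Ico] at ht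
      congr 2
      omega
  have hgb := QB_gb_prod η (A - N) (N - 1)
  rw [show A - N + (N - 1) = A - 1 by omega] at hgb
  have hsgn : ∏ i ∈ range (N - 1), (η ^ (i + 1) - 1) = (-1) ^ (N - 1) * ∏ t ∈ Ico 1 N, (1 - η ^ t) := by
    have h1 : ∏ t ∈ Ico 1 N, (1 - η ^ t) = ∏ i ∈ range (N - 1), (1 - η ^ (i + 1)) := by
      rw [prod_Ico_eq_prod_range]
      exact prod_congr rfl fun i _ => by rw [add_comm 1 i]
    have h2 : ∏ i ∈ range (N - 1), (η ^ (i + 1) - 1) = ∏ i ∈ range (N - 1), ((-1) * (1 - η ^ (i + 1))) :=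
      prod_congr rfl fun i _ => by ring
    rw [h1, h2, prod_mul_distrib, prod_const, card_range]
  refine ⟨(∏ t ∈ Ico 1 N, η ^ (w + t)) * ((-1) ^ (N - 1) * QB_gb η (A - 1) (N - 1)), ?_, ?_⟩
  · rw [hterm, hrev, ← hgb, hsgn]
    ring
  · have h1 : π ∣ (∏ t ∈ Ico 1 N, η ^ (w + t)) - 1 := by
      rw [prod_pow_eq_pow_sum]
      exact QB_pow hπ _
    have h2 : π ∣ (-1 : O) ^ (N - 1) - 1 := by
      rw [hNe]
      exact QB_sign hp d
    have h3 : π ∣ QB_gb η (A - 1) (N - 1) - ((A - 1).choose (N - 1) : O) := QB_gb_mod hπ _ _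
    have h4 : π ∣ ((A - 1).choose (N - 1) : O) - (if α ≡ w [MOD N] then 1 else 0) := by
      have h5 := QB_cast hp (QB_lucas (p := p) d (A - 1))
      rw [← hNe, show A - 1 + 1 = A by omega] at h5
      have h6 : N ∣ A ↔ α ≡ w [MOD N] := by
        have h7 : N ∣ M * (w + 1) := by
          rw [hMN, mul_assoc, mul_comm, mul_assoc]
          exact dvd_mul_right _ _
        rw [← Nat.modEq_zero_iff_dvd]
        have h8 : α + M * (w + 1) ≡ α + 0 [MOD N] := Nat.ModEq.add_left α ((Nat.modEq_zero_iff_dvd).2 h7)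
        rw [← hA, add_zero] at h8
        constructor
        · intro h
          have h9 : w + A ≡ w + 0 [MOD N] := Nat.ModEq.add_left w h
          rw [add_zero] at h9
          exact h8.symm.trans h9
        · intro h
          have h9 : w + A ≡ w + 0 [MOD N] := by
            rw [add_zero]
            exact h8.trans h
          exact Nat.ModEq.add_left_cancel' w h9
      by_cases h : α ≡ w [MOD N]
      · rw [if_pos h]
        rw [if_pos (h6.2 h), Nat.cast_one] at h5
        exact h5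
      · rw [if_neg h]
        rw [if_neg (fun h' => h (h6.1 h')), Nat.cast_zero] at h5
        exact h5
    have h5 : (∏ t ∈ Ico 1 N, η ^ (w + t)) * ((-1) ^ (N - 1) * QB_gb η (A - 1) (N - 1)) -
        (if α ≡ w [MOD N] then 1 else 0) =
        ((∏ t ∈ Ico 1 N, η ^ (w + t)) - 1) * ((-1) ^ (N - 1) * QB_gb η (A - 1) (N - 1)) +
        ((-1) ^ (N - 1) - 1) * QB_gb η (A - 1) (N - 1) +
        (QB_gb η (A - 1) (N - 1) - ((A - 1).choose (N - 1) : O)) +
        (((A - 1).choose (N - 1) : O) - (if α ≡ w [MOD N] then 1 else 0)) := by ring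
    rw [h5]
    exact dvd_add (dvd_add (dvd_add (dvd_mul_of_dvd_left h1 _) (dvd_mul_of_dvd_left h2 _)) h3) h4

end Pool.Agent.H16.RB
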