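import Pool.Agent.H16.RB.Val
import Pool.Agent.H16.RB.Cyc
import Pool.Agent.H16.RB.QB

/-!
# RB module Key: parts of the graph with prescribed digits kill products of few functionals

Sketch.  Let `k = ∑ d j`, `L` the `p ^ (k+1)`-th cyclotomic field, `π = ζ - 1`, `M` with
`2 M = r p ^ k (p - 1)`.  Say that `F : H → 𝓞 L` is fine if `π ^ M ∣ ∑ x, ζ ^ (b (gr f x)).val * F x`
for all `b : H × K →+ ZMod (p ^ (k+1))`.  `1` is fine (`val_sum`), and if `F` is fine, so is
`F x * (ζ ^ (b (gr f x)).val - c)`.  Apply to the product of the factors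
`∏ t ∈ Ico 1 (p ^ d j), (η_j ^ (a j (gr f x)).val - η_j ^ (w_j + t))`, `η_j = ζ ^ (p ^ (k - d j))`,
`w_j = (a j v).val`, and the factors `η ^ (l (gr f x)).val - η ^ c.val`, `η = ζ ^ (p ^ k)`, one for each
member of the list.  Use `digit_factor`, `lin_factor`, `cost_digit`, `cost_lin`, `cancel`,
`dvd_of_pi_dvd`.
-/

set_option autoImplicit false

namespace Pool.Agent.H16.RB

open Finset NumberField Pool.Agent.H88.Pl
open scoped Classical

namespace Key

lemma pow_val_add' {O : Type*} [CommRing O] {N : ℕ} [NeZero N] {ξ : O} (hξ : ξ ^ N = 1)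
    (x y : ZMod N) : ξ ^ (x + y).val = ξ ^ x.val * ξ ^ y.val := by
  rw [ZMod.val_add, ← pow_add]
  conv_rhs => rw [← Nat.mod_add_div (x.val + y.val) N, pow_add, pow_mul, hξ, one_pow, mul_one]

lemma pow_natCast_val {O : Type*} [CommRing O] {N : ℕ} [NeZero N] {ξ : O} (hξ : ξ ^ N = 1)
    (n : ℕ) : ξ ^ ((n : ZMod N)).val = ξ ^ n := by
  rw [ZMod.val_natCast]
  conv_rhs => rw [← Nat.mod_add_div n N, pow_add, pow_mul, hξ, one_pow, mul_one]

/-- change of the modulus of a homomorphism -/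
lemma exists_hom {n m N : ℕ} [NeZero n] [NeZero N] (h : m * n = N) {G : Type*} [AddCommGroup G]
    (a : G →+ ZMod n) : ∃ b : G →+ ZMod N, ∀ (O : Type) [CommRing O] (z : O), z ^ N = 1 →
      ∀ g, z ^ (b g).val = (z ^ m) ^ (a g).val := by
  have h0 : (zmultiplesHom (ZMod N)) ((m : ℕ) : ZMod N) (n : ℤ) = 0 := by
    rw [zmultiplesHom_apply, natCast_zsmul, nsmul_eq_mul, ← Nat.cast_mul, mul_comm n m, h,
      ZMod.natCast_self]
  refine ⟨(ZMod.lift n ⟨(zmultiplesHom (ZMod N)) ((m : ℕ) : ZMod N), h0⟩).comp a, ?_⟩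
  intro O _ z hz g
  have h1 : (ZMod.lift n ⟨(zmultiplesHom (ZMod N)) ((m : ℕ) : ZMod N), h0⟩) (a g) =
      ((m * (a g).val : ℕ) : ZMod N) := by
    conv_lhs => rw [← ZMod.natCast_zmod_val (a g)]
    rw [← Int.cast_natCast (R := ZMod n), ZMod.lift_coe]
    simp only [zmultiplesHom_apply, natCast_zsmul, nsmul_eq_mul]
    push_cast
    ring
  rw [AddMonoidHom.comp_apply, h1, pow_natCast_val hz, pow_mul]

end Key

theorem key {p r : ℕ} [Fact p.Prime] (hp : p ≠ 2) {H K : Type*} [AddCommGroup H]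
    [AddCommGroup K] [Fintype H] [Fintype K] (hH : Fintype.card H = p ^ r) (f : H → K)
    (hf : IsPlanar f) {J : Type} [Fintype J] (d : J → ℕ)
    (a : ∀ j, H × K →+ ZMod (p ^ (d j + 1))) (v : H × K) (n : ℕ) (hd : 1 ≤ ∑ j, d j)
    (hn : 2 * ((∑ j, d j) + n) ≤ r * (p - 1) + 2) :
    Kills p (gr f) (univ.filter fun x => ∀ j, p ^ (d j) ∣ (a j (gr f x - v)).val) n := by
  intro Ls hLs
  have hpp : p.Prime := Fact.out
  have hpos : 0 < p := hpp.pos
  obtain ⟨k, hk⟩ : ∃ k, k = ∑ j, d j := ⟨_, rfl⟩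
  have hdk : ∀ j, d j ≤ k := fun j => by
    rw [hk]; exact single_le_sum (fun _ _ => Nat.zero_le _) (mem_univ j)
  rw [← hk] at hd hn
  have hnz : p ^ (k + 1) ≠ 0 := pow_ne_zero _ hpp.ne_zero
  have : NeZero (p ^ (k + 1)) := ⟨hnz⟩
  let L := CyclotomicField (p ^ (k + 1)) ℚ
  have hL : IsCyclotomicExtension {p ^ (k + 1)} ℚ L := CyclotomicField.isCyclotomicExtension _ _
  have : NumberField L := IsCyclotomicExtension.numberField {p ^ (k + 1)} ℚ L
  let ζ : L := IsCyclotomicExtension.zeta (p ^ (k + 1)) ℚ L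
  have hζ : IsPrimitiveRoot ζ (p ^ (k + 1)) := IsCyclotomicExtension.zeta_spec _ _ _
  have hzp : IsPrimitiveRoot hζ.toInteger (p ^ (k + 1)) := hζ.toInteger_isPrimitiveRoot
  set z : 𝓞 L := hζ.toInteger with hz
  have hz1 : z ^ (p ^ (k + 1)) = 1 := hzp.pow_eq_one
  obtain ⟨M, hM⟩ : ∃ M, 2 * M = r * (p ^ k * (p - 1)) := by
    have h1 : Even (p - 1) := (hpp.odd_of_ne_two hp).tsub_odd odd_one
    obtain ⟨c, hc⟩ := h1
    exact ⟨r * (p ^ k * c), by rw [hc]; ring⟩
  -- fine functions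
  let fine : (H → 𝓞 L) → Prop := fun F =>
    ∀ b : H × K →+ ZMod (p ^ (k + 1)), (z - 1) ^ M ∣ ∑ x, z ^ (b (gr f x)).val * F x
  have fine_one : fine (fun _ => 1) := by
    intro b
    simp only [mul_one]
    exact val_sum hp hH f hf hζ b M hM
  have fine_step : ∀ (F : H → 𝓞 L) (b : H × K →+ ZMod (p ^ (k + 1))) (c : 𝓞 L), fine F →
      fine (fun x => F x * (z ^ (b (gr f x)).val - c)) := by
    intro F b c hF b'
    have h1 : ∑ x, z ^ (b' (gr f x)).val * (F x * (z ^ (b (gr f x)).val - c)) =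
        ∑ x, z ^ ((b' + b) (gr f x)).val * F x - c * ∑ x, z ^ (b' (gr f x)).val * F x := by
      rw [mul_sum, ← sum_sub_distrib]
      refine sum_congr rfl fun x _ => ?_
      rw [AddMonoidHom.add_apply, Key.pow_val_add' hz1]
      ring
    rw [h1]
    exact dvd_sub (hF _) ((hF _).mul_left c)
  have fine_prod : ∀ {ι : Type} (T : Finset ι) (b : ι → (H × K →+ ZMod (p ^ (k + 1))))
      (c : ι → 𝓞 L) (F : H → 𝓞 L), fine F →
      fine (fun x => F x * ∏ t ∈ T, (z ^ (b t (gr f x)).val - c t)) := by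
    intro ι T b c F hF
    induction T using Finset.induction_on with
    | empty => simpa using hF
    | insert t T ht ih =>
      have := fine_step _ (b t) (c t) ih
      refine cast ?_ this
      congr 1
      funext x
      rw [prod_insert ht]
      ring
  -- the digit factors
  have hη : ∀ j, IsPrimitiveRoot (z ^ (p ^ (k - d j))) (p ^ (d j + 1)) := by
    intro j
    refine hzp.pow (Nat.pos_of_ne_zero hnz) ?_
    rw [← pow_add]
    congr 1
    have := hdk j
    omega
  have hb : ∀ j, ∃ b : H × K →+ ZMod (p ^ (k + 1)), ∀ g,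
      z ^ (b g).val = (z ^ (p ^ (k - d j))) ^ (a j g).val := by
    intro j
    have : NeZero (p ^ (d j + 1)) := ⟨pow_ne_zero _ hpp.ne_zero⟩
    obtain ⟨b, hb⟩ := Key.exists_hom (n := p ^ (d j + 1)) (m := p ^ (k - d j)) (N := p ^ (k + 1))
      (by
        rw [← pow_add]
        congr 1
        have := hdk j
        omega) (a j)
    exact ⟨b, hb (𝓞 L) z hz1⟩
  choose b hb using hb
  have fine_digits : ∀ T : Finset J, fine (fun x => ∏ j ∈ T, ∏ t ∈ Ico 1 (p ^ (d j)),
      ((z ^ (p ^ (k - d j))) ^ (a j (gr f x)).val - (z ^ (p ^ (k - d j))) ^ ((a j v).val + t))) := by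
    intro T
    induction T using Finset.induction_on with
    | empty => simpa using fine_one
    | insert j T hj ih =>
      have := fine_prod (Ico 1 (p ^ (d j))) (fun _ => b j)
        (fun t => (z ^ (p ^ (k - d j))) ^ ((a j v).val + t)) _ ih
      refine cast ?_ this
      congr 1
      funext x
      rw [prod_insert hj, mul_comm]
      congr 1
      refine prod_congr rfl fun t _ => ?_
      rw [hb j]
  -- the linear factors
  set η : 𝓞 L := z ^ (p ^ k) with hηdef
  have hbl : ∀ l : H × K →+ ZMod p, ∃ b : H × K →+ ZMod (p ^ (k + 1)), ∀ g,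
      z ^ (b g).val = η ^ (l g).val := by
    intro l
    obtain ⟨b, hb⟩ := Key.exists_hom (n := p) (m := p ^ k) (N := p ^ (k + 1)) (pow_succ p k).symm l
    exact ⟨b, hb (𝓞 L) z hz1⟩
  have fine_list : ∀ Ls : List ((H × K →+ ZMod p) × ZMod p), ∀ F, fine F →
      fine (fun x => F x * (Ls.map fun l => η ^ (l.1 (gr f x)).val - η ^ l.2.val).prod) := by
    intro Ls
    induction Ls with
    | nil => intro F hF; simpa using hF
    | cons l Ls ih =>
      intro F hF
      obtain ⟨b', hb'⟩ := hbl l.1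
      have h1 := ih _ (fine_step F b' (η ^ l.2.val) hF)
      refine cast ?_ h1
      congr 1
      funext x
      rw [List.map_cons, List.prod_cons, hb']
      ring
  have hfin := fine_list Ls _ (fine_digits univ) 0
  -- local expansions
  have hππ : (z - 1) ∣ (p : 𝓞 L) := pi_dvd_p hζ
  have hdig : ∀ j x, ∃ u : 𝓞 L, ∏ t ∈ Ico 1 (p ^ (d j)),
      ((z ^ (p ^ (k - d j))) ^ (a j (gr f x)).val - (z ^ (p ^ (k - d j))) ^ ((a j v).val + t)) =
        (∏ t ∈ Ico 1 (p ^ (d j)), (1 - (z ^ (p ^ (k - d j))) ^ t)) * u ∧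
      (z - 1) ∣ u - (if (a j (gr f x)).val ≡ (a j v).val [MOD p ^ (d j)] then 1 else 0) := by
    intro j x
    exact digit_factor (hη j) (sub_one_dvd_pow_sub_one z _) hππ _ _
  choose u hu1 hu2 using hdig
  have hlin : ∀ (l : (H × K →+ ZMod p) × ZMod p) x, ∃ u : 𝓞 L,
      η ^ (l.1 (gr f x)).val - η ^ l.2.val = (η - 1) * u ∧
      (z - 1) ∣ u - (((l.1 (gr f x)).val : 𝓞 L) - (l.2.val : 𝓞 L)) := by
    intro l x
    exact lin_factor η (z - 1) (sub_one_dvd_pow_sub_one z _) _ _
  choose w hw1 hw2 using hlin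
  set C : 𝓞 L := (∏ j, ∏ t ∈ Ico 1 (p ^ (d j)), (1 - (z ^ (p ^ (k - d j))) ^ t)) *
    (η - 1) ^ Ls.length with hC
  set U : H → 𝓞 L := fun x => (∏ j, u j x) * (Ls.map fun l => w l x).prod with hU
  have hprod : ∀ x, (∏ j, ∏ t ∈ Ico 1 (p ^ (d j)), ((z ^ (p ^ (k - d j))) ^ (a j (gr f x)).val -
      (z ^ (p ^ (k - d j))) ^ ((a j v).val + t))) *
      (Ls.map fun l => η ^ (l.1 (gr f x)).val - η ^ l.2.val).prod = C * U x := by
    intro x
    have h1 : (∏ j, ∏ t ∈ Ico 1 (p ^ (d j)), ((z ^ (p ^ (k - d j))) ^ (a j (gr f x)).val -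
      (z ^ (p ^ (k - d j))) ^ ((a j v).val + t))) =
      (∏ j, ∏ t ∈ Ico 1 (p ^ (d j)), (1 - (z ^ (p ^ (k - d j))) ^ t)) * ∏ j, u j x := by
      rw [← prod_mul_distrib]
      exact prod_congr rfl fun j _ => hu1 j x
    have h2 : ∀ Ls : List ((H × K →+ ZMod p) × ZMod p),
        (Ls.map fun l => η ^ (l.1 (gr f x)).val - η ^ l.2.val).prod =
        (η - 1) ^ Ls.length * (Ls.map fun l => w l x).prod := by
      intro Ls
      induction Ls with
      | nil => simp
      | cons l Ls ih =>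
        rw [List.map_cons, List.prod_cons, ih, hw1 l x, List.map_cons, List.prod_cons,
          List.length_cons]
        ring
    rw [h1, h2, hC, hU]
    ring
  have hdvd : (z - 1) ^ M ∣ C * ∑ x, U x := by
    rw [mul_sum]
    refine cast ?_ hfin
    congr 1
    refine sum_congr rfl fun x _ => ?_
    rw [AddMonoidHom.zero_apply, ZMod.val_zero, pow_zero, one_mul]
    exact hprod x
  have hCp : C ^ p ∣ (z - 1) ^ ((∑ j, d j) * (p - 1) * p ^ k + p ^ k * (Ls.length * p)) := by
    rw [hC, mul_pow, pow_add (z - 1)]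
    refine mul_dvd_mul ?_ ?_
    · rw [← prod_pow, sum_mul, sum_mul, ← prod_pow_eq_pow_sum univ _ (z - 1)]
      exact prod_dvd_prod_of_dvd _ _ fun j _ => cost_digit hζ (hdk j)
    · rw [← pow_mul (η - 1), pow_mul (z - 1)]
      exact pow_dvd_pow_of_dvd (cost_lin hζ) _
  have hnum : (∑ j, d j) * (p - 1) * p ^ k + p ^ k * (Ls.length * p) < p * M := by
    have h1 : 2 * (k + Ls.length) ≤ r * (p - 1) := by omega
    have h2 : 0 < p ^ k := pow_pos hpos k
    obtain ⟨q, rfl⟩ : ∃ q, p = q + 1 := ⟨p - 1, by omega⟩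
    simp only [Nat.add_sub_cancel] at h1 hM ⊢
    rw [← hk]
    have h3 : 2 * (k * q * (q + 1) ^ k + (q + 1) ^ k * (Ls.length * (q + 1))) <
        2 * ((q + 1) * M) := by
      calc 2 * (k * q * (q + 1) ^ k + (q + 1) ^ k * (Ls.length * (q + 1)))
          < 2 * (k * q * (q + 1) ^ k + (q + 1) ^ k * (Ls.length * (q + 1))) + 2 * k * (q + 1) ^ k := by
            have : 0 < 2 * k * (q + 1) ^ k := by positivity
            omega
        _ = (q + 1) ^ k * (q + 1) * (2 * (k + Ls.length)) := by ring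
        _ ≤ (q + 1) ^ k * (q + 1) * (r * q) := Nat.mul_le_mul_left _ h1
        _ = (q + 1) * (r * ((q + 1) ^ k * q)) := by ring
        _ = 2 * ((q + 1) * M) := by rw [← hM]; ring
    omega
  have hπU : (z - 1) ∣ ∑ x, U x := cancel hζ hdvd hCp hnum
  -- reduction
  have hcong : ∀ x, (z - 1) ∣ U x - (((if (∀ j, p ^ (d j) ∣ (a j (gr f x - v)).val) then
      (Ls.map fun l => ((l.1 (gr f x)).val : ℤ) - (l.2.val : ℤ)).prod else 0 : ℤ)) : 𝓞 L) := by
    intro x
    have hmk : ∀ a b : 𝓞 L, (z - 1) ∣ a - b ↔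
        Ideal.Quotient.mk (Ideal.span {z - 1}) a = Ideal.Quotient.mk (Ideal.span {z - 1}) b := by
      intro a b
      rw [Ideal.Quotient.eq, Ideal.mem_span_singleton]
    rw [hmk, hU]
    simp only [map_mul, map_prod]
    have e1 : ∀ j, Ideal.Quotient.mk (Ideal.span {z - 1}) (u j x) =
        if (p ^ (d j) ∣ (a j (gr f x - v)).val) then 1 else 0 := by
      intro j
      have h1 := (hmk _ _).1 (hu2 j x)
      rw [h1]
      have h2 : (a j (gr f x)).val ≡ (a j v).val [MOD p ^ (d j)] ↔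
          p ^ (d j) ∣ (a j (gr f x - v)).val := by
        have : NeZero (p ^ (d j + 1)) := ⟨pow_ne_zero _ hpp.ne_zero⟩
        have h3 : a j (gr f x) = a j (gr f x - v) + a j v := by rw [← map_add, sub_add_cancel]
        have h4 : (a j (gr f x)).val ≡ (a j (gr f x - v)).val + (a j v).val [MOD p ^ (d j)] := by
          rw [h3, ZMod.val_add]
          exact (Nat.mod_modEq _ _).of_dvd (pow_dvd_pow p (Nat.le_succ _))
        constructor
        · intro h5
          have h6 : 0 + (a j v).val ≡ (a j (gr f x - v)).val + (a j v).val [MOD p ^ (d j)] := by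
            rw [zero_add]
            exact h5.symm.trans h4
          exact (Nat.modEq_zero_iff_dvd.1 (Nat.ModEq.add_right_cancel' _ h6).symm)
        · intro h5
          have h6 := (Nat.modEq_zero_iff_dvd.2 h5).add_right (a j v).val
          rw [zero_add] at h6
          exact h4.trans h6
      by_cases h5 : p ^ (d j) ∣ (a j (gr f x - v)).val
      · rw [if_pos (h2.2 h5), if_pos h5, map_one]
      · rw [if_neg (fun h => h5 (h2.1 h)), if_neg h5, map_zero]
    have e2 : ∀ Ls : List ((H × K →+ ZMod p) × ZMod p),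
        Ideal.Quotient.mk (Ideal.span {z - 1}) (Ls.map fun l => w l x).prod =
        Ideal.Quotient.mk (Ideal.span {z - 1})
          (((Ls.map fun l => ((l.1 (gr f x)).val : ℤ) - (l.2.val : ℤ)).prod : ℤ) : 𝓞 L) := by
      intro Ls
      induction Ls with
      | nil => simp
      | cons l Ls ih =>
        rw [List.map_cons, List.prod_cons, map_mul, ih, (hmk _ _).1 (hw2 l x), List.map_cons,
          List.prod_cons, ← map_mul]
        push_cast
        ring_nf
    simp only [e1, e2]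
    by_cases hall : ∀ j, p ^ (d j) ∣ (a j (gr f x - v)).val
    · rw [if_pos hall, prod_congr rfl (fun j _ => if_pos (hall j)), prod_const_one, one_mul]
    · rw [if_neg hall]
      push Not at hall
      obtain ⟨j, hj⟩ := hall
      rw [prod_eq_zero (mem_univ j) (if_neg hj), zero_mul, Int.cast_zero, map_zero]
  have hsumdvd : (z - 1) ∣ ((∑ x, (if (∀ j, p ^ (d j) ∣ (a j (gr f x - v)).val) then
      (Ls.map fun l => ((l.1 (gr f x)).val : ℤ) - (l.2.val : ℤ)).prod else 0) : ℤ) : 𝓞 L) := by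
    have h1 : (z - 1) ∣ ∑ x, (U x - (((if (∀ j, p ^ (d j) ∣ (a j (gr f x - v)).val) then
      (Ls.map fun l => ((l.1 (gr f x)).val : ℤ) - (l.2.val : ℤ)).prod else 0 : ℤ)) : 𝓞 L)) :=
      dvd_sum fun x _ => hcong x
    rw [sum_sub_distrib] at h1
    have h2 := (dvd_sub_right hπU).1 h1
    rw [Int.cast_sum]
    exact h2
  have hdvdp := dvd_of_pi_dvd hζ _ hsumdvd
  have hz0 := (ZMod.intCast_zmod_eq_zero_iff_dvd _ p).2 hdvdp
  rw [Int.cast_sum] at hz0
  rw [sum_filter]
  refine Eq.trans (sum_congr rfl fun x _ => ?_) hz0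
  have e3 : ∀ Ls : List ((H × K →+ ZMod p) × ZMod p),
      (((Ls.map fun l => ((l.1 (gr f x)).val : ℤ) - (l.2.val : ℤ)).prod : ℤ) : ZMod p) =
      (Ls.map fun l => l.1 (gr f x) - l.2).prod := by
    intro Ls
    induction Ls with
    | nil => simp
    | cons l Ls ih =>
      rw [List.map_cons, List.prod_cons, Int.cast_mul, ih, List.map_cons, List.prod_cons]
      push_cast
      rw [ZMod.natCast_zmod_val, ZMod.natCast_zmod_val]
  split_ifs with h
  · rw [e3]
  · rw [Int.cast_zero]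

end Pool.Agent.H16.RB
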