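import Pool.Agent.H16.RB.Defs

/-!
# RB module Pair: pairs of points of the graph with prescribed difference

Sketch.  `pair_count`: `(x, x') ↦ gr f x - gr f x'` is a bijection from pairs with `x ≠ x'` onto the `g`
with `g.1 ≠ 0` (`IsPlanar`: for `h ≠ 0` the map `x' ↦ f (h + x') - f x'` is bijective).
`sep`: `G / p G` is a `ZMod p`-module; a nonzero vector is detected by a functional.
-/

set_option autoImplicit false

namespace Pool.Agent.H16.RB

open Finset Pool.Agent.H88.Pl
open scoped Classical

/-- number of pairs of distinct points of the graph whose difference satisfies `Q` -/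
theorem pair_count {H K : Type*} [AddCommGroup H] [AddCommGroup K] [Fintype H] [Fintype K]
    (f : H → K) (hf : IsPlanar f) (Q : H × K → Prop) :
    (univ.filter fun z : H × H => z.1 ≠ z.2 ∧ Q (gr f z.1 - gr f z.2)).card =
      (univ.filter fun g : H × K => g.1 ≠ 0 ∧ Q g).card := by
  refine Finset.card_bij (fun z _ => gr f z.1 - gr f z.2) ?_ ?_ ?_
  · intro z hz
    rw [mem_filter] at hz ⊢
    exact ⟨mem_univ _, sub_ne_zero.2 hz.2.1, hz.2.2⟩
  · intro z hz w hw h
    rw [mem_filter] at hz hw
    have h1 : z.1 - z.2 = w.1 - w.2 := congrArg Prod.fst h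
    have h2 : f z.1 - f z.2 = f w.1 - f w.2 := congrArg Prod.snd h
    have h3 : z.2 = w.2 := by
      refine (hf (z.1 - z.2) (sub_ne_zero.2 hz.2.1)).1 ?_
      show f (z.1 - z.2 + z.2) - f z.2 = f (z.1 - z.2 + w.2) - f w.2
      rw [sub_add_cancel]
      conv_rhs => rw [h1, sub_add_cancel]
      exact h2
    have h4 : z.1 = w.1 := by
      rw [← sub_add_cancel z.1 z.2, h1, h3, sub_add_cancel]
    exact Prod.ext h4 h3
  · intro g hg
    rw [mem_filter] at hg
    obtain ⟨x, hx⟩ := (hf g.1 hg.2.1).2 g.2
    have hx' : f (g.1 + x) - f x = g.2 := hx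
    have h1 : gr f (g.1 + x) - gr f x = g := by
      refine Prod.ext ?_ ?_
      · show g.1 + x - x = g.1
        rw [add_sub_cancel_right]
      · exact hx'
    refine ⟨(g.1 + x, x), ?_, h1⟩
    rw [mem_filter]
    refine ⟨mem_univ _, ?_, ?_⟩
    · intro h
      have h' : g.1 + x = x := h
      exact hg.2.1 (by simpa using h')
    · show Q (gr f (g.1 + x) - gr f x)
      rw [h1]
      exact hg.2.2

private theorem Pair_field {F V : Type*} [Field F] [AddCommGroup V] [Module F V] (v : V)
    (h : ∀ l : V →ₗ[F] F, l v = 0) : v = 0 :=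
  (Module.forall_dual_apply_eq_zero_iff F v).1 h

private theorem Pair_dual {p : ℕ} [Fact p.Prime] {V : Type*} [AddCommGroup V]
    (hV : ∀ x : V, p • x = 0) (v : V) (h : ∀ l : V →+ ZMod p, l v = 0) : v = 0 := by
  let _ : Module (ZMod p) V := AddCommGroup.zmodModule hV
  exact Pair_field (F := ZMod p) v fun φ => h φ.toAddMonoidHom

/-- points that cannot be separated modulo `p` are congruent modulo `p G` -/
theorem sep {p : ℕ} [Fact p.Prime] {G : Type*} [AddCommGroup G] [Finite G] (g : G)
    (h : ∀ l : G →+ ZMod p, l g = 0) : ∃ g' : G, p • g' = g := by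
  by_contra hcon
  let S : AddSubgroup G := (nsmulAddMonoidHom (α := G) p).range
  have hS : ∀ x : G ⧸ S, p • x = 0 := by
    intro x
    induction x using QuotientAddGroup.induction_on with
    | H z =>
      rw [← QuotientAddGroup.mk_nsmul, QuotientAddGroup.eq_zero_iff]
      exact ⟨z, rfl⟩
  have h1 : (QuotientAddGroup.mk' S g) = 0 :=
    Pair_dual hS _ fun φ => h (φ.comp (QuotientAddGroup.mk' S))
  have h2 : g ∈ S := (QuotientAddGroup.eq_zero_iff g).1 h1
  obtain ⟨z, hz⟩ := h2
  exact hcon ⟨z, hz⟩

/-- sum of squares of the fibre sizes of a partition given by a function -/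
theorem sum_sq {X Y : Type*} [Fintype X] [Fintype Y] (c : X → Y) :
    ∑ v : Y, (univ.filter fun x => c x = v).card ^ 2 =
      (univ.filter fun z : X × X => c z.1 = c z.2).card := by
  rw [Finset.card_eq_sum_card_fiberwise (f := fun z : X × X => c z.1) (t := univ)
    (fun _ _ => mem_coe.2 (mem_univ _))]
  refine Finset.sum_congr rfl fun v _ => ?_
  rw [sq, ← Finset.card_product]
  congr 1
  ext z
  simp only [mem_product, mem_filter, mem_univ, true_and]
  constructor
  · rintro ⟨h1, h2⟩
    exact ⟨h1.trans h2.symm, h1⟩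
  · rintro ⟨h1, h2⟩
    exact ⟨h2, h1.symm.trans h2⟩

end Pool.Agent.H16.RB
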