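import Pool.Agent.H16.RB.Diff

/-!
# RB module Polar: polarization for iterated differences

Sketch.  Prove by downward induction on `j ≤ k`: for all `e` and all lists `L` of length `k - j`,
`diffs (List.replicate j e ++ L) g = 0`.  `j = k` is `h2`, `j = 0` is the claim.  Step from `j ≥ 1` to
`j - 1`: given `e`, `f`, `L` of length `k - j`; differences commute, and modulo differences of order
`k + 1` (which vanish) the difference in the direction `e + m • f` is the difference in the direction
`e` plus `m` times that in the direction `f`; so `0 = diffs (replicate j (e + m • f) ++ L) g =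
∑ i ≤ j, (j choose i) m ^ i diffs (replicate (j - i) e ++ replicate i f ++ L) g` for all `m : ℕ`, a
polynomial in `m` of degree at most `j < p` over `ZMod p` which vanishes identically; its coefficient
at `m ^ 1` is `j * diffs (replicate (j - 1) e ++ f :: L) g`.
-/

set_option autoImplicit false

namespace Pool.Agent.H16.RB

private theorem Polar_poly {p j : ℕ} [Fact p.Prime] (hj : j < p) (c : ℕ → ZMod p)
    (h : ∀ m : ℕ, ∑ i ∈ Finset.range (j + 1), c i * (m : ZMod p) ^ i = 0) :
    ∀ i ≤ j, c i = 0 := by
  classical
  set Q : Polynomial (ZMod p) :=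
    ∑ i ∈ Finset.range (j + 1), Polynomial.C (c i) * Polynomial.X ^ i with hQ
  have hcoef : ∀ i, Q.coeff i = if i ∈ Finset.range (j + 1) then c i else 0 := by
    intro i
    rw [hQ, Polynomial.finsetSum_coeff]
    simp only [Polynomial.coeff_C_mul, Polynomial.coeff_X_pow, mul_ite, mul_one, mul_zero]
    rw [Finset.sum_ite_eq]
  have hdeg : Q.natDegree ≤ j := by
    rw [Polynomial.natDegree_le_iff_coeff_eq_zero]
    intro n hn
    rw [hcoef, if_neg]
    rw [Finset.mem_range]
    omega
  have h0 : Q = 0 := by
    refine Polynomial.eq_zero_of_natDegree_lt_card_of_eval_eq_zero Q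
      (f := fun t : ZMod p => t) (fun _ _ h => h) (fun t => ?_) ?_
    · have h1 := h t.val
      rw [ZMod.natCast_zmod_val] at h1
      rw [hQ, Polynomial.eval_finsetSum]
      simpa only [Polynomial.eval_mul, Polynomial.eval_C, Polynomial.eval_pow,
        Polynomial.eval_X] using h1
    · rw [ZMod.card]
      omega
  intro i hi
  have h1 := hcoef i
  rw [h0, Polynomial.coeff_zero, if_pos (Finset.mem_range.2 (by omega))] at h1
  exact h1.symm

private theorem Polar_pow_le {A V : Type*} [CommRing A] (d : V → A) (n : ℕ) :
    ∀ N : Ideal A, (∀ L : List V, L.length = n → (L.map d).prod ∈ N) →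
      Ideal.span (Set.range d) ^ n ≤ N := by
  induction n with
  | zero =>
    intro N h
    have h1 := h [] rfl
    rw [List.map_nil, List.prod_nil] at h1
    rw [pow_zero, (Ideal.eq_top_iff_one N).2 h1]
    exact le_top
  | succ n ih =>
    intro N h
    rw [pow_succ', Ideal.mul_le]
    intro r hr s hs
    induction hr using Submodule.span_induction with
    | mem r hr =>
      obtain ⟨e, rfl⟩ := hr
      have h1 := ih (Submodule.comap (LinearMap.mulLeft A (d e)) N) (fun L hL => by
        rw [Submodule.mem_comap, LinearMap.mulLeft_apply]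
        have h2 := h (e :: L) (by rw [List.length_cons, hL])
        rwa [List.map_cons, List.prod_cons] at h2)
      exact h1 hs
    | zero =>
      rw [zero_mul]
      exact N.zero_mem
    | add x y _ _ hx hy =>
      rw [add_mul]
      exact N.add_mem hx hy
    | smul a x _ hx =>
      rw [smul_eq_mul, mul_assoc]
      exact N.mul_mem_left a hx

private theorem Polar_prod_mem {A V : Type*} [CommRing A] (d : V → A) (L : List V) :
    (L.map d).prod ∈ Ideal.span (Set.range d) ^ L.length := by
  induction L with
  | nil =>
    rw [List.map_nil, List.prod_nil, List.length_nil, pow_zero, Ideal.one_eq_top]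
    exact Submodule.mem_top
  | cons e L ih =>
    rw [List.map_cons, List.prod_cons, List.length_cons, pow_succ']
    exact Ideal.mul_mem_mul (Ideal.subset_span ⟨e, rfl⟩) ih

private theorem Polar_pow_sub {A : Type*} [CommRing A] {I : Ideal A} {a b : A} (ha : a ∈ I)
    (hb : b ∈ I) (h : a - b ∈ I ^ 2) (j : ℕ) : a ^ j - b ^ j ∈ I ^ (j + 1) := by
  induction j with
  | zero =>
    rw [pow_zero, pow_zero, sub_self]
    exact Submodule.zero_mem _
  | succ j ih =>
    have h1 : a ^ (j + 1) - b ^ (j + 1) = a ^ j * (a - b) + (a ^ j - b ^ j) * b := by ring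
    rw [h1]
    refine Submodule.add_mem _ ?_ ?_
    · rw [show j + 1 + 1 = j + 2 from rfl, pow_add]
      exact Ideal.mul_mem_mul (Ideal.pow_mem_pow ha j) h
    · rw [pow_succ]
      exact Ideal.mul_mem_mul ih hb

private theorem Polar_nsmul {A V : Type*} [CommRing A] [AddCommGroup V] {d : V → A}
    (hd : ∀ e f, d (e + f) = d e + d f + d e * d f) (e f : V) (m : ℕ) :
    d (e + m • f) - (d e + (m : A) * d f) ∈ Ideal.span (Set.range d) ^ 2 := by
  induction m with
  | zero =>
    rw [zero_smul, add_zero, Nat.cast_zero, zero_mul, add_zero, sub_self]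
    exact Submodule.zero_mem _
  | succ m ih =>
    have h1 : d (e + (m + 1) • f) - (d e + ((m + 1 : ℕ) : A) * d f) =
        (d (e + m • f) - (d e + (m : A) * d f)) + d (e + m • f) * d f := by
      rw [add_smul, one_smul, ← add_assoc, hd (e + m • f) f]
      push_cast
      ring
    rw [h1]
    refine Submodule.add_mem _ ih ?_
    rw [pow_two]
    exact Ideal.mul_mem_mul (Ideal.subset_span ⟨_, rfl⟩) (Ideal.subset_span ⟨_, rfl⟩)

private theorem Polar_alg {p k : ℕ} [Fact p.Prime] (hk : k < p) {A V X : Type*} [CommRing A]
    [Algebra (ZMod p) A] [AddCommGroup V] {d : V → A}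
    (hd : ∀ e f, d (e + f) = d e + d f + d e * d f) (N : Ideal A)
    (ψ : X → A →ₗ[ZMod p] ZMod p) (hN : ∀ r, r ∈ N ↔ ∀ x, ψ x r = 0)
    (h1 : ∀ L : List V, L.length = k + 1 → (L.map d).prod ∈ N) (h2 : ∀ e, d e ^ k ∈ N) (i : ℕ) :
    i ≤ k → ∀ (e : V) (L : List V), L.length = i → d e ^ (k - i) * (L.map d).prod ∈ N := by
  induction i with
  | zero =>
    intro _ e L hL
    rw [List.length_eq_zero_iff] at hL
    subst hL
    rw [List.map_nil, List.prod_nil, mul_one]
    exact h2 e
  | succ i ih =>
    intro hi e L hL
    obtain ⟨f, L, rfl⟩ := List.exists_cons_of_length_eq_add_one hL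
    rw [List.length_cons, Nat.add_right_cancel_iff] at hL
    have hle := Polar_pow_le d (k + 1) N h1
    obtain ⟨j, hj⟩ : ∃ j, k = j + 1 + i := ⟨k - i - 1, by omega⟩
    have e1 : k - i = j + 1 := by omega
    have e2 : k - (i + 1) = j := by omega
    have h3 : ∀ m : ℕ, (d e + (m : A) * d f) ^ (j + 1) * (L.map d).prod ∈ N := by
      intro m
      have h4 := ih (by omega) (e + m • f) L hL
      rw [e1] at h4
      have hae : d (e + m • f) ∈ Ideal.span (Set.range d) := Ideal.subset_span ⟨_, rfl⟩
      have hbe : d e + (m : A) * d f ∈ Ideal.span (Set.range d) :=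
        Submodule.add_mem _ (Ideal.subset_span ⟨_, rfl⟩)
          (Ideal.mul_mem_left _ _ (Ideal.subset_span ⟨_, rfl⟩))
      have h5 := Polar_pow_sub hae hbe (Polar_nsmul hd e f m) (j + 1)
      have h6 : (d (e + m • f) ^ (j + 1) - (d e + (m : A) * d f) ^ (j + 1)) * (L.map d).prod ∈
          Ideal.span (Set.range d) ^ (k + 1) := by
        have h7 : k + 1 = j + 1 + 1 + L.length := by omega
        rw [h7, pow_add]
        exact Ideal.mul_mem_mul h5 (Polar_prod_mem d L)
      have h8 := N.sub_mem h4 (hle h6)
      rw [sub_mul, sub_sub_cancel] at h8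
      exact h8
    rw [e2, hN]
    intro x
    have h9 := Polar_poly (p := p) (j := j + 1) (by omega)
      (fun t => ((j + 1).choose t : ZMod p) * ψ x (d f ^ t * d e ^ (j + 1 - t) * (L.map d).prod))
      (fun m => by
        have h10 := (hN _).1 (h3 m) x
        rw [add_comm (d e), add_pow, Finset.sum_mul, map_sum] at h10
        rw [← h10]
        refine Finset.sum_congr rfl fun t _ => ?_
        have h11 : ((m : A) * d f) ^ t * d e ^ (j + 1 - t) * ((j + 1).choose t : A) *
            (L.map d).prod = (((j + 1).choose t : ZMod p) * (m : ZMod p) ^ t) •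
              (d f ^ t * d e ^ (j + 1 - t) * (L.map d).prod) := by
          rw [Algebra.smul_def, map_mul, map_pow, map_natCast, map_natCast]
          ring
        rw [h11, map_smul, smul_eq_mul]
        ring) 1 (by omega)
    simp only [Nat.choose_one_right, pow_one, Nat.add_sub_cancel] at h9
    have h12 : ((j + 1 : ℕ) : ZMod p) ≠ 0 := by
      rw [Ne, ZMod.natCast_eq_zero_iff]
      intro h13
      have h14 := Nat.le_of_dvd (Nat.succ_pos j) h13
      omega
    have h15 := (mul_eq_zero.1 h9).resolve_left h12
    rw [List.map_cons, List.prod_cons, ← mul_assoc, mul_comm (d e ^ j)]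
    exact h15

/-- the shift operators -/
private def Polar_shift (p : ℕ) (V : Type*) [AddCommGroup V] :
    Multiplicative V →* Module.End (ZMod p) (V → ZMod p) where
  toFun v :=
    { toFun := fun g x => g (x + v.toAdd)
      map_add' := fun _ _ => rfl
      map_smul' := fun _ _ => rfl }
  map_one' := by
    ext g x
    change g (x + 0) = g x
    rw [add_zero]
  map_mul' a b := by
    refine LinearMap.ext fun g => funext fun x => ?_
    change g (x + (a.toAdd + b.toAdd)) = g (x + a.toAdd + b.toAdd)
    rw [add_assoc]

private noncomputable def Polar_hom (p : ℕ) (V : Type*) [AddCommGroup V] :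
    AddMonoidAlgebra (ZMod p) V →ₐ[ZMod p] Module.End (ZMod p) (V → ZMod p) :=
  AddMonoidAlgebra.lift (ZMod p) (Module.End (ZMod p) (V → ZMod p)) V (Polar_shift p V)

private noncomputable def Polar_d (p : ℕ) (V : Type*) [AddCommGroup V] (e : V) :
    AddMonoidAlgebra (ZMod p) V := AddMonoidAlgebra.single e 1 - 1

private theorem Polar_hom_d {p : ℕ} {V : Type*} [AddCommGroup V] (e : V) (g : V → ZMod p) (x : V) :
    Polar_hom p V (Polar_d p V e) g x = g (x + e) - g x := by
  rw [Polar_d, map_sub, map_one, Polar_hom, AddMonoidAlgebra.lift_single, one_smul]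
  rfl

private theorem Polar_diffs {p : ℕ} {V : Type*} [AddCommGroup V] (g : V → ZMod p) (L : List V) :
    diffs L g = Polar_hom p V ((L.map (Polar_d p V)).prod) g := by
  induction L with
  | nil =>
    rw [List.map_nil, List.prod_nil, map_one]
    rfl
  | cons e L ih =>
    rw [List.map_cons, List.prod_cons, map_mul, Module.End.mul_apply, ← ih]
    funext x
    rw [Polar_hom_d]
    rfl

private theorem Polar_d_add {p : ℕ} {V : Type*} [AddCommGroup V] (e f : V) :
    Polar_d p V (e + f) = Polar_d p V e + Polar_d p V f + Polar_d p V e * Polar_d p V f := by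
  have h1 : (AddMonoidAlgebra.single (e + f) 1 : AddMonoidAlgebra (ZMod p) V) =
      AddMonoidAlgebra.single e 1 * AddMonoidAlgebra.single f 1 := by
    rw [AddMonoidAlgebra.single_mul_single, one_mul]
  rw [Polar_d, Polar_d, Polar_d, h1]
  ring

theorem polar {p k : ℕ} [Fact p.Prime] (hk : k < p) {V : Type*} [AddCommGroup V] (g : V → ZMod p)
    (h1 : ∀ L : List V, L.length = k + 1 → ∀ x, diffs L g x = 0)
    (h2 : ∀ e x, diffs (List.replicate k e) g x = 0) (L : List V) (hL : L.length = k) (x : V) :
    diffs L g x = 0 := by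
  classical
  let N : Ideal (AddMonoidAlgebra (ZMod p) V) :=
    { carrier := {r | Polar_hom p V r g = 0}
      zero_mem' := by
        change Polar_hom p V 0 g = 0
        rw [map_zero]
        rfl
      add_mem' := by
        intro a b ha hb
        change Polar_hom p V (a + b) g = 0
        rw [map_add, LinearMap.add_apply, show Polar_hom p V a g = 0 from ha,
          show Polar_hom p V b g = 0 from hb, add_zero]
      smul_mem' := by
        intro c r hr
        change Polar_hom p V (c * r) g = 0
        rw [map_mul, Module.End.mul_apply, show Polar_hom p V r g = 0 from hr, map_zero] }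
  have hmem : ∀ r, r ∈ N ↔ Polar_hom p V r g = 0 := fun r => Iff.rfl
  let ψ : V → AddMonoidAlgebra (ZMod p) V →ₗ[ZMod p] ZMod p := fun x =>
    (LinearMap.proj x).comp ((LinearMap.applyₗ g).comp (Polar_hom p V).toLinearMap)
  have hψ : ∀ x r, ψ x r = Polar_hom p V r g x := fun x r => rfl
  have h3 := Polar_alg hk (d := Polar_d p V) Polar_d_add N ψ
    (fun r => by
      rw [hmem, funext_iff]
      exact Iff.rfl)
    (fun L hL => by
      rw [hmem, ← Polar_diffs]
      exact funext fun x => h1 L hL x)
    (fun e => by
      have h4 : Polar_d p V e ^ k = ((List.replicate k e).map (Polar_d p V)).prod := by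
        rw [List.map_replicate, List.prod_replicate]
      rw [hmem, h4, ← Polar_diffs]
      exact funext fun x => h2 e x)
    k le_rfl 0 L hL
  rw [Nat.sub_self, pow_zero, one_mul, hmem, ← Polar_diffs] at h3
  exact congrFun h3 x

end Pool.Agent.H16.RB
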