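import Pool.Agent.H16.RB.Const
import Pool.Agent.H16.RB.Deg

/-!
# RB module Push: images of small families in `(ZMod p) ^ s`

Sketch.  `g z = (S.filter fun x => ∀ i, τ i (y x) = z i).card`.  For affine functionals `l` on
`Fin s → ZMod p`: `∑ z, g z * ∏ (l z - c) = ∑ x ∈ S, ∏ (l (τ (y x)) - c) = 0` for less than
`n = s * (p - 1) - s + 1` factors.  `deg_of_kills` with `b = s - 1`, then `const_of_small` (`∑ g = S.card
≤ p ^ s`): `g` is constant modulo `p`; if the constant is not `0`, all `g z ≥ 1`, so all are `1`.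
-/

set_option autoImplicit false

namespace Pool.Agent.H16.RB

open Finset

private lemma push_filter_eq {p s : ℕ} {X G : Type*} [AddCommGroup G] (y : X → G) (S : Finset X)
    (τ : Fin s → (G →+ ZMod p)) (z : Fin s → ZMod p) :
    (S.filter fun x => ∀ i, τ i (y x) = z i) = S.filter fun x => (fun i => τ i (y x)) = z := by
  apply Finset.filter_congr
  intro x _
  exact funext_iff.symm

private lemma push_sum_eq {p s : ℕ} [NeZero p] {X G : Type*} [AddCommGroup G] (y : X → G)
    (S : Finset X) (τ : Fin s → (G →+ ZMod p)) (φ : (Fin s → ZMod p) → ZMod p) :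
    ∑ z, (((S.filter fun x => ∀ i, τ i (y x) = z i).card : ℕ) : ZMod p) * φ z =
      ∑ x ∈ S, φ (fun i => τ i (y x)) := by
  rw [← Finset.sum_fiberwise S (fun x => (fun i => τ i (y x))) (fun x => φ (fun i => τ i (y x)))]
  refine Finset.sum_congr rfl fun z _ => ?_
  rw [push_filter_eq y S τ z]
  have h : ∑ x ∈ S.filter (fun x => (fun i => τ i (y x)) = z), φ (fun i => τ i (y x)) =
      ∑ _x ∈ S.filter (fun x => (fun i => τ i (y x)) = z), φ z := by
    refine Finset.sum_congr rfl fun x hx => ?_
    rw [(Finset.mem_filter.mp hx).2]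
  rw [h, Finset.sum_const, nsmul_eq_mul]

private lemma push_card_eq {p s : ℕ} [NeZero p] {X G : Type*} [AddCommGroup G] (y : X → G)
    (S : Finset X) (τ : Fin s → (G →+ ZMod p)) :
    ∑ z : Fin s → ZMod p, (S.filter fun x => ∀ i, τ i (y x) = z i).card = S.card := by
  have h := Finset.card_eq_sum_card_fiberwise (s := S) (t := (Finset.univ : Finset (Fin s → ZMod p)))
    (f := fun x => (fun i => τ i (y x))) (fun x _ => Finset.mem_coe.mpr (Finset.mem_univ _))
  rw [h]
  refine Finset.sum_congr rfl fun z _ => ?_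
  rw [push_filter_eq y S τ z]

theorem push_const {p s : ℕ} [Fact p.Prime] (hs : 1 ≤ s) (h3 : 3 * (s - 1) < p) {X G : Type*}
    [AddCommGroup G] (y : X → G) (S : Finset X) (hK : Kills p y S (s * (p - 1) - s + 1))
    (hS : S.card ≤ p ^ s) (τ : Fin s → (G →+ ZMod p)) :
    (∀ z : Fin s → ZMod p, p ∣ (S.filter fun x => ∀ i, τ i (y x) = z i).card) ∨
      (S.card = p ^ s ∧ ∀ z : Fin s → ZMod p, (S.filter fun x => ∀ i, τ i (y x) = z i).card = 1) := by
  have hp : p.Prime := Fact.out
  have hp2 : 2 ≤ p := hp.two_le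
  have hcardV : Fintype.card (Fin s → ZMod p) = p ^ s := by
    rw [Fintype.card_fun, ZMod.card, Fintype.card_fin]
  have hsp : s ≤ s * (p - 1) := Nat.le_mul_of_pos_right s (by omega)
  have hn : (s * (p - 1) - s + 1) + (s - 1) = s * (p - 1) := by omega
  -- the counting function kills products of few affine functionals
  have hkill : ∀ L : List (((Fin s → ZMod p) →+ ZMod p) × ZMod p),
      L.length < s * (p - 1) - s + 1 →
      ∑ z, (((S.filter fun x => ∀ i, τ i (y x) = z i).card : ℕ) : ZMod p) *
        (L.map fun l => l.1 z - l.2).prod = 0 := by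
    intro L hL
    rw [push_sum_eq y S τ (fun z => (L.map fun l => l.1 z - l.2).prod)]
    have h := hK (L.map fun l => (l.1.comp (AddMonoidHom.mk' (fun v : G => (fun i => τ i v))
      (fun a b => by funext i; simp)), l.2)) (by rw [List.length_map]; exact hL)
    rw [← h]
    refine Finset.sum_congr rfl fun x _ => ?_
    rw [List.map_map]
    rfl
  have hdiff : ∀ L : List (Fin s → ZMod p), L.length = (s - 1) + 1 → ∀ x,
      diffs L (fun z => (((S.filter fun x => ∀ i, τ i (y x) = z i).card : ℕ) : ZMod p)) x = 0 := by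
    intro L hL x
    exact deg_of_kills hn _ hkill L hL x
  have hsum : ∑ z : Fin s → ZMod p, (S.filter fun x => ∀ i, τ i (y x) = z i).card = S.card :=
    push_card_eq y S τ
  have hconst : ∀ z w : Fin s → ZMod p,
      (((S.filter fun x => ∀ i, τ i (y x) = z i).card : ℕ) : ZMod p) =
        (((S.filter fun x => ∀ i, τ i (y x) = w i).card : ℕ) : ZMod p) := by
    intro z w
    refine const_of_small (b := s - 1) h3 (V := Fin s → ZMod p) ?_
      (fun z => (S.filter fun x => ∀ i, τ i (y x) = z i).card) hdiff ?_ z w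
    · intro v
      funext i
      simp
    · rw [hsum, hcardV]
      exact hS
  by_cases h0 : (((S.filter fun x => ∀ i, τ i (y x) = (0 : Fin s → ZMod p) i).card : ℕ) : ZMod p) = 0
  · left
    intro z
    have h := hconst z 0
    rw [h0] at h
    exact (ZMod.natCast_eq_zero_iff _ _).mp h
  · right
    have hpos : ∀ z : Fin s → ZMod p, 1 ≤ (S.filter fun x => ∀ i, τ i (y x) = z i).card := by
      intro z
      rcases Nat.eq_zero_or_pos (S.filter fun x => ∀ i, τ i (y x) = z i).card with h | h
      · exfalso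
        apply h0
        rw [← hconst z 0, h, Nat.cast_zero]
      · exact h
    have hle : p ^ s ≤ S.card := by
      rw [← hsum, ← hcardV]
      calc Fintype.card (Fin s → ZMod p) = ∑ _z : Fin s → ZMod p, 1 := by simp
        _ ≤ _ := Finset.sum_le_sum fun z _ => hpos z
    have heq : S.card = p ^ s := le_antisymm hS hle
    refine ⟨heq, fun z => ?_⟩
    have h1 : ∑ _z : Fin s → ZMod p, 1 =
        ∑ z : Fin s → ZMod p, (S.filter fun x => ∀ i, τ i (y x) = z i).card := by
      rw [hsum, heq, ← hcardV]; simp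
    exact ((Finset.sum_eq_sum_iff_of_le fun z _ => hpos z).mp h1 z (Finset.mem_univ z)).symm

end Pool.Agent.H16.RB
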