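import Pool.Agent.H16.RB.Defs

/-!
# RB module RM: minimum weight of families killing products of few functionals

Sketch (Reed-Muller).  First remove from `S` all `x` with `p ∣ (cls p y S (y x)).card`: the sum of a
function constant on classes over the removed part is `0`, so the rest still has the property
`Kills`, and its classes are the old ones.  So assume that all classes of `S` have size prime to `p`
and `S` is nonempty, and prove `(j + 1) * p ^ a ≤ S.card` by strong induction on `n` (for all `a`, `j`
with `n = a * (p - 1) + j`, `j ≤ p - 1`).  If `n = 0` then `a = j = 0`.  If `n ≥ 1`, `S` is not a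
single class (take the empty list), so some `l : G →+ ZMod p` takes exactly `u ≥ 2` values `c` on `S`;
for each of these values the section `S_c = {x ∈ S | l (y x) = c}` has the property `Kills` with
`n - (u - 1)` (multiply by the `u - 1` factors `l - t`, `t ≠ c` the other values), and its classes are
classes of `S`.  If `u - 1 ≤ j`: `S.card ≥ u * (j - u + 2) * p ^ a ≥ (j + 1) * p ^ a`.  If `u - 1 > j`
and `a = 0`: `S.card ≥ u`.  If `u - 1 > j`, `a ≥ 1`: `n - (u - 1) = (a - 1) (p - 1) + (p + j - u)`,
`S.card ≥ u * (p + j - u + 1) * p ^ (a - 1) ≥ (j + 1) * p ^ a` as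
`u (p + j + 1 - u) - (j + 1) p = (u - (j + 1)) (p - u) ≥ 0`.

The proof below works with the image of `S` in the functions on `G →+ ZMod p`, weighted by the class
sizes modulo `p`.
-/

set_option autoImplicit false

namespace Pool.Agent.H16.RB

open Finset

namespace RM

open scoped Classical in
/-- the weighted version, on a set of points of `Λ → ZMod p` -/
theorem core {p : ℕ} [Fact p.Prime] {Λ : Type*} (n : ℕ) : ∀ a j : ℕ, n = a * (p - 1) + j →
    j ≤ p - 1 → ∀ (T : Finset (Λ → ZMod p)) (w : (Λ → ZMod p) → ZMod p), T.Nonempty →
    (∀ v ∈ T, w v ≠ 0) →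
    (∀ L : List (Λ × ZMod p), L.length < n →
      ∑ v ∈ T, w v * (L.map fun l => v l.1 - l.2).prod = 0) →
    (j + 1) * p ^ a ≤ T.card := by
  induction n using Nat.strong_induction_on with
  | _ n ih =>
    intro a j hn hj T w hT hw hK
    have hp : p.Prime := Fact.out
    have hp2 : 2 ≤ p := hp.two_le
    rcases Nat.eq_zero_or_pos n with h0 | hpos
    · have ha : a = 0 := by
        by_contra h
        have h1 : 1 ≤ a * (p - 1) := Nat.mul_pos (Nat.pos_of_ne_zero h) (by omega)
        omega
      subst ha
      have hj0 : j = 0 := by omega
      subst hj0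
      have := hT.card_pos
      simp only [pow_zero, Nat.zero_add, Nat.one_mul]
      omega
    · -- `T` has at least two points
      have h2 : 1 < T.card := by
        by_contra h
        have h1 : T.card = 1 := by
          have := hT.card_pos
          omega
        obtain ⟨v, hv⟩ := Finset.card_eq_one.mp h1
        have h3 := hK [] (by simpa using hpos)
        rw [hv] at h3
        simp only [Finset.sum_singleton, List.map_nil, List.prod_nil, mul_one] at h3
        exact hw v (by rw [hv]; exact Finset.mem_singleton_self v) h3
      obtain ⟨v1, hv1, v2, hv2, hne⟩ := Finset.one_lt_card.mp h2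
      obtain ⟨l, hl⟩ := Function.ne_iff.mp hne
      set C : Finset (ZMod p) := T.image fun v => v l with hC
      have hu2 : 2 ≤ C.card := by
        have : 1 < C.card := Finset.one_lt_card.mpr
          ⟨v1 l, Finset.mem_image_of_mem _ hv1, v2 l, Finset.mem_image_of_mem _ hv2, hl⟩
        omega
      have hup : C.card ≤ p := by
        have := Finset.card_le_univ C
        rwa [ZMod.card] at this
      have hsum : T.card = ∑ c ∈ C, (T.filter fun v => v l = c).card :=
        Finset.card_eq_sum_card_image _ _
      -- the sections
      have hsec : ∀ c ∈ C, ∀ L : List (Λ × ZMod p), L.length < n - (C.card - 1) →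
          ∑ v ∈ T.filter (fun v => v l = c), w v * (L.map fun l => v l.1 - l.2).prod = 0 := by
        intro c hc L hL
        have hlen : ((C.erase c).toList.map fun t => (l, t)).length = C.card - 1 := by
          rw [List.length_map, Finset.length_toList, Finset.card_erase_of_mem hc]
        have h3 := hK (L ++ (C.erase c).toList.map fun t => (l, t)) (by
          rw [List.length_append, hlen]; omega)
        have hprod : ∀ v : Λ → ZMod p,
            (((C.erase c).toList.map fun t => (l, t)).map fun m => v m.1 - m.2).prod
              = ∏ t ∈ C.erase c, (v l - t) := by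
          intro v
          rw [List.map_map, ← Finset.prod_map_toList (C.erase c) (fun t => v l - t)]
          rfl
        have h4 : ∑ v ∈ T, w v *
            ((L ++ (C.erase c).toList.map fun t => (l, t)).map fun m => v m.1 - m.2).prod
            = (∏ t ∈ C.erase c, (c - t)) *
              ∑ v ∈ T.filter (fun v => v l = c), w v * (L.map fun l => v l.1 - l.2).prod := by
          rw [Finset.mul_sum, Finset.sum_filter]
          refine Finset.sum_congr rfl fun v hv => ?_
          rw [List.map_append, List.prod_append, hprod v]
          by_cases hvc : v l = c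
          · rw [if_pos hvc, hvc]
            ring
          · rw [if_neg hvc]
            have : ∏ t ∈ C.erase c, (v l - t) = 0 :=
              Finset.prod_eq_zero (Finset.mem_erase.mpr ⟨hvc, Finset.mem_image_of_mem _ hv⟩)
                (sub_self _)
            rw [this]
            ring
        rw [h4] at h3
        have h5 : ∏ t ∈ C.erase c, (c - t) ≠ 0 := by
          refine Finset.prod_ne_zero_iff.mpr fun t ht => ?_
          exact sub_ne_zero.mpr (Ne.symm (Finset.ne_of_mem_erase ht))
        exact (mul_eq_zero.mp h3).resolve_left h5
      have hsne : ∀ c ∈ C, (T.filter fun v => v l = c).Nonempty := by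
        intro c hc
        obtain ⟨v, hv, hvc⟩ := Finset.mem_image.mp hc
        exact ⟨v, Finset.mem_filter.mpr ⟨hv, hvc⟩⟩
      have hsw : ∀ c, ∀ v ∈ T.filter (fun v => v l = c), w v ≠ 0 := fun c v hv =>
        hw v (Finset.mem_of_mem_filter v hv)
      -- lower bound from a uniform bound for the sections
      have hlow : ∀ b : ℕ, (∀ c ∈ C, b ≤ (T.filter fun v => v l = c).card) →
          C.card * b ≤ T.card := by
        intro b hb
        rw [hsum, ← smul_eq_mul]
        exact Finset.card_nsmul_le_sum _ _ _ hb
      obtain ⟨u, hu⟩ : ∃ u, C.card = u + 2 := ⟨C.card - 2, by omega⟩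
      rw [hu] at hup hlow hsec
      rcases Nat.lt_or_ge j (u + 1) with hju | hju
      · rcases Nat.eq_zero_or_pos a with ha | ha
        · subst ha
          have := hlow 1 fun c hc => (hsne c hc).card_pos
          simp only [pow_zero, Nat.mul_one]
          omega
        · obtain ⟨b, rfl⟩ : ∃ b, a = b + 1 := ⟨a - 1, by omega⟩
          obtain ⟨q, rfl⟩ : ∃ q, p = q + u + 2 := ⟨p - (u + 2), by omega⟩
          have hle : (u + 2) * ((q + j + 1) * (q + u + 2) ^ b) ≤ T.card := by
            refine hlow _ fun c hc => ?_
            have hn' : n - (u + 2 - 1) = b * (q + u + 2 - 1) + (q + j) := by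
              rw [hn]
              have : (b + 1) * (q + u + 2 - 1) = b * (q + u + 2 - 1) + (q + u + 2 - 1) := by ring
              rw [this]
              omega
            exact ih (n - (u + 2 - 1)) (by omega) b (q + j) hn' (by omega) _ w (hsne c hc) (hsw c)
              (hsec c hc)
          refine le_trans ?_ hle
          rw [pow_succ]
          have h6 : (j + 1) * (q + u + 2) ≤ (u + 2) * (q + j + 1) := by
            obtain ⟨d, rfl⟩ : ∃ d, u = j + d := ⟨u - j, by omega⟩
            nlinarith [Nat.zero_le (d * q), Nat.zero_le q]
          calc (j + 1) * ((q + u + 2) ^ b * (q + u + 2))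
              = (j + 1) * (q + u + 2) * (q + u + 2) ^ b := by ring
            _ ≤ (u + 2) * (q + j + 1) * (q + u + 2) ^ b := Nat.mul_le_mul_right _ h6
            _ = _ := by ring
      · obtain ⟨d, rfl⟩ : ∃ d, j = u + 1 + d := ⟨j - (u + 1), by omega⟩
        have hle : (u + 2) * ((d + 1) * p ^ a) ≤ T.card := by
          refine hlow _ fun c hc => ?_
          exact ih (n - (u + 2 - 1)) (by omega) a d (by omega) (by omega) _ w (hsne c hc) (hsw c)
            (hsec c hc)
        refine le_trans ?_ hle
        have h6 : u + 1 + d + 1 ≤ (u + 2) * (d + 1) := by nlinarith [Nat.zero_le (u * d)]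
        calc (u + 1 + d + 1) * p ^ a ≤ (u + 2) * (d + 1) * p ^ a := Nat.mul_le_mul_right _ h6
          _ = _ := by ring

end RM

theorem rm {p n a j : ℕ} [Fact p.Prime] (hn : n = a * (p - 1) + j) (hj : j ≤ p - 1)
    {X G : Type*} [AddCommGroup G] (y : X → G) (S : Finset X) (hK : Kills p y S n) (x : X)
    (hx : x ∈ S) (h0 : ¬ p ∣ (cls p y S (y x)).card) : (j + 1) * p ^ a ≤ S.card := by
  classical
  set φ : X → ((G →+ ZMod p) → ZMod p) := fun x l => l (y x) with hφ
  set w : ((G →+ ZMod p) → ZMod p) → ZMod p :=
    fun v => ((S.filter fun x => φ x = v).card : ZMod p) with hw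
  have hcls : ∀ z : X, (cls p y S (y z)).card = (S.filter fun x => φ x = φ z).card := by
    intro z
    unfold cls
    congr 1
    ext x
    simp only [Finset.mem_filter, hφ, funext_iff]
  set T : Finset ((G →+ ZMod p) → ZMod p) := (S.image φ).filter fun v => w v ≠ 0 with hT
  have h1 : (j + 1) * p ^ a ≤ T.card := by
    refine RM.core n a j hn hj T w ⟨φ x, ?_⟩ (fun v hv => (Finset.mem_filter.mp hv).2) ?_
    · refine Finset.mem_filter.mpr ⟨Finset.mem_image_of_mem _ hx, ?_⟩
      rw [hcls x] at h0
      intro h
      exact h0 ((ZMod.natCast_eq_zero_iff _ _).mp h)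
    · intro L hL
      have h3 := hK L hL
      have h4 : ∑ x ∈ S, (L.map fun l => l.1 (y x) - l.2).prod
          = ∑ v ∈ S.image φ, w v * (L.map fun l => v l.1 - l.2).prod := by
        have := Finset.sum_comp (s := S) (fun v : (G →+ ZMod p) → ZMod p =>
          (L.map fun l => v l.1 - l.2).prod) φ
        rw [show ∑ x ∈ S, (L.map fun l => l.1 (y x) - l.2).prod
          = ∑ x ∈ S, (L.map fun l => φ x l.1 - l.2).prod from rfl, this]
        refine Finset.sum_congr rfl fun v _ => ?_
        rw [nsmul_eq_mul]
      rw [hT, Finset.sum_filter]
      refine Eq.trans ?_ (h4.symm.trans h3)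
      refine Finset.sum_congr rfl fun v _ => ?_
      by_cases h : w v = 0
      · rw [if_neg (not_not.mpr h), h, zero_mul]
      · rw [if_pos h]
  exact h1.trans ((Finset.card_filter_le _ _).trans Finset.card_image_le)

end Pool.Agent.H16.RB
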