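import Pool.Agent.H16.RB.Key
import Pool.Agent.H16.RB.Dig
import Pool.Agent.H16.RB.RM
import Pool.Agent.H16.RB.Pair

/-!
# RB module Rank: the rank bound

Sketch.  `sl_kills`: `exists_digits` (with `Nat.card (H × K) = p ^ (2 r)`) and `key`.
`bjs`: suppose `κ ≥ r`; `2 * (κ + 1) ≤ r * (p - 1) + 2` since `κ ≤ 2 r` and `p ≥ 5`, so every `sl`
containing a point has size divisible by `p`, hence at least `p`; summing over `x` the number of pairs
`(x, x')` with `p • gr f x = p • gr f x'` is at least `p ^ (r + 1)`; by `pair_count` it is at most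
`p ^ r + (number of g with p • g = 0) = p ^ r + p ^ (2 r - κ)`.
`rank_bound`: suppose not; `κ < r`; with `a = r - κ ≥ 1`, `sl_kills` holds for `n = a (p - 1) + 1`.  Let
`x` be of type A if `p ∣ (cls … (gr f x)).card` in its slice; the others have slices with
at least `2 * p ^ a` points by `rm` (`j = 1`).  Type A: at least `p - 1` other points in the class; so
`(p - 1) n_A ≤ number of pairs x ≠ x' with gr f x - gr f x' ∈ p G < p ^ κ ≤ p ^ (r - 1)` (`sep`,
`pair_count`).  And `2 p ^ a (p ^ r - n_A) ≤ number of pairs with p • gr f x = p • gr f x' ≤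
p ^ r + p ^ (r + a)`: contradiction.
-/

set_option autoImplicit false

namespace Pool.Agent.H16.RB

open Finset Pool.Agent.H88.Pl
open scoped Classical

theorem sl_kills {p r κ n : ℕ} [Fact p.Prime] (hp : p ≠ 2) {H K : Type*} [AddCommGroup H]
    [AddCommGroup K] [Fintype H] [Fintype K] (hH : Fintype.card H = p ^ r)
    (hK : Fintype.card K = p ^ r) (f : H → K) (hf : IsPlanar f) (h1 : 1 ≤ κ)
    (hκ : Nat.card (Set.range fun g : H × K => p • g) = p ^ κ)
    (hn : 2 * (κ + n) ≤ r * (p - 1) + 2) (v : H × K) : Kills p (gr f) (sl p f (p • v)) n := by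
  have hG : Nat.card (H × K) = p ^ (2 * r) := by
    rw [Nat.card_prod, Nat.card_eq_fintype_card, Nat.card_eq_fintype_card, hH, hK, ← pow_add]
    congr 1
    ring
  obtain ⟨m, d, a, hd, ha⟩ := exists_digits hG hκ
  have h2 := key hp hH f hf d a v n (by rw [hd]; exact h1) (by rw [hd]; exact hn)
  refine cast ?_ h2
  congr 1
  ext x
  simp only [mem_filter, mem_univ, true_and, sl]
  rw [ha, smul_sub, sub_eq_zero]

namespace Rank

lemma card_ker {p r κ : ℕ} [Fact p.Prime] {H K : Type*} [AddCommGroup H]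
    [AddCommGroup K] [Fintype H] [Fintype K] (hH : Fintype.card H = p ^ r)
    (hK : Fintype.card K = p ^ r)
    (hκ : Nat.card (Set.range fun g : H × K => p • g) = p ^ κ) :
    (univ.filter fun g : H × K => p • g = 0).card * p ^ κ = p ^ (2 * r) := by
  have hG : Nat.card (H × K) = p ^ (2 * r) := by
    rw [Nat.card_prod, Nat.card_eq_fintype_card, Nat.card_eq_fintype_card, hH, hK, ← pow_add]
    congr 1
    ring
  set φ : H × K →+ H × K := nsmulAddMonoidHom p with hφ
  have h1 : Nat.card φ.ker * φ.ker.index = Nat.card (H × K) := AddSubgroup.card_mul_index _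
  have h2 : φ.ker.index = p ^ κ := by
    rw [AddSubgroup.index_ker, ← hκ]
    congr 1
  have h3 : Nat.card φ.ker = (univ.filter fun g : H × K => p • g = 0).card := by
    rw [Nat.card_eq_fintype_card, Fintype.card_subtype]
    congr 1
    ext g
    simp [hφ, AddMonoidHom.mem_ker, nsmulAddMonoidHom]
  rw [h2, h3, hG] at h1
  exact h1

lemma kappa_le {p r κ : ℕ} [Fact p.Prime] {H K : Type*} [AddCommGroup H]
    [AddCommGroup K] [Fintype H] [Fintype K] (hH : Fintype.card H = p ^ r)
    (hK : Fintype.card K = p ^ r)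
    (hκ : Nat.card (Set.range fun g : H × K => p • g) = p ^ κ) : κ ≤ 2 * r := by
  have hpp : p.Prime := Fact.out
  have h1 := card_ker hH hK hκ
  have h2 : p ^ κ ∣ p ^ (2 * r) := Dvd.intro_left _ h1
  exact (Nat.pow_dvd_pow_iff_le_right hpp.one_lt).1 h2

/-- pairs with the same `p`-multiple -/
lemma pairs_le {p : ℕ} {H K : Type*} [AddCommGroup H]
    [AddCommGroup K] [Fintype H] [Fintype K] (f : H → K) (hf : IsPlanar f) :
    ∑ x, (sl p f (p • gr f x)).card ≤
      Fintype.card H + (univ.filter fun g : H × K => p • g = 0).card := by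
  have h1 : ∑ x, (sl p f (p • gr f x)).card =
      (univ.filter fun z : H × H => p • gr f z.1 = p • gr f z.2).card := by
    rw [card_filter, Fintype.sum_prod_type, sum_comm]
    refine sum_congr rfl fun x _ => ?_
    rw [sl, card_filter]
  have h2 : (univ.filter fun z : H × H => p • gr f z.1 = p • gr f z.2) ⊆
      (univ.image fun x : H => (x, x)) ∪
      (univ.filter fun z : H × H => z.1 ≠ z.2 ∧ p • (gr f z.1 - gr f z.2) = 0) := by
    intro z hz
    rw [mem_filter] at hz
    rw [mem_union, mem_image, mem_filter]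
    by_cases h : z.1 = z.2
    · left
      exact ⟨z.1, mem_univ _, Prod.ext rfl h⟩
    · right
      exact ⟨mem_univ _, h, by rw [smul_sub, hz.2, sub_self]⟩
  rw [h1]
  refine (card_le_card h2).trans ((card_union_le _ _).trans ?_)
  refine Nat.add_le_add (card_image_le.trans (le_of_eq card_univ)) ?_
  have h3 := pair_count f hf fun g => p • g = 0
  calc (univ.filter fun z : H × H => z.1 ≠ z.2 ∧ p • (gr f z.1 - gr f z.2) = 0).card
      = (univ.filter fun g : H × K => g.1 ≠ 0 ∧ p • g = 0).card := by convert h3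
    _ ≤ _ := card_le_card fun g hg => by
      rw [mem_filter] at hg ⊢
      exact ⟨hg.1, hg.2.2⟩

end Rank

/-- Blokhuis–Jungnickel–Schmidt, for `p ≥ 5` -/
theorem bjs {p r κ : ℕ} [Fact p.Prime] (hp : 5 ≤ p) {H K : Type*} [AddCommGroup H]
    [AddCommGroup K] [Fintype H] [Fintype K] (hH : Fintype.card H = p ^ r)
    (hK : Fintype.card K = p ^ r) (f : H → K) (hf : IsPlanar f) (hr : 1 ≤ r)
    (hκ : Nat.card (Set.range fun g : H × K => p • g) = p ^ κ) : κ < r := by
  have hpp : p.Prime := Fact.out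
  by_contra hcon
  push Not at hcon
  have hk2 := Rank.kappa_le hH hK hκ
  have h1 : ∀ x, p ≤ (sl p f (p • gr f x)).card := by
    intro x
    have h2 := sl_kills (n := 1) (by omega) hH hK f hf (hr.trans hcon) hκ
      (by
        have h3 : r * 4 ≤ r * (p - 1) := Nat.mul_le_mul_left _ (by omega)
        omega) (gr f x) [] (by simp)
    simp only [List.map_nil, List.prod_nil, sum_const, nsmul_eq_mul, mul_one] at h2
    have h3 : p ∣ (sl p f (p • gr f x)).card := (ZMod.natCast_eq_zero_iff _ _).1 h2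
    refine Nat.le_of_dvd (card_pos.2 ⟨x, ?_⟩) h3
    rw [sl, mem_filter]
    exact ⟨mem_univ _, rfl⟩
  have h2 : p ^ r * p ≤ ∑ x, (sl p f (p • gr f x)).card := by
    rw [← hH, ← smul_eq_mul, ← card_univ]
    exact card_nsmul_le_sum _ _ _ fun x _ => h1 x
  have h3 := Rank.pairs_le (p := p) f hf
  have h4 := Rank.card_ker hH hK hκ
  have hpr : 0 < p ^ r := pow_pos hpp.pos _
  have h5 : (univ.filter fun g : H × K => p • g = 0).card ≤ p ^ r := by
    have h6 : (univ.filter fun g : H × K => p • g = 0).card * p ^ r ≤ p ^ r * p ^ r := by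
      calc _ ≤ (univ.filter fun g : H × K => p • g = 0).card * p ^ κ :=
            Nat.mul_le_mul_left _ (Nat.pow_le_pow_right hpp.pos hcon)
        _ = p ^ (2 * r) := h4
        _ = p ^ r * p ^ r := by rw [two_mul, pow_add]
    exact Nat.le_of_mul_le_mul_right h6 hpr
  rw [hH] at h3
  have h6 : p ^ r * 5 ≤ p ^ r * p := Nat.mul_le_mul_left _ hp
  omega

theorem rank_bound {p r κ : ℕ} [Fact p.Prime] (hp : 5 ≤ p) {H K : Type*} [AddCommGroup H]
    [AddCommGroup K] [Fintype H] [Fintype K] (hH : Fintype.card H = p ^ r)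
    (hK : Fintype.card K = p ^ r) (f : H → K) (hf : IsPlanar f) (hr : 1 ≤ r)
    (hκ : Nat.card (Set.range fun g : H × K => p • g) = p ^ κ) :
    2 * (p - 2) * κ < (p - 1) * r := by
  have hpp : p.Prime := Fact.out
  by_contra hcon
  push Not at hcon
  have hkr := bjs hp hH hK f hf hr hκ
  have hk1 : 1 ≤ κ := by
    rcases Nat.eq_zero_or_pos κ with h | h
    · rw [h, mul_zero] at hcon
      have : 0 < (p - 1) * r := Nat.mul_pos (by omega) hr
      omega
    · exact h
  obtain ⟨a, rfl⟩ : ∃ a, r = κ + a := ⟨r - κ, by omega⟩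
  have ha : 1 ≤ a := by omega
  obtain ⟨q, rfl⟩ : ∃ q, p = q + 3 := ⟨p - 3, by omega⟩
  have hq : 2 ≤ q := by omega
  rw [show q + 3 - 2 = q + 1 from rfl, show q + 3 - 1 = q + 2 from rfl] at hcon
  have hc2 : a * (q + 2) ≤ κ * q := by nlinarith
  have hkill : ∀ v, Kills (q + 3) (gr f) (sl (q + 3) f ((q + 3) • v)) (a * (q + 3 - 1) + 1) := by
    intro v
    refine sl_kills (by omega) hH hK f hf hk1 hκ ?_ v
    rw [show q + 3 - 1 = q + 2 from rfl]
    nlinarith
  obtain ⟨p, hpq⟩ : ∃ p, p = q + 3 := ⟨_, rfl⟩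
  rw [← hpq] at hkill hp hH hK hκ hpp
  have hfp : Fact p.Prime := ⟨hpp⟩
  set A : Finset H := univ.filter fun x =>
    p ∣ (cls p (gr f) (sl p f (p • gr f x)) (gr f x)).card with hA
  have hmem : ∀ x, x ∈ sl p f (p • gr f x) := fun x => by
    rw [sl, mem_filter]; exact ⟨mem_univ _, rfl⟩
  -- points not in `A`
  have hB : ∀ x, x ∉ A → 2 * p ^ a ≤ (sl p f (p • gr f x)).card := by
    intro x hx
    have h1 : ¬ p ∣ (cls p (gr f) (sl p f (p • gr f x)) (gr f x)).card := fun h =>
      hx (by rw [hA, mem_filter]; exact ⟨mem_univ _, h⟩)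
    exact rm (j := 1) rfl (by omega) (gr f) _ (hkill (gr f x)) x (hmem x) h1
  -- points in `A`
  have hAc : A.card * (p - 1) ≤ p ^ κ := by
    have h1 : A.card * (p - 1) ≤ (univ.filter fun z : H × H => z.1 ≠ z.2 ∧
        ∃ g' : H × K, p • g' = gr f z.1 - gr f z.2).card := by
      have h2 : ∑ x ∈ A, ((univ.filter fun z : H × H => z.1 ≠ z.2 ∧
          ∃ g' : H × K, p • g' = gr f z.1 - gr f z.2).filter fun z => z.1 = x).card ≤
          (univ.filter fun z : H × H => z.1 ≠ z.2 ∧
          ∃ g' : H × K, p • g' = gr f z.1 - gr f z.2).card :=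
        by
          rw [← card_biUnion]
          · refine card_le_card fun z hz => ?_
            rw [mem_biUnion] at hz
            obtain ⟨x, -, hx⟩ := hz
            exact (mem_filter.1 hx).1
          · intro x _ y _ hxy
            rw [Function.onFun, disjoint_left]
            intro z hz hz'
            exact hxy ((mem_filter.1 hz).2.symm.trans (mem_filter.1 hz').2)
      refine le_trans ?_ h2
      rw [← smul_eq_mul]
      refine card_nsmul_le_sum _ _ _ fun x hx => ?_
      rw [hA, mem_filter] at hx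
      have hxc : x ∈ cls p (gr f) (sl p f (p • gr f x)) (gr f x) := by
        rw [cls, mem_filter]; exact ⟨hmem x, fun _ => rfl⟩
      have h3 : p ≤ (cls p (gr f) (sl p f (p • gr f x)) (gr f x)).card :=
        Nat.le_of_dvd (card_pos.2 ⟨x, hxc⟩) hx.2
      have h4 : p - 1 ≤ ((cls p (gr f) (sl p f (p • gr f x)) (gr f x)).erase x).card := by
        rw [card_erase_of_mem hxc]; omega
      refine h4.trans (card_le_card_of_injOn (fun y => (x, y)) ?_ ?_)
      · intro y hy
        rw [mem_coe, mem_erase, cls, mem_filter] at hy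
        rw [mem_coe, mem_filter, mem_filter]
        refine ⟨⟨mem_univ _, fun h => hy.1 h.symm, ?_⟩, rfl⟩
        exact sep _ fun l => by rw [map_sub, hy.2.2 l, sub_self]
      · intro y _ y' _ h
        exact (Prod.ext_iff.1 h).2
    refine h1.trans ?_
    have h2 := pair_count f hf fun g => ∃ g' : H × K, p • g' = g
    have h3 : (univ.filter fun z : H × H => z.1 ≠ z.2 ∧
        ∃ g' : H × K, p • g' = gr f z.1 - gr f z.2).card =
        (univ.filter fun g : H × K => g.1 ≠ 0 ∧ ∃ g' : H × K, p • g' = g).card := by convert h2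
    rw [h3, ← hκ, Nat.card_eq_fintype_card, ← Set.toFinset_card]
    refine card_le_card fun g hg => ?_
    rw [mem_filter] at hg
    obtain ⟨g', hg'⟩ := hg.2.2
    rw [Set.mem_toFinset]
    exact ⟨g', hg'⟩
  have h3 := Rank.pairs_le (p := p) f hf
  have h4 := Rank.card_ker hH hK hκ
  have h5 : (univ.filter fun g : H × K => p • g = 0).card = p ^ (κ + a) * p ^ a := by
    have h6 : (univ.filter fun g : H × K => p • g = 0).card * p ^ κ =
        p ^ (κ + a) * p ^ a * p ^ κ := by
      rw [h4]; ring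
    exact Nat.eq_of_mul_eq_mul_right (pow_pos hpp.pos κ) h6
  have h6 : 2 * p ^ a * (p ^ (κ + a) - A.card) ≤ ∑ x, (sl p f (p • gr f x)).card := by
    have h7 : (p ^ (κ + a) - A.card) = Aᶜ.card := by rw [card_compl, hH]
    rw [h7, mul_comm, ← smul_eq_mul]
    refine (card_nsmul_le_sum _ _ _ fun x hx => hB x (mem_compl.1 hx)).trans ?_
    exact sum_le_sum_of_subset (subset_univ _)
  rw [hH, h5] at h3
  have h7 : A.card ≤ p ^ (κ + a) := by rw [← hH]; exact card_le_univ A
  obtain ⟨c, hc⟩ : ∃ c, p ^ (κ + a) = A.card + c := ⟨_, (Nat.add_sub_cancel' h7).symm⟩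
  rw [hc, Nat.add_sub_cancel_left] at h6
  -- numbers
  have hpa : p ≤ p ^ a := by
    calc p = p ^ 1 := (pow_one p).symm
      _ ≤ p ^ a := Nat.pow_le_pow_right hpp.pos ha
  have hY : p ^ (κ + a) = p ^ κ * p ^ a := pow_add _ _ _
  have hYk : 0 < p ^ κ := pow_pos hpp.pos _
  have h8 : A.card * 4 ≤ p ^ κ := (Nat.mul_le_mul_left _ (by omega)).trans hAc
  have h9 : 2 * p ^ a * c ≤ p ^ (κ + a) + p ^ (κ + a) * p ^ a := h6.trans h3
  have h10 : 2 * p ^ a * (A.card * 4) ≤ 2 * p ^ a * p ^ κ := Nat.mul_le_mul_left _ h8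
  have h11 : 4 * (2 * p ^ a * p ^ (κ + a)) ≤ 4 * (p ^ (κ + a) + p ^ (κ + a) * p ^ a) +
      2 * p ^ (κ + a) := by
    calc 4 * (2 * p ^ a * p ^ (κ + a)) = 4 * (2 * p ^ a * c) + 2 * p ^ a * (A.card * 4) := by
          rw [hc]; ring
      _ ≤ 4 * (p ^ (κ + a) + p ^ (κ + a) * p ^ a) + 2 * p ^ a * p ^ κ := by
          exact Nat.add_le_add (Nat.mul_le_mul_left _ h9) h10
      _ = _ := by rw [hY]; ring
  have hN : 0 < p ^ (κ + a) := pow_pos hpp.pos _
  have h12 : p ^ (κ + a) * 5 ≤ p ^ (κ + a) * p ^ a := Nat.mul_le_mul_left _ (hp.trans hpa)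
  nlinarith

end Pool.Agent.H16.RB
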