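import Pool.Agent.H16.RB.Rank
import Pool.Agent.H16.RB.Cls2

/-!
# RB module T2a: the case `r = 2 s`, `|p G| = p ^ s`, `p ^ 2 G = 0`: setting and counts

Sketch.  `p G = p H × p K`, `G[p] = H[p] × K[p]`; kernels and images of multiplication by `p` on `H`,
`K`; `kills`: `sl_kills` with `r = 2 s`, `κ = s`; `card_coll`, `sum_sq`: `pair_count`
(`∑ v, (sl v).card ^ 2` is the number of pairs `(x, x')` with `p • gr f x = p • gr f x'`, i.e. the `p ^ (2 s)`
diagonal pairs and the pairs with `p • (gr f x - gr f x') = 0`, `x ≠ x'`; `|G[p]| = p ^ (3 s)`, and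
those `g` with `g.1 = 0` are `|K[p]| = p ^ (s + u)`).
-/

set_option autoImplicit false

namespace Pool.Agent.H16.RB

open Finset Pool.Agent.H88.Pl
open scoped Classical

/-- The setting: `|H| = |K| = p ^ (2 s)`, `p ^ 2 G = 0`, `|p H| = p ^ u`, `|p K| = p ^ t`,
`u + t = s`, and `f` is planar. -/
structure D2 (p s t u : ℕ) {H K : Type*} [AddCommGroup H] [AddCommGroup K] [Fintype H] [Fintype K]
    (f : H → K) : Prop where
  hp : 5 ≤ p
  hs : 1 ≤ s
  h3 : 3 * (s - 1) < p
  hH : Fintype.card H = p ^ (2 * s)
  hK : Fintype.card K = p ^ (2 * s)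
  hf : IsPlanar f
  h2 : ∀ g : H × K, p • p • g = 0
  hu : (univ.image fun h : H => p • h).card = p ^ u
  ht : (univ.image fun k : K => p • k).card = p ^ t
  hut : u + t = s

/-- collisions: pairs of distinct points of the graph congruent modulo `p G` -/
noncomputable def coll {H K : Type*} [AddCommGroup H] [AddCommGroup K] [Fintype H] (p : ℕ)
    (f : H → K) : Finset (H × H) :=
  univ.filter fun z => z.1 ≠ z.2 ∧ ∃ g : H × K, p • g = gr f z.1 - gr f z.2

/-- the points of `p G` -/
noncomputable def PG (p : ℕ) (H K : Type*) [AddCommGroup H] [AddCommGroup K] [Fintype H]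
    [Fintype K] : Finset (H × K) :=
  univ.image fun g : H × K => p • g

variable {p s t u : ℕ} [Fact p.Prime] {H K : Type*} [AddCommGroup H] [AddCommGroup K] [Fintype H]
  [Fintype K] {f : H → K}

omit [Fact p.Prime] in
/-- the fibres of multiplication by `p` all have the same size -/
private theorem fib_card {A : Type*} [AddCommGroup A] [Fintype A] (p : ℕ) (a : A) :
    (univ.image fun x : A => p • x).card * (univ.filter fun x : A => p • x = p • a).card =
      Fintype.card A := by
  have h := card_eq_sum_card_image (fun x : A => p • x) (univ : Finset A)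
  rw [card_univ] at h
  rw [h, ← smul_eq_mul, ← sum_const]
  refine sum_congr rfl fun b hb => ?_
  obtain ⟨c, -, rfl⟩ := mem_image.1 hb
  refine card_bij (fun x _ => x - a + c) ?_ ?_ ?_
  · intro x hx
    rw [mem_filter] at hx ⊢
    refine ⟨mem_univ _, ?_⟩
    rw [smul_add, smul_sub, hx.2, sub_self, zero_add]
  · intro x _ y _ hxy
    simpa using hxy
  · intro y hy
    rw [mem_filter] at hy
    refine ⟨y - c + a, ?_, by abel⟩
    rw [mem_filter]
    refine ⟨mem_univ _, ?_⟩
    rw [smul_add, smul_sub, hy.2, sub_self, zero_add]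

private theorem PG_eq (p : ℕ) (H K : Type*) [AddCommGroup H] [AddCommGroup K] [Fintype H]
    [Fintype K] :
    PG p H K = (univ.image fun h : H => p • h) ×ˢ (univ.image fun k : K => p • k) := by
  ext g
  constructor
  · intro hg
    obtain ⟨x, -, rfl⟩ := mem_image.1 hg
    exact mem_product.2 ⟨mem_image.2 ⟨x.1, mem_univ _, rfl⟩, mem_image.2 ⟨x.2, mem_univ _, rfl⟩⟩
  · intro hg
    obtain ⟨h1, h2⟩ := mem_product.1 hg
    obtain ⟨x, -, hx⟩ := mem_image.1 h1
    obtain ⟨y, -, hy⟩ := mem_image.1 h2
    exact mem_image.2 ⟨(x, y), mem_univ _, Prod.ext hx hy⟩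

theorem D2.card_PG (D : D2 p s t u f) : (PG p H K).card = p ^ s := by
  rw [PG_eq, card_product, D.hu, D.ht, ← pow_add, D.hut]

/-- elements of `H` with given `p`-multiple -/
theorem D2.card_pH (D : D2 p s t u f) (a : H) :
    (univ.filter fun h : H => p • h = p • a).card = p ^ (s + t) := by
  have h := fib_card p a
  rw [D.hu, D.hH] at h
  have hp : 0 < p ^ u := pow_pos (by have := D.hp; omega) _
  refine Nat.eq_of_mul_eq_mul_left hp ?_
  rw [h, ← pow_add]
  congr 1
  have := D.hut
  omega

/-- elements of `K` with given `p`-multiple -/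
theorem D2.card_pK (D : D2 p s t u f) (b : K) :
    (univ.filter fun k : K => p • k = p • b).card = p ^ (s + u) := by
  have h := fib_card p b
  rw [D.ht, D.hK] at h
  have hp : 0 < p ^ t := pow_pos (by have := D.hp; omega) _
  refine Nat.eq_of_mul_eq_mul_left hp ?_
  rw [h, ← pow_add]
  congr 1
  have := D.hut
  omega

theorem D2.kills (D : D2 p s t u f) (v : H × K) (hv : v ∈ PG p H K) :
    Kills p (gr f) (sl p f v) (s * (p - 1) - s + 1) := by
  obtain ⟨w, -, rfl⟩ := mem_image.1 hv
  have hp := D.hp
  have hs := D.hs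
  refine sl_kills (r := 2 * s) (κ := s) (by omega) D.hH D.hK f D.hf hs ?_ ?_ w
  · have h := D.card_PG
    rw [← h, Nat.card_coe_set_eq, ← Set.ncard_coe_finset]
    congr 1
    ext g
    simp [PG]
  · have h1 : s ≤ s * (p - 1) := Nat.le_mul_of_pos_right _ (by omega)
    have h2 : s + (s * (p - 1) - s + 1) = s * (p - 1) + 1 := by omega
    rw [h2, mul_assoc]
    omega

theorem D2.card_coll (D : D2 p s t u f) : (coll p f).card + p ^ t = p ^ s := by
  have h1 : (coll p f).card =
      (univ.filter fun g : H × K => g.1 ≠ 0 ∧ ∃ g' : H × K, p • g' = g).card := by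
    have := pair_count f D.hf fun g => ∃ g' : H × K, p • g' = g
    refine Eq.trans ?_ (this.trans ?_)
    · congr 1
    · congr 1
      ext z
      simp only [mem_filter]
  have h2 : (univ.filter fun g : H × K => g.1 ≠ 0 ∧ ∃ g' : H × K, p • g' = g) =
      (PG p H K).filter fun g => ¬ g.1 = 0 := by
    ext g
    simp [PG, and_comm]
  have h3 : ((PG p H K).filter fun g => g.1 = 0).card = p ^ t := by
    rw [← D.ht]
    refine card_bij (fun g _ => g.2) ?_ ?_ ?_
    · intro g hg
      have := (mem_filter.1 hg).1
      rw [PG_eq] at this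
      exact (mem_product.1 this).2
    · intro g hg g' hg' h
      have e1 := (mem_filter.1 hg).2
      have e2 := (mem_filter.1 hg').2
      exact Prod.ext (e1.trans e2.symm) h
    · intro k hk
      refine ⟨(0, k), ?_, rfl⟩
      rw [mem_filter, PG_eq]
      refine ⟨mem_product.2 ⟨mem_image.2 ⟨0, mem_univ _, smul_zero _⟩, hk⟩, rfl⟩
  have h4 := card_filter_add_card_filter_not (s := PG p H K) (fun g : H × K => g.1 = 0)
  rw [h1, h2, ← h3, ← D.card_PG, add_comm]
  exact h4

/-- pairs of points of the graph with the same `p`-multiple -/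
theorem D2.sum_sq (D : D2 p s t u f) :
    ∑ v ∈ PG p H K, (sl p f v).card ^ 2 + p ^ (s + u) = p ^ (2 * s) + p ^ (3 * s) := by
  have h1 : ∑ v ∈ PG p H K, (sl p f v).card ^ 2 =
      (univ.filter fun z : H × H => p • gr f z.1 = p • gr f z.2).card := by
    have h0 := Pool.Agent.H16.RB.sum_sq (fun x : H => p • gr f x)
    have h0' : (univ.filter fun z : H × H => p • gr f z.1 = p • gr f z.2).card =
        ∑ v : H × K, (univ.filter fun x => p • gr f x = v).card ^ 2 := by
      refine Eq.trans ?_ (h0.symm.trans ?_)
      · congr 1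
        ext z
        simp only [mem_filter]
      · refine sum_congr rfl fun v _ => ?_
        congr 2
        ext z
        simp only [mem_filter]
    rw [h0']
    refine sum_subset (subset_univ _) fun v _ hv => ?_
    have : sl p f v = ∅ := by
      refine filter_eq_empty_iff.2 fun x _ hx => hv ?_
      exact mem_image.2 ⟨gr f x, mem_univ _, hx⟩
    change (sl p f v).card ^ 2 = 0
    rw [this]
    rfl
  have h2 := card_filter_add_card_filter_not
    (s := univ.filter fun z : H × H => p • gr f z.1 = p • gr f z.2) (fun z : H × H => z.1 = z.2)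
  have h3 : ((univ.filter fun z : H × H => p • gr f z.1 = p • gr f z.2).filter
      fun z : H × H => z.1 = z.2).card = p ^ (2 * s) := by
    rw [← D.hH, ← card_univ]
    symm
    refine card_bij (fun x _ => (x, x)) ?_ ?_ ?_
    · intro x _
      simp
    · intro x _ y _ h
      exact (Prod.ext_iff.1 h).1
    · intro z hz
      have := (mem_filter.1 hz).2
      exact ⟨z.1, mem_univ _, Prod.ext rfl this⟩
  have h4 : ((univ.filter fun z : H × H => p • gr f z.1 = p • gr f z.2).filter
      fun z : H × H => ¬ z.1 = z.2).card =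
      (univ.filter fun g : H × K => g.1 ≠ 0 ∧ p • g = 0).card := by
    have h0 := pair_count f D.hf fun g => p • g = 0
    have h0' : (univ.filter fun g : H × K => g.1 ≠ 0 ∧ p • g = 0).card =
        (univ.filter fun z : H × H => z.1 ≠ z.2 ∧ p • (gr f z.1 - gr f z.2) = 0).card := by
      refine Eq.trans ?_ (h0.symm.trans ?_)
      · congr 1
        ext z
        simp only [mem_filter]
      · congr 1
        ext z
        simp only [mem_filter]
    rw [h0']
    congr 1
    ext z
    simp only [mem_filter, mem_univ, true_and, ne_eq, smul_sub, sub_eq_zero]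
    exact and_comm
  have h5 := card_filter_add_card_filter_not
    (s := univ.filter fun g : H × K => p • g = 0) (fun g : H × K => g.1 = 0)
  have h6 : ((univ.filter fun g : H × K => p • g = 0).filter fun g : H × K => ¬ g.1 = 0).card =
      (univ.filter fun g : H × K => g.1 ≠ 0 ∧ p • g = 0).card := by
    congr 1
    ext g
    simp only [mem_filter, mem_univ, true_and, ne_eq]
    exact and_comm
  have h7 : (univ.filter fun g : H × K => p • g = 0).card = p ^ (3 * s) := by
    have e : (univ.filter fun g : H × K => p • g = 0) =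
        (univ.filter fun h : H => p • h = p • (0 : H)) ×ˢ
          (univ.filter fun k : K => p • k = p • (0 : K)) := by
      ext g
      simp only [mem_filter, mem_univ, true_and, mem_product, smul_zero, Prod.ext_iff,
        Prod.smul_fst, Prod.smul_snd, Prod.fst_zero, Prod.snd_zero]
    rw [e, card_product, D.card_pH, D.card_pK, ← pow_add]
    congr 1
    have := D.hut
    omega
  have h8 : ((univ.filter fun g : H × K => p • g = 0).filter fun g : H × K => g.1 = 0).card =
      p ^ (s + u) := by
    rw [← D.card_pK 0]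
    refine card_bij (fun g _ => g.2) ?_ ?_ ?_
    · intro g hg
      have := (mem_filter.1 (mem_filter.1 hg).1).2
      rw [mem_filter, smul_zero]
      exact ⟨mem_univ _, (Prod.ext_iff.1 this).2⟩
    · intro g hg g' hg' h
      have e1 := (mem_filter.1 hg).2
      have e2 := (mem_filter.1 hg').2
      exact Prod.ext (e1.trans e2.symm) h
    · intro k hk
      have := (mem_filter.1 hk).2
      rw [smul_zero] at this
      refine ⟨(0, k), ?_, rfl⟩
      rw [mem_filter, mem_filter]
      exact ⟨⟨mem_univ _, Prod.ext (smul_zero p) this⟩, rfl⟩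
  omega

/-- the slices with given first component -/
theorem D2.sum_fst (D : D2 p s t u f) (a : H) :
    ∑ v ∈ (PG p H K).filter (fun v => v.1 = p • a), (sl p f v).card = p ^ (s + t) ∧
      ((PG p H K).filter (fun v => v.1 = p • a)).card = p ^ t := by
  constructor
  · rw [← D.card_pH a]
    have h := card_eq_sum_card_fiberwise (f := fun x : H => p • gr f x)
      (s := univ.filter fun h : H => p • h = p • a)
      (t := (PG p H K).filter (fun v => v.1 = p • a)) ?_
    · rw [h]
      refine sum_congr rfl fun v hv => ?_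
      congr 1
      ext x
      have hv2 := (mem_filter.1 hv).2
      simp only [sl, mem_filter, mem_univ, true_and]
      constructor
      · intro hx
        refine ⟨?_, hx⟩
        rw [← hv2, ← hx]
        rfl
      · exact fun hx => hx.2
    · intro x hx
      have hx2 := (mem_filter.1 (mem_coe.1 hx)).2
      exact mem_coe.2 (mem_filter.2 ⟨mem_image.2 ⟨gr f x, mem_univ _, rfl⟩, hx2⟩)
  · rw [← D.ht]
    refine card_bij (fun g _ => g.2) ?_ ?_ ?_
    · intro g hg
      have := (mem_filter.1 hg).1
      rw [PG_eq] at this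
      exact (mem_product.1 this).2
    · intro g hg g' hg' h
      have e1 := (mem_filter.1 hg).2
      have e2 := (mem_filter.1 hg').2
      exact Prod.ext (e1.trans e2.symm) h
    · intro k hk
      refine ⟨(p • a, k), ?_, rfl⟩
      rw [mem_filter, PG_eq]
      exact ⟨mem_product.2 ⟨mem_image.2 ⟨a, mem_univ _, rfl⟩, hk⟩, rfl⟩

end Pool.Agent.H16.RB
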