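import Pool.Agent.H16.RB.T2a

/-!
# RB module T2b: good slices and the small slice

Sketch.  Two points in the same `cls` of a slice differ by an element of `p G` (`sep`).
`cls_one`: otherwise `cls_dvd'` gives that all classes of the slice have size at least `p`, so
`(p - 1) p ^ s ≤ card (coll) < p ^ s`.  `small_coll`: `cls_dvd`.  Two colliding points lie in the same slice
(`h2`).  `t_pos`: if `t = 0` then `u = s`, `∑ c_v ^ 2 = p ^ (3 s)`, `∑ c_v = p ^ (2 s)` (`c_v` slice sizes,
`p ^ s` slices), so all `c_v = p ^ s`, no collisions, but `card coll = p ^ s - 1 > 0`.  `exists_small`: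
otherwise all `c_v ≥ p ^ s`, so `= p ^ s`, and `sum_sq` gives `p ^ (s + u) = p ^ (2 s)`, `t = 0`.
In general `∑ (c_v - p ^ s) ^ 2 = p ^ (2 s) - p ^ (s + u)`.  `unique_small`: two small slices have
`(p - 1) (c_v + c_w) ≤ card coll < p ^ s`, so `(p ^ s - c_v) ^ 2 + (p ^ s - c_w) ^ 2 ≥ 2 p ^ (2 s) -
2 p ^ s (c_v + c_w) > p ^ (2 s)`.  `u_pos`: if `u = 0` there are no collisions, so the small slice is
empty and contributes `p ^ (2 s)`.  `good`: `sum_fst` and `unique_small`.
-/

set_option autoImplicit false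

namespace Pool.Agent.H16.RB

open Finset Pool.Agent.H88.Pl
open scoped Classical

variable {p s t u : ℕ} [Fact p.Prime] {H K : Type*} [AddCommGroup H] [AddCommGroup K] [Fintype H]
  [Fintype K] {f : H → K}

namespace T2b

theorem mem_sl {v : H × K} {x : H} : x ∈ sl p f v ↔ p • gr f x = v := by
  simp [sl]

theorem self_mem_cls {v : H × K} {x : H} (hx : x ∈ sl p f v) :
    x ∈ cls p (gr f) (sl p f v) (gr f x) := by
  simp only [cls, mem_filter]
  exact ⟨hx, fun _ => trivial⟩

/-- distinct points in the same class of a slice collide -/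
theorem coll_of_cls {v : H × K} {x x' : H}
    (hx' : x' ∈ cls p (gr f) (sl p f v) (gr f x)) (hne : x ≠ x') : (x, x') ∈ coll p f := by
  simp only [cls, mem_filter] at hx'
  obtain ⟨g', hg'⟩ := sep (p := p) (gr f x - gr f x') (fun l => by
    rw [map_sub, hx'.2 l, sub_self])
  simp only [coll, mem_filter, mem_univ, true_and]
  exact ⟨hne, g', hg'⟩

/-- colliding points lie in the same slice -/
theorem coll_sl (D : D2 p s t u f) {x x' : H} (h : (x, x') ∈ coll p f) :
    p • gr f x = p • gr f x' := by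
  simp only [coll, mem_filter, mem_univ, true_and] at h
  obtain ⟨_, g, hg⟩ := h
  have := D.h2 g
  rw [hg, smul_sub, sub_eq_zero] at this
  exact this

/-- colliding points lie in the same class -/
theorem cls_of_coll (D : D2 p s t u f) {x x' : H} (h : (x, x') ∈ coll p f) {v : H × K}
    (hx : x ∈ sl p f v) : x' ∈ cls p (gr f) (sl p f v) (gr f x) := by
  have h1 := coll_sl D h
  simp only [coll, mem_filter, mem_univ, true_and] at h
  obtain ⟨_, g, hg⟩ := h
  simp only [cls, mem_filter]
  refine ⟨?_, fun l => ?_⟩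
  · rw [mem_sl] at hx ⊢
    rw [← h1, hx]
  · have h2 : l (gr f x - gr f x') = 0 := by
      rw [← hg, map_nsmul]
      simp
    rw [map_sub, sub_eq_zero] at h2
    exact h2.symm

/-- if all classes of a slice are large there are many collisions -/
theorem coll_ge (v : H × K)
    (h : ∀ x ∈ sl p f v, p ≤ (cls p (gr f) (sl p f v) (gr f x)).card) :
    (p - 1) * (sl p f v).card ≤ ((coll p f).filter fun z => z.1 ∈ sl p f v).card := by
  rw [Finset.card_eq_sum_card_fiberwise (f := Prod.fst) (t := sl p f v)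
    (s := (coll p f).filter fun z => z.1 ∈ sl p f v)]
  · rw [mul_comm, ← smul_eq_mul]
    apply Finset.card_nsmul_le_sum
    intro x hx
    have h1 : (((cls p (gr f) (sl p f v) (gr f x)).erase x).image fun x' => (x, x')).card ≤
        (((coll p f).filter fun z => z.1 ∈ sl p f v).filter fun z => z.1 = x).card := by
      apply Finset.card_le_card
      intro z hz
      simp only [mem_image, mem_erase] at hz
      obtain ⟨x', ⟨hne, hx'⟩, rfl⟩ := hz
      simp only [mem_filter]
      exact ⟨⟨coll_of_cls hx' (Ne.symm hne), hx⟩, trivial⟩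
    rw [Finset.card_image_of_injective _ (by
      intro a b hab
      exact (Prod.mk.inj hab).2), Finset.card_erase_of_mem (self_mem_cls hx)] at h1
    exact le_trans (Nat.sub_le_sub_right (h x hx) 1) h1
  · intro z hz
    rw [Finset.mem_coe, mem_filter] at hz
    exact hz.2

theorem pos_of_mem {v : H × K} {x : H} (hx : x ∈ sl p f v) :
    0 < (cls p (gr f) (sl p f v) (gr f x)).card :=
  Finset.card_pos.2 ⟨x, self_mem_cls hx⟩

theorem coll_lt (D : D2 p s t u f) : (coll p f).card < p ^ s := by
  have h := D.card_coll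
  have h1 : 0 < p ^ t := pow_pos (by have := D.hp; omega) _
  omega

/-- the slices partition `H` -/
theorem sum_sl (D : D2 p s t u f) : ∑ v ∈ PG p H K, (sl p f v).card = p ^ (2 * s) := by
  rw [← D.hH, ← Finset.card_univ, Finset.card_eq_sum_card_fiberwise (f := fun x => p • gr f x)
    (t := PG p H K) (s := univ)]
  · rfl
  · intro x _
    simp only [PG, coe_image, coe_univ, Set.image_univ, Set.mem_range]
    exact ⟨gr f x, rfl⟩

/-- the variance of the slice sizes -/
theorem var (D : D2 p s t u f) :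
    ∑ v ∈ PG p H K, (((sl p f v).card : ℤ) - (p : ℤ) ^ s) ^ 2 =
      (p : ℤ) ^ (2 * s) - (p : ℤ) ^ (s + u) := by
  have h1 : (∑ v ∈ PG p H K, ((sl p f v).card : ℤ)) = (p : ℤ) ^ (2 * s) := by
    exact_mod_cast sum_sl D
  have h2 : (∑ v ∈ PG p H K, ((sl p f v).card : ℤ) ^ 2) + (p : ℤ) ^ (s + u) =
      (p : ℤ) ^ (2 * s) + (p : ℤ) ^ (3 * s) := by
    exact_mod_cast D.sum_sq
  have h3 : ((PG p H K).card : ℤ) = (p : ℤ) ^ s := by
    exact_mod_cast D.card_PG
  have h4 : ∑ v ∈ PG p H K, (((sl p f v).card : ℤ) - (p : ℤ) ^ s) ^ 2 =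
      (∑ v ∈ PG p H K, ((sl p f v).card : ℤ) ^ 2) -
        2 * (p : ℤ) ^ s * (∑ v ∈ PG p H K, ((sl p f v).card : ℤ)) +
        ((PG p H K).card : ℤ) * ((p : ℤ) ^ s) ^ 2 := by
    rw [Finset.mul_sum, ← Finset.sum_sub_distrib, ← nsmul_eq_mul, ← Finset.sum_const,
      ← Finset.sum_add_distrib]
    apply Finset.sum_congr rfl
    intro v _
    ring
  rw [h4, h1, h3]
  have h5 : (p : ℤ) ^ (3 * s) = (p : ℤ) ^ s * ((p : ℤ) ^ s) ^ 2 := by ring
  have h6 : (p : ℤ) ^ (2 * s) = ((p : ℤ) ^ s) ^ 2 := by ring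
  rw [h5] at h2
  rw [h6] at h2 ⊢
  linear_combination h2

end T2b

open T2b

/-- a slice with exactly `p ^ s` points has no collisions -/
theorem D2.cls_one (D : D2 p s t u f) (v : H × K) (hv : v ∈ PG p H K)
    (hc : (sl p f v).card = p ^ s) (x : H) (hx : x ∈ sl p f v) :
    (cls p (gr f) (sl p f v) (gr f x)).card = 1 := by
  by_contra hne
  have h0 := pos_of_mem hx
  have h2 : 2 ≤ (cls p (gr f) (sl p f v) (gr f x)).card := by omega
  have h3 := coll_ge (p := p) (f := f) v (fun z hz => Nat.le_of_dvd (pos_of_mem hz)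
    (cls_dvd' D.hs D.h3 (gr f) (sl p f v) (D.kills v hv) hc.le x hx h2 z hz))
  have h4 : ((coll p f).filter fun z => z.1 ∈ sl p f v).card ≤ (coll p f).card :=
    Finset.card_filter_le _ _
  have h5 := coll_lt D
  rw [hc] at h3
  have h6 : 1 * p ^ s ≤ (p - 1) * p ^ s := Nat.mul_le_mul_right _ (by have := D.hp; omega)
  omega

/-- a slice with less than `p ^ s` points has many collisions -/
theorem D2.small_coll (D : D2 p s t u f) (v : H × K) (hv : v ∈ PG p H K)
    (hc : (sl p f v).card < p ^ s) :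
    (p - 1) * (sl p f v).card ≤ ((coll p f).filter fun z => z.1 ∈ sl p f v).card :=
  coll_ge (p := p) (f := f) v (fun z hz => Nat.le_of_dvd (pos_of_mem hz)
    (cls_dvd D.hs D.h3 (gr f) (sl p f v) (D.kills v hv) hc z hz))

namespace T2b

/-- if all slices have `p ^ s` points there are no collisions -/
theorem no_coll (D : D2 p s t u f) (h : ∀ v ∈ PG p H K, (sl p f v).card = p ^ s) :
    (coll p f).card = 0 := by
  rw [Finset.card_eq_zero, Finset.eq_empty_iff_forall_notMem]
  rintro ⟨x, x'⟩ hx
  have hv : p • gr f x ∈ PG p H K := by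
    simp only [PG, mem_image, mem_univ, true_and]
    exact ⟨gr f x, rfl⟩
  have hxs : x ∈ sl p f (p • gr f x) := mem_sl.2 rfl
  have h1 := D.cls_one _ hv (h _ hv) x hxs
  have h2 := cls_of_coll D hx hxs
  rw [Finset.card_eq_one] at h1
  obtain ⟨a, ha⟩ := h1
  have h3 := self_mem_cls hxs
  rw [ha, mem_singleton] at h2 h3
  have h4 : x ≠ x' := by
    simp only [coll, mem_filter, mem_univ, true_and] at hx
    exact hx.1
  exact h4 (h3.trans h2.symm)

/-- if all slices have `p ^ s` points then `t = 0` -/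
theorem t_zero (D : D2 p s t u f) (h : ∀ v ∈ PG p H K, (sl p f v).card = p ^ s) : t = 0 := by
  have h1 := var D
  rw [Finset.sum_eq_zero] at h1
  · have h2 : (p : ℤ) ^ (s + u) = (p : ℤ) ^ (2 * s) := by linarith
    have h3 : p ^ (s + u) = p ^ (2 * s) := by exact_mod_cast h2
    have h4 := Nat.pow_right_injective (by have := D.hp; omega : 2 ≤ p) h3
    have := D.hut
    omega
  · intro v hv
    rw [h v hv]
    push_cast
    ring

end T2b

/-- for `t = 0` there is a contradiction -/
theorem D2.t_pos (D : D2 p s t u f) : 1 ≤ t := by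
  by_contra ht
  have ht0 : t = 0 := by omega
  have hu : u = s := by have := D.hut; omega
  have h1 := var D
  rw [hu, ← two_mul, sub_self, Finset.sum_eq_zero_iff_of_nonneg (fun v _ => sq_nonneg _)] at h1
  have h2 : ∀ v ∈ PG p H K, (sl p f v).card = p ^ s := by
    intro v hv
    have h3 := h1 v hv
    have h4 : ((sl p f v).card : ℤ) = (p : ℤ) ^ s := by
      have := pow_eq_zero_iff (two_ne_zero) |>.1 h3
      linarith
    exact_mod_cast h4
  have h3 := no_coll D h2
  have h4 := D.card_coll
  rw [h3, ht0] at h4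
  have h5 : 1 < p ^ s := Nat.one_lt_pow (by have := D.hs; omega) (by have := D.hp; omega)
  simp at h4
  omega

theorem D2.exists_small (D : D2 p s t u f) : ∃ v ∈ PG p H K, (sl p f v).card < p ^ s := by
  by_contra hcon
  push Not at hcon
  have h1 : ∑ v ∈ PG p H K, p ^ s = ∑ v ∈ PG p H K, (sl p f v).card := by
    rw [sum_sl D, Finset.sum_const, D.card_PG, smul_eq_mul]
    ring
  have h2 := (Finset.sum_eq_sum_iff_of_le hcon).1 h1
  have h3 := t_zero D (fun v hv => (h2 v hv).symm)
  have := D.t_pos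
  omega

theorem D2.unique_small (D : D2 p s t u f) (v w : H × K) (hv : v ∈ PG p H K)
    (hw : w ∈ PG p H K) (hcv : (sl p f v).card < p ^ s) (hcw : (sl p f w).card < p ^ s) : v = w := by
  by_contra hvw
  have h1 := D.small_coll v hv hcv
  have h2 := D.small_coll w hw hcw
  have h3 : ((coll p f).filter fun z => z.1 ∈ sl p f v).card +
      ((coll p f).filter fun z => z.1 ∈ sl p f w).card ≤ (coll p f).card := by
    rw [← Finset.card_union_of_disjoint]
    · apply Finset.card_le_card
      apply Finset.union_subset <;> apply Finset.filter_subset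
    · rw [Finset.disjoint_filter]
      intro z _ hz hz'
      rw [mem_sl] at hz hz'
      exact hvw (hz.symm.trans hz')
  have h4 := coll_lt D
  have h5 : 4 * (sl p f v).card ≤ (p - 1) * (sl p f v).card :=
    Nat.mul_le_mul_right _ (by have := D.hp; omega)
  have h6 : 4 * (sl p f w).card ≤ (p - 1) * (sl p f w).card :=
    Nat.mul_le_mul_right _ (by have := D.hp; omega)
  have h7 : 4 * (sl p f v).card + 4 * (sl p f w).card < p ^ s := by omega
  have h8 := var D
  have h9 : ∑ x ∈ ({v, w} : Finset (H × K)), (((sl p f x).card : ℤ) - (p : ℤ) ^ s) ^ 2 ≤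
      ∑ x ∈ PG p H K, (((sl p f x).card : ℤ) - (p : ℤ) ^ s) ^ 2 := by
    apply Finset.sum_le_sum_of_subset_of_nonneg
    · intro x hx
      simp only [mem_insert, mem_singleton] at hx
      rcases hx with rfl | rfl <;> assumption
    · intro x _ _
      exact sq_nonneg _
  rw [Finset.sum_pair hvw, h8] at h9
  have h10 : 4 * ((sl p f v).card : ℤ) + 4 * ((sl p f w).card : ℤ) < (p : ℤ) ^ s := by
    exact_mod_cast h7
  have h11 : 0 ≤ (p : ℤ) ^ (s + u) := by positivity
  have h12 : (p : ℤ) ^ (2 * s) = ((p : ℤ) ^ s) ^ 2 := by ring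
  have h13 : 0 ≤ ((sl p f v).card : ℤ) := by positivity
  have h14 : 0 ≤ ((sl p f w).card : ℤ) := by positivity
  rw [h12] at h9
  generalize (p : ℤ) ^ s = P at *
  generalize ((sl p f v).card : ℤ) = a at *
  generalize ((sl p f w).card : ℤ) = b at *
  nlinarith [mul_pos (by linarith : 0 < P) (by linarith : 0 < P - 4 * a - 4 * b), sq_nonneg a,
    sq_nonneg b, mul_pos (by linarith : 0 < P) (by linarith : 0 < P)]

/-- for `u = 0` there is a contradiction -/
theorem D2.u_pos (D : D2 p s t u f) : 1 ≤ u := by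
  by_contra hu
  have hu0 : u = 0 := by omega
  have ht : t = s := by have := D.hut; omega
  have h1 := D.card_coll
  have h2 : (coll p f).card = 0 := by
    rw [ht] at h1
    omega
  obtain ⟨v, hv, hcv⟩ := D.exists_small
  have h3 := D.small_coll v hv hcv
  have h4 : ((coll p f).filter fun z => z.1 ∈ sl p f v).card ≤ (coll p f).card :=
    Finset.card_filter_le _ _
  have h5 : 4 * (sl p f v).card ≤ (p - 1) * (sl p f v).card :=
    Nat.mul_le_mul_right _ (by have := D.hp; omega)
  have h6 : (sl p f v).card = 0 := by omega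
  have h7 := var D
  have h8 : (((sl p f v).card : ℤ) - (p : ℤ) ^ s) ^ 2 ≤
      ∑ x ∈ PG p H K, (((sl p f x).card : ℤ) - (p : ℤ) ^ s) ^ 2 :=
    Finset.single_le_sum (f := fun x => (((sl p f x).card : ℤ) - (p : ℤ) ^ s) ^ 2)
      (fun x _ => sq_nonneg _) hv
  rw [h7, h6] at h8
  have h9 : 0 < (p : ℤ) ^ (s + u) := by
    have : 0 < (p : ℤ) := by have := D.hp; omega
    positivity
  have h10 : (p : ℤ) ^ (2 * s) = ((p : ℤ) ^ s) ^ 2 := by ring
  rw [h10] at h8
  push_cast at h8
  nlinarith

/-- the slices whose first component differs from that of the small slice are good -/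
theorem D2.good (D : D2 p s t u f) (v w : H × K) (hv : v ∈ PG p H K) (hw : w ∈ PG p H K)
    (hcw : (sl p f w).card < p ^ s) (hvw : v.1 ≠ w.1) : (sl p f v).card = p ^ s := by
  have hv' := hv
  simp only [PG, mem_image, mem_univ, true_and] at hv'
  obtain ⟨g, hg⟩ := hv'
  have hg1 : v.1 = p • g.1 := by rw [← hg]; rfl
  obtain ⟨h1, h2⟩ := D.sum_fst g.1
  have h3 : ∀ x ∈ (PG p H K).filter (fun v => v.1 = p • g.1), p ^ s ≤ (sl p f x).card := by
    intro x hx
    rw [mem_filter] at hx
    by_contra hlt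
    have h4 := D.unique_small x w hx.1 hw (by omega) hcw
    apply hvw
    rw [hg1, ← hx.2, h4]
  have h4 : ∑ x ∈ (PG p H K).filter (fun v => v.1 = p • g.1), p ^ s =
      ∑ x ∈ (PG p H K).filter (fun v => v.1 = p • g.1), (sl p f x).card := by
    rw [h1, Finset.sum_const, h2, smul_eq_mul]
    ring
  have h5 := (Finset.sum_eq_sum_iff_of_le h3).1 h4 v (mem_filter.2 ⟨hv, hg1⟩)
  exact h5.symm

end Pool.Agent.H16.RB
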