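import Pool.Agent.H16.RB.Defs
import Pool.Agent.H88.Pl.Planar

/-!
# RB module Val: valuations of the character sums over the graph

Sketch.  `z = ∑ x, ζ ^ (a (x, f x)).val` in `𝓞 L`, `π = ζ - 1`.  For every embedding `φ : L →+* ℂ`,
`φ z = ∑ x, χ (f x) * ψ x` with `χ k = φ ζ ^ (a (0, k)).val`, `ψ x = φ ζ ^ (a (x, 0)).val` (use
`pow_val_add` of `H88.Pl.Planar`).  If `a (0, k) ≠ 0` for some `k`, then `φ ζ` (a primitive root)
gives `χ k ≠ 1` and `planar_char` (H88.Pl.Planar) gives `‖φ z‖ ^ 2 = card H = p ^ r` for all `φ`; then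
`ArAux.dvd_of_norm` and `ArAux.assoc_of_norm` (H88.Pl.AR) give `Associated z (π ^ i)` with
`2 * i = r * finrank`, `finrank = φ(p ^ (k+1)) = p ^ k * (p - 1)`, so `i = M`.  If `a (0, k) = 0` for
all `k`, the sum is the sum of the character `x ↦ ζ ^ (a (x, 0)).val` over `H`, so it is `0` or
`card H = p ^ r`, and `π ^ finrank` is associated to `p` (see the proof of `assoc_of_norm`).
-/

set_option autoImplicit false

namespace Pool.Agent.H16.RB

open Finset NumberField Pool.Agent.H88.Pl

private lemma Val_pow_val_add {R : Type*} [CommRing R] {N : ℕ} [NeZero N] {ξ : R} (hξ : ξ ^ N = 1)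
    (x y : ZMod N) : ξ ^ (x + y).val = ξ ^ x.val * ξ ^ y.val := by
  rw [ZMod.val_add, ← pow_add]
  conv_rhs => rw [← Nat.mod_add_div (x.val + y.val) N, pow_add, pow_mul, hξ, one_pow, mul_one]

private lemma Val_ne_one {R : Type*} [CommRing R] {N : ℕ} [NeZero N] {ξ : R}
    (hξ : IsPrimitiveRoot ξ N) (x : ZMod N) (hx : x ≠ 0) : ξ ^ x.val ≠ 1 := by
  intro h
  have h1 := (hξ.pow_eq_one_iff_dvd _).1 h
  have h2 := Nat.eq_zero_of_dvd_of_lt h1 (ZMod.val_lt x)
  exact hx ((ZMod.val_eq_zero x).1 h2)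

theorem val_sum {p r k : ℕ} [Fact p.Prime] (hp : p ≠ 2) {H K : Type*} [AddCommGroup H]
    [AddCommGroup K] [Fintype H] [Fintype K] (hH : Fintype.card H = p ^ r) (f : H → K)
    (hf : IsPlanar f) {L : Type*} [Field L] [NumberField L]
    [IsCyclotomicExtension {p ^ (k + 1)} ℚ L] {ζ : L} (hζ : IsPrimitiveRoot ζ (p ^ (k + 1)))
    (a : H × K →+ ZMod (p ^ (k + 1))) (M : ℕ) (hM : 2 * M = r * (p ^ k * (p - 1))) :
    (hζ.toInteger - 1) ^ M ∣ ∑ x, hζ.toInteger ^ (a (gr f x)).val := by
  have hp1 : p.Prime := Fact.out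
  have hnz : p ^ (k + 1) ≠ 0 := pow_ne_zero _ hp1.ne_zero
  have : NeZero (p ^ (k + 1)) := ⟨hnz⟩
  have hfr : Module.finrank ℚ L = p ^ k * (p - 1) := by
    rw [IsCyclotomicExtension.finrank (n := p ^ (k + 1)) L
      (Polynomial.cyclotomic.irreducible_rat (Nat.pos_of_ne_zero hnz)),
      Nat.totient_prime_pow_succ hp1]
  have hsplit : ∀ x : H, a (gr f x) = a (0, f x) + a (x, 0) := by
    intro x
    rw [← map_add, gr]
    congr 1
    simp
  by_cases hK : ∃ y : K, a (0, y) ≠ 0
  · obtain ⟨y, hy⟩ := hK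
    have hn : ∀ φ : L →+* ℂ, ‖∑ x, (φ ζ) ^ (a (gr f x)).val‖ ^ 2 = (p : ℝ) ^ r := by
      intro φ
      have hξ : IsPrimitiveRoot (φ ζ) (p ^ (k + 1)) := hζ.map_of_injective φ.injective
      have hnorm : ‖φ ζ‖ = 1 := Complex.norm_eq_one_of_pow_eq_one hξ.pow_eq_one hnz
      have h1 := planar_char f hf (fun y => (φ ζ) ^ (a (0, y)).val)
        (fun y z => by
          have : a (0, y + z) = a (0, y) + a (0, z) := by
            rw [← map_add]; congr 1; simp
          rw [this, Val_pow_val_add hξ.pow_eq_one])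
        (fun y => by rw [norm_pow, hnorm, one_pow])
        ⟨y, Val_ne_one hξ _ hy⟩
        (fun x => (φ ζ) ^ (a (x, 0)).val)
        (fun y z => by
          have : a (y + z, 0) = a (y, 0) + a (z, 0) := by
            rw [← map_add]; congr 1; simp
          rw [this, Val_pow_val_add hξ.pow_eq_one])
        (fun y => by rw [norm_pow, hnorm, one_pow])
      rw [hH] at h1
      rw [← Nat.cast_pow, ← h1]
      congr 3
      funext x
      rw [hsplit, Val_pow_val_add hξ.pow_eq_one]
    have φ0 : L →+* ℂ := (IsAlgClosed.lift : L →ₐ[ℚ] ℂ).toRingHom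
    have hzd := ArAux.dvd_of_norm hζ r (fun x => (a (gr f x)).val) φ0 (hn φ0)
    obtain ⟨i, hi, hi2⟩ := ArAux.assoc_of_norm hp k hζ r
      (∑ x, hζ.toInteger ^ (a (gr f x)).val) hzd (fun φ => by
        rw [← hn φ]
        congr 2
        simp only [map_sum, map_pow]
        rfl)
    have him : i = M := by
      rw [hfr] at hi2
      omega
    rw [← him]
    exact hi.symm.dvd
  · push Not at hK
    have hpz : hζ.toInteger ^ (p ^ (k + 1)) = 1 := hζ.toInteger_isPrimitiveRoot.pow_eq_one
    have hz : ∀ x : H, a (gr f x) = a (x, 0) := by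
      intro x
      rw [hsplit, hK, zero_add]
    simp_rw [hz]
    by_cases hHx : ∃ x : H, a (x, 0) ≠ 0
    · obtain ⟨x0, hx0⟩ := hHx
      have h0 : ∑ x : H, hζ.toInteger ^ (a (x, 0)).val = 0 := by
        have h1 : hζ.toInteger ^ (a (x0, 0)).val * ∑ x : H, hζ.toInteger ^ (a (x, 0)).val =
            ∑ x : H, hζ.toInteger ^ (a (x, 0)).val := by
          rw [mul_sum, ← Equiv.sum_comp (Equiv.addLeft x0)
            (fun x : H => hζ.toInteger ^ (a (x, 0)).val)]
          refine sum_congr rfl fun x _ => ?_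
          rw [Equiv.coe_addLeft, ← Val_pow_val_add hpz, ← map_add]
          congr 3
          simp
        have h2 : (hζ.toInteger ^ (a (x0, 0)).val - 1) *
            ∑ x : H, hζ.toInteger ^ (a (x, 0)).val = 0 := by
          rw [sub_mul, h1, one_mul, sub_self]
        exact (mul_eq_zero.1 h2).resolve_left
          (sub_ne_zero.2 (Val_ne_one hζ.toInteger_isPrimitiveRoot _ hx0))
      rw [h0]
      exact dvd_zero _
    · push Not at hHx
      simp_rw [hHx]
      rw [ZMod.val_zero, pow_zero, sum_const, card_univ, hH, nsmul_eq_mul, mul_one, Nat.cast_pow]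
      have hass : Associated (p : 𝓞 L) ((hζ.toInteger - 1) ^ Module.finrank ℚ L) := by
        rw [← Ideal.span_singleton_eq_span_singleton, ← Ideal.span_singleton_pow,
          ← IsCyclotomicExtension.Rat.map_eq_span_zeta_sub_one_pow p k hζ, Ideal.map_span,
          Set.image_singleton]
        simp
      have h1 : (hζ.toInteger - 1) ^ M ∣ (hζ.toInteger - 1) ^ (Module.finrank ℚ L * r) := by
        apply pow_dvd_pow
        rw [hfr, mul_comm]
        omega
      refine h1.trans ?_
      rw [pow_mul]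
      exact (hass.pow_pow).symm.dvd

end Pool.Agent.H16.RB
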